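import Pool.Agent.Helper553.Orth.Final

set_option autoImplicit false
open MeasureTheory ProbabilityTheory Filter Topology Set Polynomial
open scoped ENNReal NNReal

namespace Pool.Agent.H142Z.Clt

/-- Bounded and Lipschitz on the unit interval, with the same constant. -/
def LB (f : ℝ → ℝ) (M : ℝ) : Prop :=
  (∀ x ∈ Icc (0 : ℝ) 1, |f x| ≤ M) ∧
    ∀ x ∈ Icc (0 : ℝ) 1, ∀ y ∈ Icc (0 : ℝ) 1, |f x - f y| ≤ M * |x - y|

theorem LB.nonneg {f : ℝ → ℝ} {M : ℝ} (h : LB f M) : 0 ≤ M :=
  (abs_nonneg _).trans (h.1 0 ⟨le_rfl, zero_le_one⟩)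

theorem LB.mono {f : ℝ → ℝ} {M N : ℝ} (h : LB f M) (hMN : M ≤ N) : LB f N :=
  ⟨fun x hx => (h.1 x hx).trans hMN, fun x hx y hy =>
    (h.2 x hx y hy).trans (mul_le_mul_of_nonneg_right hMN (abs_nonneg _))⟩

theorem LB.congr {f g : ℝ → ℝ} {M : ℝ} (h : LB f M) (hfg : ∀ x, g x = f x) : LB g M := by
  have : g = f := funext hfg
  rw [this]; exact h

theorem LB.mul {f g : ℝ → ℝ} {M N : ℝ} (hf : LB f M) (hg : LB g N) :
    LB (fun x => f x * g x) (2 * (M * N)) := by
  have hM := hf.nonneg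
  have hN := hg.nonneg
  have hMN : 0 ≤ M * N := mul_nonneg hM hN
  constructor
  · intro x hx
    have := Helper553.Orth.am (hf.1 x hx) (hg.1 x hx)
    linarith
  · intro x hx y hy
    have e : f x * g x - f y * g y = (f x - f y) * g x + f y * (g x - g y) := by ring
    rw [e]
    have h1 := Helper553.Orth.am (hf.2 x hx y hy) (hg.1 x hx)
    have h2 := Helper553.Orth.am (hf.1 y hy) (hg.2 x hx y hy)
    refine (abs_add_le _ _).trans ?_
    linarith

theorem LB.const_mul {f : ℝ → ℝ} {M : ℝ} (hf : LB f M) {c A : ℝ} (hc : |c| ≤ A) :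
    LB (fun x => c * f x) (A * M) := by
  constructor
  · intro x hx
    exact Helper553.Orth.am hc (hf.1 x hx)
  · intro x hx y hy
    rw [← mul_sub, mul_assoc]
    exact Helper553.Orth.am hc (hf.2 x hx y hy)

theorem LB.sum {ι : Type} (T : Finset ι) (f : ι → ℝ → ℝ) {M : ℝ} (hf : ∀ i ∈ T, LB (f i) M) :
    LB (fun x => ∑ i ∈ T, f i x) (T.card * M) := by
  constructor
  · intro x hx
    refine (Finset.abs_sum_le_sum_abs _ _).trans ?_
    refine (Finset.sum_le_sum (fun i hi => (hf i hi).1 x hx)).trans ?_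
    rw [Finset.sum_const, nsmul_eq_mul]
  · intro x hx y hy
    rw [← Finset.sum_sub_distrib]
    refine (Finset.abs_sum_le_sum_abs _ _).trans ?_
    refine (Finset.sum_le_sum (fun i hi => (hf i hi).2 x hx y hy)).trans ?_
    rw [Finset.sum_const, nsmul_eq_mul, mul_assoc]

theorem LB.lin {a : ℝ} (ha : a ∈ Icc (0 : ℝ) 1) : LB (fun x => x - a) 1 := by
  constructor
  · intro x hx
    rw [abs_le]; constructor <;> linarith [hx.1, hx.2, ha.1, ha.2]
  · intro x _ y _
    rw [one_mul]
    apply le_of_eq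
    congr 1; ring

theorem LB.one : LB (fun _ => 1) 1 := by
  constructor
  · intro x _; simp
  · intro x _ y _; simp

theorem LB.prod {ι : Type} (T : Finset ι) (f : ι → ℝ → ℝ) {M : ℝ} (hf : ∀ i ∈ T, LB (f i) M) :
    LB (fun x => ∏ i ∈ T, f i x) ((2 * M) ^ T.card) := by
  classical
  induction T using Finset.induction_on with
  | empty => simpa using LB.one
  | insert a T ha ih =>
    have h1 := (hf a (Finset.mem_insert_self _ _)).mul
      (ih (fun i hi => hf i (Finset.mem_insert_of_mem hi)))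
    rw [Finset.card_insert_of_notMem ha]
    refine (h1.congr (fun x => Finset.prod_insert ha)).mono (le_of_eq ?_)
    ring

/-- Products of distances between distinct integers. -/
theorem prod_int_dist {ι : Type} (v : ι → ℤ) (j : ℤ) (t : ℕ) :
    ∀ T : Finset ι, T.card = t → InjOn v T → (∀ l ∈ T, v l ≠ j) →
      (t.factorial : ℝ) / 2 ^ t ≤ ∏ l ∈ T, |(j : ℝ) - v l| := by
  classical
  induction t with
  | zero =>
    intro T hT _ _
    rw [Finset.card_eq_zero] at hT
    simp [hT]
  | succ t ih =>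
    intro T hT hinj hne
    have hTne : T.Nonempty := Finset.card_pos.mp (by omega)
    obtain ⟨l, hl, hmax⟩ := Finset.exists_max_image T (fun l => (j - v l).natAbs) hTne
    set r := (j - v l).natAbs with hr
    have hcard : T.card ≤ 2 * r := by
      have hsub : ∀ i ∈ T, v i ∈ (Finset.Icc (j - r) (j + r)).erase j := by
        intro i hi
        have h1 := hmax i hi
        rw [Finset.mem_erase, Finset.mem_Icc]
        refine ⟨hne i hi, ?_, ?_⟩ <;> omega
      have h1 := Finset.card_le_card_of_injOn v hsub hinj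
      rw [Finset.card_erase_of_mem (by rw [Finset.mem_Icc]; omega), Int.card_Icc] at h1
      omega
    have h2 := ih (T.erase l) (by rw [Finset.card_erase_of_mem hl]; omega)
      (hinj.mono (by intro i hi; exact Finset.mem_of_mem_erase hi))
      (fun i hi => hne i (Finset.mem_of_mem_erase hi))
    rw [← Finset.mul_prod_erase T _ hl]
    have h3 : ((t : ℝ) + 1) / 2 ≤ |(j : ℝ) - v l| := by
      have e : |(j : ℝ) - v l| = (r : ℝ) := by
        rw [hr, Nat.cast_natAbs]
        push_cast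
        rfl
      rw [e]
      have : t + 1 ≤ 2 * r := by omega
      have h4 : (t : ℝ) + 1 ≤ 2 * r := by exact_mod_cast this
      linarith
    have e2 : (((t + 1).factorial : ℕ) : ℝ) / 2 ^ (t + 1) =
        ((t : ℝ) + 1) / 2 * ((t.factorial : ℝ) / 2 ^ t) := by
      rw [Nat.factorial_succ]; push_cast; field_simp; ring
    rw [e2]
    exact mul_le_mul h3 h2 (by positivity) (abs_nonneg _)

theorem pow_le_exp_mul_factorial (t : ℕ) : (t : ℝ) ^ t ≤ Real.exp t * t.factorial := by
  have h := Real.pow_div_factorial_le_exp (t : ℝ) (Nat.cast_nonneg t) t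
  rwa [div_le_iff₀ (by positivity)] at h

theorem exists_small {q : ℝ[X]} {ρ B a h : ℝ} (ha : 0 ≤ a) (hh : 0 < h) (hh1 : h ≤ 1)
    (hah : a + h ≤ ρ) (hB : 0 ≤ B) (hq : ∫ x in Icc 0 ρ, q.eval x ^ 2 ≤ B ^ 2) :
    ∃ x ∈ Icc a (a + h), |q.eval x| ≤ B / h := by
  have hc : Continuous (fun x => q.eval x ^ 2) := q.continuous.pow 2
  obtain ⟨x, hx, hmin⟩ := isCompact_Icc.exists_isMinOn (s := Icc a (a + h))
    (nonempty_Icc.mpr (by linarith)) hc.continuousOn
  refine ⟨x, hx, ?_⟩
  have h1 : ∫ _y in Icc a (a + h), q.eval x ^ 2 ≤ ∫ y in Icc a (a + h), q.eval y ^ 2 := by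
    apply setIntegral_mono_on
    · exact continuous_const.continuousOn.integrableOn_Icc
    · exact hc.continuousOn.integrableOn_Icc
    · exact measurableSet_Icc
    · intro y hy; exact hmin hy
  have h2 : ∫ y in Icc a (a + h), q.eval y ^ 2 ≤ ∫ y in Icc 0 ρ, q.eval y ^ 2 := by
    apply setIntegral_mono_set hc.continuousOn.integrableOn_Icc
    · exact Eventually.of_forall (fun y => sq_nonneg _)
    · exact (Icc_subset_Icc ha hah).eventuallyLE
  rw [setIntegral_const, measureReal_def, Real.volume_Icc, add_sub_cancel_left,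
    ENNReal.toReal_ofReal hh.le, smul_eq_mul] at h1
  rw [le_div_iff₀ hh]
  have h3 : (|q.eval x| * h) ^ 2 ≤ B ^ 2 := by
    rw [mul_pow, sq_abs]
    have h4 : q.eval x ^ 2 * h ^ 2 ≤ h * q.eval x ^ 2 := by
      have : 0 ≤ q.eval x ^ 2 * h := by positivity
      nlinarith
    linarith
  exact (pow_le_pow_iff_left₀ (by positivity) hB two_ne_zero).mp h3

/-- Polynomials with a bounded square integral on a short initial interval. -/
theorem lagrange_bound {q : ℝ[X]} {s : ℕ} (hs : q.natDegree ≤ s) {ρ B : ℝ} (hρ : 0 < ρ)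
    (hρ1 : ρ ≤ 1) (hB : 0 ≤ B) (hq : ∫ x in Icc 0 ρ, q.eval x ^ 2 ≤ B ^ 2) :
    LB (fun x => q.eval x) (B * (Real.exp 5 / ρ) ^ (s + 1)) ∧
      |q.coeff s| ≤ B * (Real.exp 5 / ρ) ^ (s + 1) := by
  classical
  set h : ℝ := ρ / (2 * ((s : ℝ) + 1)) with hh
  have hs0 : (0 : ℝ) ≤ s := Nat.cast_nonneg s
  have hh0 : 0 < h := by positivity
  have hh1 : h ≤ 1 := by
    rw [hh, div_le_one (by positivity)]; linarith
  have hρh : ρ = h * (2 * ((s : ℝ) + 1)) := by rw [hh]; field_simp
  have hex : ∀ j : Fin (s + 1), ∃ x ∈ Icc (2 * (j : ℝ) * h) (2 * (j : ℝ) * h + h),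
      |q.eval x| ≤ B / h := by
    intro j
    apply exists_small (by positivity) hh0 hh1 _ hB hq
    have : (j : ℝ) ≤ s := by exact_mod_cast Nat.lt_succ_iff.mp j.2
    rw [hρh]
    nlinarith
  choose v hv hvq using hex
  have hv01 : ∀ j, v j ∈ Icc (0 : ℝ) 1 := by
    intro j
    have h1 : (j : ℝ) ≤ s := by exact_mod_cast Nat.lt_succ_iff.mp j.2
    have h2 : (0 : ℝ) ≤ 2 * (j : ℝ) * h := by positivity
    constructor
    · linarith [(hv j).1]
    · have := (hv j).2
      nlinarith
  have hsep : ∀ i j : Fin (s + 1), i ≠ j → h * |((i : ℤ) : ℝ) - ((j : ℤ) : ℝ)| ≤ |v i - v j| := by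
    intro i j hij
    push_cast
    rcases lt_or_gt_of_ne (fun e => hij (Fin.ext e) : (i : ℕ) ≠ (j : ℕ)) with hlt | hlt
    · have h1 : (i : ℝ) + 1 ≤ j := by exact_mod_cast hlt
      rw [abs_of_neg (by linarith), le_abs]
      right
      nlinarith [(hv i).2, (hv j).1]
    · have h1 : (j : ℝ) + 1 ≤ i := by exact_mod_cast hlt
      rw [abs_of_pos (by linarith), le_abs]
      left
      nlinarith [(hv j).2, (hv i).1]
  have hinj : InjOn v (Finset.univ : Finset (Fin (s + 1))) := by
    intro i _ j _ hij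
    by_contra hne
    have h1 := hsep i j hne
    rw [hij, sub_self, abs_zero] at h1
    have h2 : 0 < |((i : ℤ) : ℝ) - ((j : ℤ) : ℝ)| := by
      rw [abs_pos, sub_ne_zero]
      intro e
      apply hne
      apply Fin.ext
      exact_mod_cast e
    have := mul_pos hh0 h2
    linarith
  have hcardE : ∀ i : Fin (s + 1), (Finset.univ.erase i).card = s := by
    intro i
    rw [Finset.card_erase_of_mem (Finset.mem_univ _), Finset.card_univ, Fintype.card_fin]
    rfl
  have hprod : ∀ i : Fin (s + 1), h ^ s * ((s.factorial : ℝ) / 2 ^ s) ≤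
      |∏ j ∈ Finset.univ.erase i, (v i - v j)| := by
    intro i
    have h1 := prod_int_dist (fun j : Fin (s + 1) => (j : ℤ)) (i : ℤ) s (Finset.univ.erase i)
      (hcardE i) (by intro a _ b _ hab; apply Fin.ext; simpa using hab)
      (by
        intro l hl e
        apply (Finset.mem_erase.mp hl).1
        apply Fin.ext
        simpa using e)
    rw [Finset.abs_prod]
    calc h ^ s * ((s.factorial : ℝ) / 2 ^ s)
        ≤ h ^ s * ∏ l ∈ Finset.univ.erase i, |((i : ℤ) : ℝ) - ((l : ℤ) : ℝ)| :=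
          mul_le_mul_of_nonneg_left h1 (by positivity)
      _ = ∏ l ∈ Finset.univ.erase i, h * |((i : ℤ) : ℝ) - ((l : ℤ) : ℝ)| := by
          rw [Finset.prod_mul_distrib, Finset.prod_const, hcardE]
      _ ≤ _ := by
          apply Finset.prod_le_prod
          · intro l _; positivity
          · intro l hl; exact hsep i l (Finset.mem_erase.mp hl).1.symm
  set A : ℝ := (B / h) / (h ^ s * ((s.factorial : ℝ) / 2 ^ s)) with hA
  have hA0 : 0 ≤ A := by positivity
  have hc : ∀ i : Fin (s + 1), |q.eval (v i) / ∏ j ∈ Finset.univ.erase i, (v i - v j)| ≤ A := by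
    intro i
    rw [abs_div]
    exact div_le_div₀ (by positivity) (hvq i) (by positivity) (hprod i)
  have hdeg : q.degree < ((Finset.univ : Finset (Fin (s + 1))).card : ℕ) := by
    rw [Finset.card_univ, Fintype.card_fin]
    refine lt_of_le_of_lt degree_le_natDegree ?_
    exact_mod_cast Nat.lt_succ_of_le hs
  have hfinal : ((s : ℝ) + 1) * (A * 2 ^ s) ≤ B * (Real.exp 5 / ρ) ^ (s + 1) := by
    have e1 : ((s : ℝ) + 1) * (A * 2 ^ s) =
        B * (((s : ℝ) + 1) ^ 2 * (4 ^ s * 2 ^ (s + 1)) *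
          (((s : ℝ) + 1) ^ (s + 1) / ((s + 1).factorial : ℝ))) / ρ ^ (s + 1) := by
      rw [hA, hρh, Nat.factorial_succ]
      have e4 : (4 : ℝ) ^ s = 2 ^ s * 2 ^ s := by rw [← mul_pow]; norm_num
      rw [e4]
      push_cast
      simp only [mul_pow, pow_succ]
      field_simp
    rw [e1, div_pow, ← mul_div_assoc B]
    apply div_le_div_of_nonneg_right _ (by positivity)
    apply mul_le_mul_of_nonneg_left _ hB
    have f1 : ((s : ℝ) + 1) ^ (s + 1) / ((s + 1).factorial : ℝ) ≤ Real.exp 1 ^ (s + 1) := by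
      have := Real.pow_div_factorial_le_exp ((s : ℝ) + 1) (by positivity) (s + 1)
      rw [← Real.exp_nat_mul]
      push_cast
      rw [mul_one]
      exact this
    have f2 : ((s : ℝ) + 1) ≤ 2 ^ (s + 1) := by
      have : s + 1 ≤ 2 ^ (s + 1) := Nat.lt_two_pow_self.le
      exact_mod_cast this
    have f3 : ((s : ℝ) + 1) ^ 2 * (4 ^ s * 2 ^ (s + 1)) ≤ 32 ^ (s + 1) := by
      have g1 : ((s : ℝ) + 1) ^ 2 ≤ (2 ^ (s + 1)) ^ 2 := pow_le_pow_left₀ (by positivity) f2 2
      have g2 : (4 : ℝ) ^ s ≤ 4 ^ (s + 1) := pow_le_pow_right₀ (by norm_num) (by omega)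
      have g3 : (32 : ℝ) ^ (s + 1) = (2 ^ (s + 1)) ^ 2 * (4 ^ (s + 1) * 2 ^ (s + 1)) := by
        rw [sq, ← mul_pow, ← mul_pow, ← mul_pow]; norm_num
      rw [g3]
      gcongr
    have f4 : (32 : ℝ) * Real.exp 1 ≤ Real.exp 5 := by
      have g1 : Real.exp 5 = Real.exp 1 ^ 4 * Real.exp 1 := by
        rw [← pow_succ, ← Real.exp_nat_mul]; norm_num
      rw [g1]
      apply mul_le_mul_of_nonneg_right _ (Real.exp_pos 1).le
      have g2 := Real.exp_one_gt_d9
      have g3 : (2.7 : ℝ) ^ 4 ≤ Real.exp 1 ^ 4 := pow_le_pow_left₀ (by norm_num) (by linarith) 4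
      norm_num at g3 ⊢
      linarith
    calc ((s : ℝ) + 1) ^ 2 * (4 ^ s * 2 ^ (s + 1)) *
          (((s : ℝ) + 1) ^ (s + 1) / ((s + 1).factorial : ℝ))
        ≤ 32 ^ (s + 1) * Real.exp 1 ^ (s + 1) :=
          mul_le_mul f3 f1 (by positivity) (by positivity)
      _ = (32 * Real.exp 1) ^ (s + 1) := by rw [mul_pow]
      _ ≤ Real.exp 5 ^ (s + 1) := pow_le_pow_left₀ (by positivity) f4 _
  constructor
  · have hrep : ∀ x, q.eval x = ∑ i : Fin (s + 1),
        (q.eval (v i) / ∏ j ∈ Finset.univ.erase i, (v i - v j)) *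
          ∏ j ∈ Finset.univ.erase i, (x - v j) := by
      intro x
      conv_lhs => rw [Lagrange.eq_interpolate hinj hdeg, Lagrange.interpolate_eq_sum]
      simp only [eval_finsetSum, eval_mul, eval_C, eval_prod, eval_sub, eval_X]
    have h1 := LB.sum Finset.univ (fun (i : Fin (s + 1)) x =>
        (q.eval (v i) / ∏ j ∈ Finset.univ.erase i, (v i - v j)) *
          ∏ j ∈ Finset.univ.erase i, (x - v j)) (M := A * 2 ^ s) (by
      intro i _
      have h2 := LB.prod (Finset.univ.erase i) (fun j x => x - v j) (M := 1)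
        (fun j _ => LB.lin (hv01 j))
      rw [hcardE, mul_one] at h2
      exact h2.const_mul (hc i))
    rw [Finset.card_univ, Fintype.card_fin] at h1
    push_cast at h1
    exact (h1.congr hrep).mono hfinal
  · have h1 := Lagrange.coeff_eq_sum hinj hdeg
    rw [Finset.card_univ, Fintype.card_fin, Nat.add_sub_cancel] at h1
    rw [h1]
    refine (Finset.abs_sum_le_sum_abs _ _).trans ?_
    refine (Finset.sum_le_sum (fun i _ => hc i)).trans ?_
    rw [Finset.sum_const, nsmul_eq_mul, Finset.card_univ, Fintype.card_fin]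
    refine le_trans ?_ hfinal
    push_cast
    apply mul_le_mul_of_nonneg_left _ (by positivity)
    have : (1 : ℝ) ≤ 2 ^ s := one_le_pow₀ (by norm_num)
    nlinarith

end Pool.Agent.H142Z.Clt
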