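import Pool.Agent.H142Z.CltA

set_option autoImplicit false
open MeasureTheory ProbabilityTheory Filter Topology Set Polynomial
open scoped ENNReal NNReal

namespace Pool.Agent.H142Z.Clt
open Pool.Agent.Helper553.Orth

/-- Orthonormal polynomials of a functional. -/
structure ONP (L : ℝ[X] →ₗ[ℝ] ℝ) (p : ℕ → ℝ[X]) : Prop where
  deg : ∀ k, (p k).natDegree = k
  lc : ∀ k, 0 < (p k).leadingCoeff
  orth : ∀ j k, L (p j * p k) = if j = k then 1 else 0

theorem exists_ONP {L : ℝ[X] →ₗ[ℝ] ℝ} (hp : PosF L) : ∃ p, ONP L p := by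
  have hpos : ∀ k, 0 < L (oq L k * oq L k) := fun k => hp _ (oq_monic L k).1.ne_zero
  have h0 : ∀ k, 0 < (√(L (oq L k * oq L k)))⁻¹ := fun k => inv_pos.mpr (Real.sqrt_pos.mpr (hpos k))
  refine ⟨fun k => C (√(L (oq L k * oq L k)))⁻¹ * oq L k, ?_, ?_, ?_⟩
  · intro k
    rw [natDegree_C_mul (h0 k).ne']
    exact (oq_monic L k).2
  · intro k
    rw [leadingCoeff_mul, leadingCoeff_C, (oq_monic L k).1.leadingCoeff, mul_one]
    exact h0 k
  · intro j k
    have e : C (√(L (oq L j * oq L j)))⁻¹ * oq L j * (C (√(L (oq L k * oq L k)))⁻¹ * oq L k) =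
        ((√(L (oq L j * oq L j)))⁻¹ * (√(L (oq L k * oq L k)))⁻¹) • (oq L j * oq L k) := by
      rw [smul_eq_C_mul, C_mul]; ring
    rw [e, map_smul, smul_eq_mul]
    by_cases hjk : j = k
    · rw [if_pos hjk, hjk, ← mul_inv, Real.mul_self_sqrt (hpos k).le, inv_mul_cancel₀ (hpos k).ne']
    · rw [if_neg hjk]
      rcases lt_or_gt_of_ne hjk with hlt | hlt
      · rw [mul_comm (oq L j) (oq L k), oq_orth L hp k j hlt, mul_zero]
      · rw [oq_orth L hp j k hlt, mul_zero]

/-- Sum of the squares of the first members. -/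
noncomputable def KK (p : ℕ → ℝ[X]) (i : ℕ) (y : ℝ) : ℝ := ∑ j ∈ Finset.range i, (p j).eval y ^ 2

variable {L : ℝ[X] →ₗ[ℝ] ℝ} {p : ℕ → ℝ[X]}

theorem KK_nonneg (p : ℕ → ℝ[X]) (i : ℕ) (y : ℝ) : 0 ≤ KK p i y :=
  Finset.sum_nonneg (fun _ _ => sq_nonneg _)

theorem KK_succ (p : ℕ → ℝ[X]) (i : ℕ) (y : ℝ) : KK p (i + 1) y = KK p i y + (p i).eval y ^ 2 :=
  Finset.sum_range_succ _ _

theorem ONP.ne (h : ONP L p) (k : ℕ) : p k ≠ 0 := by
  intro h0
  have := h.lc k
  rw [h0, leadingCoeff_zero] at this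
  exact lt_irrefl _ this

theorem ONP.zero_eq (h : ONP L p) : p 0 = C (p 0).leadingCoeff := by
  have := eq_C_of_natDegree_eq_zero (h.deg 0)
  rw [leadingCoeff, h.deg 0]
  exact this

theorem ONP.KK_pos (h : ONP L p) (i : ℕ) (y : ℝ) : 0 < KK p (i + 1) y := by
  induction i with
  | zero =>
    rw [KK_succ]
    have e : (p 0).eval y = (p 0).leadingCoeff := by
      conv_lhs => rw [h.zero_eq, eval_C]
    rw [e]
    have := h.lc 0
    have := KK_nonneg p 0 y
    positivity
  | succ i ih =>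
    rw [KK_succ]
    positivity

theorem ONP.norm_sum (h : ONP L p) (c : ℕ → ℝ) (n : ℕ) :
    L ((∑ k ∈ Finset.range n, C (c k) * p k) * (∑ k ∈ Finset.range n, C (c k) * p k)) =
      ∑ k ∈ Finset.range n, c k ^ 2 := by
  rw [Finset.sum_mul_sum, map_sum]
  apply Finset.sum_congr rfl
  intro i hi
  rw [map_sum, Finset.sum_eq_single i]
  · have e : C (c i) * p i * (C (c i) * p i) = (c i * c i) • (p i * p i) := by
      rw [smul_eq_C_mul, C_mul]; ring
    rw [e, map_smul, h.orth, if_pos rfl, smul_eq_mul]; ring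
  · intro j _ hj
    have e : C (c i) * p i * (C (c j) * p j) = (c i * c j) • (p i * p j) := by
      rw [smul_eq_C_mul, C_mul]; ring
    rw [e, map_smul, h.orth, if_neg (Ne.symm hj), smul_zero]
  · intro hn; exact absurd hi hn

theorem cs_KK (p : ℕ → ℝ[X]) (c : ℕ → ℝ) (n : ℕ) (y : ℝ) :
    (∑ k ∈ Finset.range n, c k * (p k).eval y) ^ 2 ≤ (∑ k ∈ Finset.range n, c k ^ 2) * KK p n y :=
  Finset.sum_mul_sq_le_sq_mul_sq _ _ _

theorem ONP.extremal (h : ONP L p) {q : ℝ[X]} {i : ℕ} (hq : q.natDegree ≤ i) (y : ℝ) :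
    q.eval y ^ 2 ≤ L (q * q) * KK p (i + 1) y := by
  obtain ⟨c, hc⟩ := exists_coeffs p h.ne h.deg i q hq
  have h1 := h.norm_sum c (i + 1)
  rw [← hc] at h1
  rw [h1]
  have h2 : q.eval y = ∑ k ∈ Finset.range (i + 1), c k * (p k).eval y := by
    rw [hc]; simp only [eval_finsetSum, eval_mul, eval_C]
  rw [h2]
  exact cs_KK p c _ y

theorem ONP.kernel (h : ONP L p) (i : ℕ) (y : ℝ) :
    ∃ q : ℝ[X], q.natDegree ≤ i ∧ L (q * q) = 1 ∧ q.eval y ^ 2 = KK p (i + 1) y := by
  have hK := h.KK_pos i y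
  have hs : √(KK p (i + 1) y) ^ 2 = KK p (i + 1) y := Real.sq_sqrt hK.le
  have hs0 : 0 < √(KK p (i + 1) y) := Real.sqrt_pos.mpr hK
  refine ⟨∑ k ∈ Finset.range (i + 1), C ((p k).eval y / √(KK p (i + 1) y)) * p k, ?_, ?_, ?_⟩
  · apply natDegree_sum_le_of_forall_le
    intro k hk
    have h1 := natDegree_C_mul_le ((p k).eval y / √(KK p (i + 1) y)) (p k)
    rw [h.deg k] at h1
    have := Finset.mem_range.mp hk
    omega
  · rw [h.norm_sum]
    simp_rw [div_pow]
    rw [← Finset.sum_div, hs]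
    exact div_self hK.ne'
  · simp only [eval_finsetSum, eval_mul, eval_C]
    have e : ∑ k ∈ Finset.range (i + 1), (p k).eval y / √(KK p (i + 1) y) * (p k).eval y =
        KK p (i + 1) y / √(KK p (i + 1) y) := by
      conv_rhs => unfold KK
      rw [Finset.sum_div]
      apply Finset.sum_congr rfl
      intro k _
      unfold KK
      ring
    rw [e, div_pow, hs]
    field_simp

theorem ONP.ratio (h : ONP L p) (i : ℕ) (y : ℝ)
    (hX : L ((X - C y) * p i * ((X - C y) * p i)) ≤ 1) :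
    (p i).leadingCoeff ≤ (p (i + 1)).leadingCoeff ∧
      KK p (i + 2) y ≤ 2 * ((p (i + 1)).leadingCoeff / (p i).leadingCoeff) ^ 2 * KK p (i + 1) y := by
  have hd : ((X - C y) * p i).natDegree = i + 1 := by
    rw [natDegree_mul (X_sub_C_ne_zero y) (h.ne i), natDegree_X_sub_C, h.deg]; ring
  obtain ⟨c, hc⟩ := exists_coeffs p h.ne h.deg (i + 1) _ hd.le
  have h1 := h.norm_sum c (i + 2)
  rw [← hc] at h1
  rw [h1, Finset.sum_range_succ] at hX
  have hlc : (p i).leadingCoeff = c (i + 1) * (p (i + 1)).leadingCoeff := by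
    have e1 : ((X - C y) * p i).coeff (i + 1) = (p i).leadingCoeff := by
      rw [← hd, ← leadingCoeff, leadingCoeff_mul, leadingCoeff_X_sub_C, one_mul]
    rw [← e1, hc, finsetSum_coeff, Finset.sum_range_succ, Finset.sum_eq_zero, zero_add,
      coeff_C_mul, leadingCoeff, h.deg]
    intro k hk
    rw [coeff_C_mul, coeff_eq_zero_of_natDegree_lt, mul_zero]
    rw [h.deg]; exact Finset.mem_range.mp hk
  have hev : c (i + 1) * (p (i + 1)).eval y =
      -(∑ k ∈ Finset.range (i + 1), c k * (p k).eval y) := by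
    have e := congrArg (eval y) hc
    rw [Finset.sum_range_succ] at e
    simp only [eval_mul, eval_sub, eval_X, eval_C, sub_self, zero_mul, eval_add,
      eval_finsetSum] at e
    linarith
  have hg0 := h.lc i
  have hg1 := h.lc (i + 1)
  have hc0 : 0 < c (i + 1) := by
    by_contra hcon
    push Not at hcon
    have := mul_nonpos_of_nonpos_of_nonneg hcon hg1.le
    linarith
  have hS0 : 0 ≤ ∑ k ∈ Finset.range (i + 1), c k ^ 2 := Finset.sum_nonneg (fun _ _ => sq_nonneg _)
  have hc1 : c (i + 1) ≤ 1 := by nlinarith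
  have hK := KK_nonneg p (i + 1) y
  constructor
  · rw [hlc]; nlinarith
  · have e1 : (p (i + 1)).leadingCoeff / (p i).leadingCoeff = (c (i + 1))⁻¹ := by
      rw [hlc]; field_simp
    rw [e1, KK_succ p (i + 1)]
    have h2 := cs_KK p c (i + 1) y
    have h3 : (c (i + 1) * (p (i + 1)).eval y) ^ 2 ≤ KK p (i + 1) y := by
      rw [hev, neg_sq]
      refine h2.trans ?_
      have : ∑ k ∈ Finset.range (i + 1), c k ^ 2 ≤ 1 := by nlinarith
      nlinarith
    have h4 : (p (i + 1)).eval y ^ 2 ≤ (c (i + 1))⁻¹ ^ 2 * KK p (i + 1) y := by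
      have e2 : (p (i + 1)).eval y ^ 2 =
          (c (i + 1))⁻¹ ^ 2 * (c (i + 1) * (p (i + 1)).eval y) ^ 2 := by field_simp
      rw [e2]
      exact mul_le_mul_of_nonneg_left h3 (by positivity)
    have h5 : 1 ≤ (c (i + 1))⁻¹ ^ 2 := one_le_pow₀ ((one_le_inv₀ hc0).mpr hc1)
    nlinarith

open Classical in
/-- Averaging over the degrees. -/
theorem tele {m S0 S : ℕ} (hm : 1 ≤ m) (hS : S0 ≤ S) (a : ℕ → Fin m → ℝ) (u : ℕ → ℝ)
    {U A β L : ℝ} (hau : ∀ i k, a (i + 1) k - a i k ≤ u i) (hu : ∀ i, 0 ≤ u i)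
    (hU : ∑ i ∈ Finset.range S, u i ≤ U) (hA : ∀ k, A ≤ a S k - a S0 k) (hβ0 : 0 ≤ β)
    (hβ1 : β ≤ 1) (hL : 0 ≤ L) (hlt : (1 - β) * U + β * L * S < A) :
    ∃ i, S0 ≤ i ∧ i < S ∧
      ((Finset.univ.filter (fun k => a (i + 1) k - a i k < L)).card : ℝ) ≤ β * m := by
  by_contra hcon
  push Not at hcon
  have hm' : (0 : ℝ) < m := by exact_mod_cast hm
  have h1 : ∀ i ∈ Finset.Ico S0 S, ∑ k, (a (i + 1) k - a i k) ≤ m * ((1 - β) * u i + β * L) := by
    intro i hi
    rw [Finset.mem_Ico] at hi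
    have hc := hcon i hi.1 hi.2
    set F := Finset.univ.filter (fun k => a (i + 1) k - a i k < L) with hF
    rw [← Finset.sum_filter_add_sum_filter_not Finset.univ (fun k => a (i + 1) k - a i k < L)]
    have e1 : ∑ k ∈ F, (a (i + 1) k - a i k) ≤ F.card * min L (u i) := by
      rw [← nsmul_eq_mul, ← Finset.sum_const]
      apply Finset.sum_le_sum
      intro k hk
      exact le_min (Finset.mem_filter.mp hk).2.le (hau i k)
    have e2 : ∑ k ∈ Finset.univ.filter (fun k => ¬ a (i + 1) k - a i k < L),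
        (a (i + 1) k - a i k) ≤ (m - F.card) * u i := by
      have hcard := Finset.card_filter_add_card_filter_not (s := Finset.univ)
        (fun k => a (i + 1) k - a i k < L)
      rw [Finset.card_univ, Fintype.card_fin] at hcard
      have e3 : (m - F.card : ℝ) =
          (Finset.univ.filter (fun k => ¬ a (i + 1) k - a i k < L)).card := by
        have e0 : (F.card : ℝ) +
            (Finset.univ.filter (fun k => ¬ a (i + 1) k - a i k < L)).card = m := by
          exact_mod_cast hcard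
        linarith
      rw [e3, ← nsmul_eq_mul, ← Finset.sum_const]
      exact Finset.sum_le_sum (fun k _ => hau i k)
    have e4 : 0 ≤ u i - min L (u i) := by linarith [min_le_right L (u i)]
    have e5 : min L (u i) ≤ L := min_le_left _ _
    have e6 : β * m * (u i - min L (u i)) ≤ F.card * (u i - min L (u i)) :=
      mul_le_mul_of_nonneg_right hc.le e4
    have e7 : β * m * min L (u i) ≤ β * m * L := mul_le_mul_of_nonneg_left e5 (by positivity)
    nlinarith
  have h2 := Finset.sum_le_sum h1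
  rw [Finset.sum_comm] at h2
  have h3 : ∀ k, ∑ i ∈ Finset.Ico S0 S, (a (i + 1) k - a i k) = a S k - a S0 k := by
    intro k
    rw [Finset.sum_Ico_eq_sub _ hS, Finset.sum_range_sub (fun i => a i k),
      Finset.sum_range_sub (fun i => a i k)]
    ring
  simp_rw [h3] at h2
  have h4 : (m : ℝ) * A ≤ ∑ k, (a S k - a S0 k) := by
    have := Finset.sum_le_sum (s := Finset.univ) (fun k _ => hA k)
    rwa [Finset.sum_const, nsmul_eq_mul, Finset.card_univ, Fintype.card_fin] at this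
  have h5 : ∑ i ∈ Finset.Ico S0 S, (m : ℝ) * ((1 - β) * u i + β * L) ≤
      m * ((1 - β) * U + β * L * S) := by
    rw [← Finset.mul_sum, Finset.sum_add_distrib, ← Finset.mul_sum, Finset.sum_const,
      nsmul_eq_mul, Nat.card_Ico]
    apply mul_le_mul_of_nonneg_left _ hm'.le
    have e1 : ∑ i ∈ Finset.Ico S0 S, u i ≤ U := by
      refine le_trans ?_ hU
      apply Finset.sum_le_sum_of_subset_of_nonneg
      · intro i hi
        exact Finset.mem_range.mpr (Finset.mem_Ico.mp hi).2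
      · intro i _ _; exact hu i
    have e2 : ((S - S0 : ℕ) : ℝ) ≤ S := by exact_mod_cast Nat.sub_le S S0
    have e3 : 0 ≤ β * L := by positivity
    have e4 := mul_le_mul_of_nonneg_left e1 (by linarith : 0 ≤ 1 - β)
    nlinarith
  have h6 := mul_lt_mul_of_pos_left hlt hm'
  linarith

end Pool.Agent.H142Z.Clt
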