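import Pool.Agent.H142Z.CltB

set_option autoImplicit false
open MeasureTheory ProbabilityTheory Filter Topology Set Polynomial
open scoped ENNReal NNReal

namespace Pool.Agent.H142Z.Clt
open Pool.Agent.Helper553.Orth

/-- A dip without a zero. -/
def Dip (P : ℝ[X]) (y d : ℝ) : Prop :=
  (∀ x ∈ Icc (y - d) (y + d), P.eval x ≠ 0) ∧ P.eval y ^ 2 < P.eval (y - d) ^ 2 ∧
    P.eval y ^ 2 < P.eval (y + d) ^ 2

/-- Two sign changes. -/
def Two (P : ℝ[X]) (y d : ℝ) : Prop :=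
  P.eval (y - d) * P.eval (y + d / 2) < 0 ∧ P.eval (y + d / 2) * P.eval (y + 2 * d) < 0

theorem crit_of_extr {P : ℝ[X]} {z : ℝ} (hz : P.eval z ≠ 0)
    (h : IsLocalExtr (fun x => P.eval x ^ 2) z) : (derivative P).eval z = 0 := by
  have h1 : HasDerivAt (fun x => P.eval x ^ 2) (2 * P.eval z * (derivative P).eval z) z := by
    have := (P.hasDerivAt z).fun_pow 2
    exact this.congr_deriv (by norm_num)
  have h2 := h.hasDerivAt_eq_zero h1
  rcases mul_eq_zero.mp h2 with h3 | h3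
  · exfalso; apply hz; linarith
  · exact h3

theorem count_upper {m n : ℕ} {P : ℝ[X]} (hP : P.natDegree ≤ n) {y : Fin m → ℝ} {d : ℝ}
    (hd : 0 < d) (hsep : ∀ k l, k ≠ l → 3 * d < |y k - y l|) (A : Finset (Fin m))
    (hA : ∀ k ∈ A, Dip P (y k) d) : nr P + 2 * A.card ≤ n := by
  classical
  rcases A.eq_empty_or_nonempty with rfl | ⟨k0, hk0⟩
  · simpa using nr_le hP
  have hcont : Continuous (fun x => P.eval x ^ 2) := P.continuous.pow 2
  have hP0 : P ≠ 0 := by
    intro h0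
    apply (hA k0 hk0).1 (y k0) ⟨by linarith, by linarith⟩
    rw [h0, eval_zero]
  have hP' : derivative P ≠ 0 := by
    intro h0
    have h1 := eq_C_of_derivative_eq_zero h0
    have h2 := (hA k0 hk0).2.1
    rw [h1, eval_C, eval_C] at h2
    exact lt_irrefl _ h2
  have hex : ∀ k : Fin m, ∃ u, k ∈ A → u ∈ Ioo (y k - d) (y k + d) ∧ (derivative P).eval u = 0 ∧
      P.eval u ^ 2 < P.eval (y k - d) ^ 2 ∧ P.eval u ^ 2 < P.eval (y k + d) ^ 2 := by
    intro k
    by_cases hk : k ∈ A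
    · obtain ⟨h1, h2, h3⟩ := hA k hk
      obtain ⟨u, hu, hmin⟩ := isCompact_Icc.exists_isMinOn (s := Icc (y k - d) (y k + d))
        (nonempty_Icc.mpr (by linarith)) hcont.continuousOn
      have h4 : P.eval u ^ 2 ≤ P.eval (y k) ^ 2 := hmin (⟨by linarith, by linarith⟩ :
        y k ∈ Icc (y k - d) (y k + d))
      have hu1 : y k - d < u := by
        apply lt_of_le_of_ne hu.1
        intro e; rw [← e] at h4; linarith
      have hu2 : u < y k + d := by
        apply lt_of_le_of_ne hu.2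
        intro e; rw [e] at h4; linarith
      refine ⟨u, fun _ => ⟨⟨hu1, hu2⟩, ?_, by linarith, by linarith⟩⟩
      exact crit_of_extr (h1 u hu) (Or.inl (hmin.isLocalMin (Icc_mem_nhds hu1 hu2)))
    · exact ⟨0, fun h => absurd h hk⟩
  choose u hu using hex
  have hout : ∀ k ∈ A, ∀ l ∈ A, l ≠ k → u l ∉ Icc (y k - d) (y k + d) := by
    intro k _ l hl hlk hmem
    have h1 := hsep l k hlk
    have h2 := (hu l hl).1
    have h3 : |y l - y k| ≤ 2 * d := by
      rw [abs_le]; constructor <;> linarith [h2.1, h2.2, hmem.1, hmem.2]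
    linarith
  have hinj : InjOn u A := by
    intro k hk l hl hkl
    by_contra hne
    apply hout k hk l hl (Ne.symm hne)
    rw [← hkl]
    exact Ioo_subset_Icc_self (hu k hk).1
  set R := P.roots.toFinset with hR
  set T := (derivative P).roots.toFinset with hT
  have hRm : ∀ x, x ∈ R ↔ P.eval x = 0 := by
    intro x; rw [hR, Multiset.mem_toFinset, mem_roots hP0, IsRoot]
  have hTm : ∀ x, x ∈ T ↔ (derivative P).eval x = 0 := by
    intro x; rw [hT, Multiset.mem_toFinset, mem_roots hP', IsRoot]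
  set s := R ∪ A.image u with hs
  have hstar : ∀ k ∈ A, ∀ z ∈ s, z ≠ u k → z ∉ Icc (y k - d) (y k + d) := by
    intro k hk z hz hzu
    rcases Finset.mem_union.mp hz with h | h
    · intro hmem
      exact (hA k hk).1 z hmem ((hRm z).mp h)
    · obtain ⟨l, hl, rfl⟩ := Finset.mem_image.mp h
      exact hout k hk l hl (fun e => hzu (by rw [e]))
  have hint := Finset.card_le_sdiff_of_interleaved (s := s) (t := T) (by
    intro a ha b hb hab hno
    have hmid : 0 < P.eval ((a + b) / 2) ^ 2 := by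
      have : P.eval ((a + b) / 2) ≠ 0 := by
        intro h0
        exact hno _ (Finset.mem_union_left _ ((hRm _).mpr h0)) ⟨by linarith, by linarith⟩
      positivity
    have hwa : ∃ w ∈ Icc a b, P.eval a ^ 2 < P.eval w ^ 2 := by
      rcases Finset.mem_union.mp ha with h | h
      · refine ⟨(a + b) / 2, ⟨by linarith, by linarith⟩, ?_⟩
        rw [(hRm a).mp h]; simpa using hmid
      · obtain ⟨k, hk, rfl⟩ := Finset.mem_image.mp h
        have h1 := hstar k hk b hb hab.ne'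
        have h2 := (hu k hk).1
        refine ⟨y k + d, ⟨h2.2.le, ?_⟩, (hu k hk).2.2.2⟩
        by_contra h3
        push Not at h3
        exact h1 ⟨by linarith [h2.1], h3.le⟩
    have hwb : ∃ w ∈ Icc a b, P.eval b ^ 2 < P.eval w ^ 2 := by
      rcases Finset.mem_union.mp hb with h | h
      · refine ⟨(a + b) / 2, ⟨by linarith, by linarith⟩, ?_⟩
        rw [(hRm b).mp h]; simpa using hmid
      · obtain ⟨k, hk, rfl⟩ := Finset.mem_image.mp h
        have h1 := hstar k hk a ha hab.ne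
        have h2 := (hu k hk).1
        refine ⟨y k - d, ⟨?_, h2.1.le⟩, (hu k hk).2.2.1⟩
        by_contra h3
        push Not at h3
        exact h1 ⟨h3.le, by linarith [h2.2]⟩
    obtain ⟨z, hz, hmax⟩ := isCompact_Icc.exists_isMaxOn (s := Icc a b)
      (nonempty_Icc.mpr hab.le) hcont.continuousOn
    obtain ⟨w1, hw1, h1⟩ := hwa
    obtain ⟨w2, hw2, h2⟩ := hwb
    have h3 : P.eval w1 ^ 2 ≤ P.eval z ^ 2 := hmax hw1
    have h4 : P.eval w2 ^ 2 ≤ P.eval z ^ 2 := hmax hw2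
    have hz1 : a < z := by
      apply lt_of_le_of_ne hz.1
      intro e; rw [← e] at h3; linarith
    have hz2 : z < b := by
      apply lt_of_le_of_ne hz.2
      intro e; rw [e] at h4; linarith
    refine ⟨z, (hTm z).mpr ?_, hz1, hz2⟩
    apply crit_of_extr _ (Or.inr (hmax.isLocalMax (Icc_mem_nhds hz1 hz2)))
    intro h0
    rw [h0] at h3
    have := sq_nonneg (P.eval a)
    nlinarith)
  have hc1 : s.card = nr P + A.card := by
    rw [hs, Finset.card_union_of_disjoint, Finset.card_image_of_injOn hinj]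
    · rfl
    · rw [Finset.disjoint_left]
      intro x hx hx'
      obtain ⟨k, hk, rfl⟩ := Finset.mem_image.mp hx'
      exact (hA k hk).1 _ (Ioo_subset_Icc_self (hu k hk).1) ((hRm _).mp hx)
  have hc2 : (T \ s).card + A.card ≤ T.card := by
    rw [← Finset.card_image_of_injOn hinj, ← Finset.card_union_of_disjoint]
    · apply Finset.card_le_card
      intro x hx
      rcases Finset.mem_union.mp hx with h | h
      · exact (Finset.mem_sdiff.mp h).1
      · obtain ⟨k, hk, rfl⟩ := Finset.mem_image.mp h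
        exact (hTm _).mpr (hu k hk).2.1
    · rw [Finset.disjoint_left]
      intro x hx hx'
      exact (Finset.mem_sdiff.mp hx).2 (Finset.mem_union_right _ hx')
  have hc3 : T.card ≤ (derivative P).natDegree := nr_le le_rfl
  have hc4 : (derivative P).natDegree < P.natDegree := by
    apply natDegree_derivative_lt
    intro h0
    apply hP'
    rw [eq_C_of_natDegree_eq_zero h0, derivative_C]
  omega

theorem ivt_poly {P : ℝ[X]} {a b : ℝ} (hab : a < b) (h : P.eval a * P.eval b < 0) :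
    ∃ z ∈ Ioo a b, P.eval z = 0 := by
  rcases mul_neg_iff.mp h with ⟨h1, h2⟩ | ⟨h1, h2⟩
  · exact intermediate_value_Ioo' hab.le P.continuous.continuousOn ⟨h2, h1⟩
  · exact intermediate_value_Ioo hab.le P.continuous.continuousOn ⟨h1, h2⟩

theorem count_lower {m : ℕ} {P : ℝ[X]} {y : Fin m → ℝ} {d : ℝ}
    (hd : 0 < d) (hsep : ∀ k l, k ≠ l → 3 * d < |y k - y l|) (A : Finset (Fin m))
    (hA : ∀ k ∈ A, Two P (y k) d) : 2 * A.card ≤ nr P := by
  classical
  rcases A.eq_empty_or_nonempty with rfl | ⟨k0, hk0⟩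
  · simp
  have hP0 : P ≠ 0 := by
    intro h0
    have := (hA k0 hk0).1
    rw [h0, eval_zero, zero_mul] at this
    exact lt_irrefl _ this
  have hex : ∀ k : Fin m, ∃ z : ℝ × ℝ, k ∈ A → (z.1 ∈ Ioo (y k - d) (y k + d / 2) ∧
      P.eval z.1 = 0) ∧ z.2 ∈ Ioo (y k + d / 2) (y k + 2 * d) ∧ P.eval z.2 = 0 := by
    intro k
    by_cases hk : k ∈ A
    · obtain ⟨z1, h1⟩ := ivt_poly (by linarith) (hA k hk).1
      obtain ⟨z2, h2⟩ := ivt_poly (by linarith) (hA k hk).2
      exact ⟨(z1, z2), fun _ => ⟨h1, h2⟩⟩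
    · exact ⟨0, fun h => absurd h hk⟩
  choose z hz using hex
  have hsame : ∀ k l : Fin m, ∀ x, x ∈ Ioo (y k - d) (y k + 2 * d) →
      x ∈ Ioo (y l - d) (y l + 2 * d) → k = l := by
    intro k l x h1 h2
    by_contra hne
    have h3 := hsep k l hne
    have h4 : |y k - y l| ≤ 3 * d := by
      rw [abs_le]; constructor <;> linarith [h1.1, h1.2, h2.1, h2.2]
    linarith
  have m1 : ∀ k ∈ A, (z k).1 ∈ Ioo (y k - d) (y k + 2 * d) := fun k hk =>
    ⟨(hz k hk).1.1.1, by linarith [(hz k hk).1.1.2]⟩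
  have m2 : ∀ k ∈ A, (z k).2 ∈ Ioo (y k - d) (y k + 2 * d) := fun k hk =>
    ⟨by linarith [(hz k hk).2.1.1], (hz k hk).2.1.2⟩
  have i1 : InjOn (fun k => (z k).1) A := by
    intro k hk l hl e
    have e' : (z k).1 = (z l).1 := e
    exact hsame k l _ (m1 k hk) (e' ▸ m1 l hl)
  have i2 : InjOn (fun k => (z k).2) A := by
    intro k hk l hl e
    have e' : (z k).2 = (z l).2 := e
    exact hsame k l _ (m2 k hk) (e' ▸ m2 l hl)
  have hc : 2 * A.card = (A.image (fun k => (z k).1) ∪ A.image (fun k => (z k).2)).card := by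
    rw [Finset.card_union_of_disjoint, Finset.card_image_of_injOn i1,
      Finset.card_image_of_injOn i2, two_mul]
    rw [Finset.disjoint_left]
    intro x hx hx'
    obtain ⟨k, hk, e1⟩ := Finset.mem_image.mp hx
    obtain ⟨l, hl, e2⟩ := Finset.mem_image.mp hx'
    have hkl : k = l := hsame k l x (e1 ▸ m1 k hk) (e2 ▸ m2 l hl)
    subst hkl
    have h1 := (hz k hk).1.1.2
    have h2 := (hz k hk).2.1.1
    linarith
  rw [hc]
  apply Finset.card_le_card
  intro x hx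
  rw [Multiset.mem_toFinset, mem_roots hP0, IsRoot]
  rcases Finset.mem_union.mp hx with h | h
  · obtain ⟨k, hk, rfl⟩ := Finset.mem_image.mp h
    exact (hz k hk).1.2
  · obtain ⟨k, hk, rfl⟩ := Finset.mem_image.mp h
    exact (hz k hk).2.2

/-- Local form near a dipole. -/
def Loc (P : ℝ[X]) (y d b g g' : ℝ) : Prop :=
  ∃ v : ℝ, v ≠ 0 ∧ ∀ x ∈ Icc (y - d) (y + 2 * d), ∃ b' c : ℝ, |b' - b| ≤ 1 / 50 ∧
    |c - 1| ≤ 1 / 100 ∧
    P.eval x = v * ((x - y) * (x - (y + d)) * b' + d * (g * (x - (y + d)) + g' * (x - y)) * c)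

theorem Loc.dip {P : ℝ[X]} {y d b g g' : ℝ} (hd : 0 < d) (h : Loc P y d b g g') (hb1 : 1 ≤ b)
    (hb2 : b ≤ 11 / 10) (hg : |g + 1| ≤ 1 / 10) (hg' : |g' - 2| ≤ 1 / 10) : Dip P y d := by
  obtain ⟨v, hv, h⟩ := h
  rw [abs_le] at hg hg'
  have hv2 : 0 < v ^ 2 := by positivity
  have hd2 : 0 < d ^ 2 := by positivity
  have hga : |g| ≤ 11 / 10 := by rw [abs_le]; constructor <;> linarith [hg.1, hg.2]
  have hga' : |g'| ≤ 21 / 10 := by rw [abs_le]; constructor <;> linarith [hg'.1, hg'.2]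
  have hcc : ∀ c : ℝ, |c - 1| ≤ 1 / 100 → (-112 / 100 ≤ g * c ∧ g * c ≤ -88 / 100) ∧
      (187 / 100 ≤ g' * c ∧ g' * c ≤ 213 / 100) := by
    intro c hc
    have a1 := abs_le.mp (am hga hc)
    have a2 := abs_le.mp (am hga' hc)
    rw [mul_sub, mul_one] at a1 a2
    exact ⟨⟨by linarith [a1.1, hg.1], by linarith [a1.2, hg.2]⟩,
      by linarith [a2.1, hg'.1], by linarith [a2.2, hg'.2]⟩
  obtain ⟨b0, c0, _, hc0, e0⟩ := h y ⟨by linarith, by linarith⟩
  obtain ⟨b1, c1, hb1', hc1, e1⟩ := h (y - d) ⟨by linarith, by linarith⟩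
  obtain ⟨b2, c2, _, hc2, e2⟩ := h (y + d) ⟨by linarith, by linarith⟩
  rw [abs_le] at hb1'
  have f0 : P.eval y = v * d ^ 2 * (-(g * c0)) := by rw [e0]; ring
  have f1 : P.eval (y - d) = v * d ^ 2 * (2 * b1 - (2 * (g * c1) + g' * c1)) := by rw [e1]; ring
  have f2 : P.eval (y + d) = v * d ^ 2 * (g' * c2) := by rw [e2]; ring
  have g0 := (hcc c0 hc0).1
  have g1 : 13 / 10 ≤ 2 * b1 - (2 * (g * c1) + g' * c1) := by
    linarith [(hcc c1 hc1).1.2, (hcc c1 hc1).2.2, hb1'.1]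
  have g2 : 13 / 10 ≤ g' * c2 := by linarith [(hcc c2 hc2).2.1]
  have key : ∀ t : ℝ, 13 / 10 ≤ t → (v * d ^ 2 * (-(g * c0))) ^ 2 < (v * d ^ 2 * t) ^ 2 := by
    intro t ht
    rw [mul_pow, mul_pow (v * d ^ 2)]
    apply mul_lt_mul_of_pos_left _ (by positivity)
    exact pow_lt_pow_left₀ (by linarith [g0.1]) (by linarith [g0.2]) two_ne_zero
  refine ⟨?_, by rw [f0, f1]; exact key _ g1, by rw [f0, f2]; exact key _ g2⟩
  intro x hx
  obtain ⟨b', c, hb', hc, e⟩ := h x ⟨hx.1, by linarith [hx.2]⟩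
  rw [abs_le] at hb'
  obtain ⟨k1, k2⟩ := hcc c hc
  rw [e]
  apply mul_ne_zero hv
  apply ne_of_gt
  obtain ⟨u, hu⟩ : ∃ u, u = x - y := ⟨_, rfl⟩
  have hu2 : x - (y + d) = u - d := by rw [hu]; ring
  rw [hu2, ← hu]
  have e3 : u * (u - d) * b' + d * (g * (u - d) + g' * u) * c =
      b' * u ^ 2 + (g * c + g' * c - b') * (d * u) + d ^ 2 * (-(g * c)) := by ring
  rw [e3]
  have w1 : |g * c + g' * c - b'| ≤ 4 / 10 := by
    rw [abs_le]; constructor <;> linarith [k1.1, k1.2, k2.1, k2.2, hb'.1, hb'.2]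
  have w2 : |(g * c + g' * c - b') * (d * u)| ≤ 4 / 10 * ((u ^ 2 + d ^ 2) / 2) := by
    apply am w1
    have s1 : (u + d) ^ 2 = u ^ 2 + d ^ 2 + 2 * (d * u) := by ring
    have s2 : (u - d) ^ 2 = u ^ 2 + d ^ 2 - 2 * (d * u) := by ring
    rw [abs_le]
    constructor <;> linarith [sq_nonneg (u + d), sq_nonneg (u - d)]
  have w3 := (abs_le.mp w2).1
  have w4 : 98 / 100 * u ^ 2 ≤ b' * u ^ 2 :=
    mul_le_mul_of_nonneg_right (by linarith [hb'.1]) (sq_nonneg _)
  have w5 : d ^ 2 * (8 / 10) ≤ d ^ 2 * (-(g * c)) :=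
    mul_le_mul_of_nonneg_left (by linarith [k1.2]) (sq_nonneg _)
  linarith [sq_nonneg u]

theorem Loc.two {P : ℝ[X]} {y d b g g' B0 : ℝ} (hd : 0 < d) (h : Loc P y d b g g') (hB : 1 ≤ B0)
    (hb : B0 ≤ b) (hg : |g| ≤ B0 / 10) (hg' : |g'| ≤ B0 / 10) : Two P y d := by
  obtain ⟨v, hv, h⟩ := h
  have hv2 : 0 < (v * d ^ 2) ^ 2 := by positivity
  obtain ⟨b0, c0, hb0, hc0, e0⟩ := h (y + d / 2) ⟨by linarith, by linarith⟩
  obtain ⟨b1, c1, hb1, hc1, e1⟩ := h (y - d) ⟨by linarith, by linarith⟩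
  obtain ⟨b2, c2, hb2, hc2, e2⟩ := h (y + 2 * d) ⟨by linarith, by linarith⟩
  have hc : ∀ c : ℝ, |c - 1| ≤ 1 / 100 → |c| ≤ 101 / 100 := by
    intro c hc
    rw [abs_le] at hc ⊢
    constructor <;> linarith [hc.1, hc.2]
  have a0 := abs_le.mp (am hg (hc c0 hc0))
  have a0' := abs_le.mp (am hg' (hc c0 hc0))
  have a1 := abs_le.mp (am hg (hc c1 hc1))
  have a1' := abs_le.mp (am hg' (hc c1 hc1))
  have a2 := abs_le.mp (am hg (hc c2 hc2))
  have a2' := abs_le.mp (am hg' (hc c2 hc2))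
  rw [abs_le] at hb0 hb1 hb2
  have f0 : P.eval (y + d / 2) = v * d ^ 2 * (-(b0 / 4) + (g' * c0 - g * c0) / 2) := by
    rw [e0]; ring
  have f1 : P.eval (y - d) = v * d ^ 2 * (2 * b1 - (2 * (g * c1) + g' * c1)) := by rw [e1]; ring
  have f2 : P.eval (y + 2 * d) = v * d ^ 2 * (2 * b2 + (g * c2 + 2 * (g' * c2))) := by
    rw [e2]; ring
  have g0 : -(b0 / 4) + (g' * c0 - g * c0) / 2 < 0 := by linarith [a0.1, a0'.2, hb0.1]
  have g1 : 0 < 2 * b1 - (2 * (g * c1) + g' * c1) := by linarith [a1.2, a1'.2, hb1.1]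
  have g2 : 0 < 2 * b2 + (g * c2 + 2 * (g' * c2)) := by linarith [a2.1, a2'.1, hb2.1]
  have key : ∀ s t : ℝ, s * t < 0 → (v * d ^ 2 * s) * (v * d ^ 2 * t) < 0 := by
    intro s t hst
    have : (v * d ^ 2 * s) * (v * d ^ 2 * t) = (v * d ^ 2) ^ 2 * (s * t) := by ring
    rw [this]
    exact mul_neg_of_pos_of_neg hv2 hst
  constructor
  · rw [f0, f1]; exact key _ _ (mul_neg_of_pos_of_neg g1 g0)
  · rw [f0, f2]; exact key _ _ (mul_neg_of_neg_of_pos g0 g2)

end Pool.Agent.H142Z.Clt
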