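import Pool.Agent.H142Z.CltC

set_option autoImplicit false
open MeasureTheory ProbabilityTheory Filter Topology Set Polynomial
open scoped ENNReal NNReal

namespace Pool.Agent.H142Z.Clt
open Pool.Agent.Helper553.Orth

variable {m : ℕ}

/-- Quadratic factor of a dipole. -/
noncomputable def qq (y : Fin m → ℝ) (d : ℝ) (k : Fin m) : ℝ[X] :=
  (X - C (y k)) * (X - C (y k + d))

/-- Product over all dipoles. -/
noncomputable def WW (y : Fin m → ℝ) (d : ℝ) : ℝ[X] := ∏ k, qq y d k

/-- Product over all dipoles but one. -/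
noncomputable def WK (y : Fin m → ℝ) (d : ℝ) (k : Fin m) : ℝ[X] :=
  ∏ l ∈ Finset.univ.erase k, qq y d l

/-- The frame. -/
noncomputable def fr (y : Fin m → ℝ) (d : ℝ) (s : ℕ) (p : ℕ → ℝ[X]) (ψ : Fin m → ℝ[X]) :
    Unit ⊕ (Fin s ⊕ (Fin m ⊕ Fin m)) → ℝ[X]
  | Sum.inl _ => WW y d * p s
  | Sum.inr (Sum.inl j) => WW y d * p j
  | Sum.inr (Sum.inr (Sum.inl k)) => C d * (ψ k * (WK y d k * (X - C (y k + d))))
  | Sum.inr (Sum.inr (Sum.inr k)) => C d * (ψ k * (WK y d k * (X - C (y k))))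

/-- The nodes. -/
noncomputable def nod (y : Fin m → ℝ) (d : ℝ) : Fin m ⊕ Fin m → ℝ
  | Sum.inl k => y k
  | Sum.inr k => y k + d

variable {y : Fin m → ℝ} {d : ℝ} {s : ℕ} {p : ℕ → ℝ[X]} {ψ : Fin m → ℝ[X]}

theorem eval_qq (y : Fin m → ℝ) (d : ℝ) (k : Fin m) (x : ℝ) :
    (qq y d k).eval x = (x - y k) * (x - (y k + d)) := by
  simp only [qq, eval_mul, eval_sub, eval_X, eval_C]

theorem WW_eq (y : Fin m → ℝ) (d : ℝ) (k : Fin m) : WW y d = qq y d k * WK y d k :=
  (Finset.mul_prod_erase Finset.univ (qq y d) (Finset.mem_univ k)).symm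

theorem eval_WW (y : Fin m → ℝ) (d : ℝ) (k : Fin m) (x : ℝ) :
    (WW y d).eval x = (x - y k) * (x - (y k + d)) * (WK y d k).eval x := by
  rw [WW_eq y d k, eval_mul, eval_qq]

theorem natDegree_qq (y : Fin m → ℝ) (d : ℝ) (k : Fin m) : (qq y d k).natDegree ≤ 2 := by
  unfold qq
  refine natDegree_mul_le.trans ?_
  rw [natDegree_X_sub_C, natDegree_X_sub_C]

theorem natDegree_prod_qq (y : Fin m → ℝ) (d : ℝ) (T : Finset (Fin m)) :
    (∏ l ∈ T, qq y d l).natDegree ≤ 2 * T.card := by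
  refine (natDegree_prod_le _ _).trans ?_
  refine (Finset.sum_le_sum (fun l _ => natDegree_qq y d l)).trans ?_
  rw [Finset.sum_const, smul_eq_mul, mul_comm]

theorem WW_ne (y : Fin m → ℝ) (d : ℝ) : WW y d ≠ 0 := by
  unfold WW
  rw [Finset.prod_ne_zero_iff]
  intro k _
  exact mul_ne_zero (X_sub_C_ne_zero _) (X_sub_C_ne_zero _)

theorem natDegree_fr (hp : ∀ j, (p j).natDegree = j) (hψ : ∀ k, (ψ k).natDegree ≤ s)
    (i : Unit ⊕ (Fin s ⊕ (Fin m ⊕ Fin m))) : (fr y d s p ψ i).natDegree ≤ s + 2 * m := by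
  have hW : (WW y d).natDegree ≤ 2 * m := by
    have := natDegree_prod_qq y d Finset.univ
    rwa [Finset.card_univ, Fintype.card_fin] at this
  have loc : ∀ (k : Fin m) (c : ℝ),
      (C d * (ψ k * (WK y d k * (X - C c)))).natDegree ≤ s + 2 * m := by
    intro k c
    have hm : 1 ≤ m := by have := k.2; omega
    have h1 : (WK y d k).natDegree ≤ 2 * (m - 1) := by
      have := natDegree_prod_qq y d (Finset.univ.erase k)
      rwa [Finset.card_erase_of_mem (Finset.mem_univ _), Finset.card_univ, Fintype.card_fin] at this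
    have h2 : (WK y d k * (X - C c)).natDegree ≤ 2 * (m - 1) + 1 := by
      refine natDegree_mul_le.trans ?_
      rw [natDegree_X_sub_C]; omega
    have h3 : (ψ k * (WK y d k * (X - C c))).natDegree ≤ s + (2 * (m - 1) + 1) :=
      natDegree_mul_le.trans (by have := hψ k; omega)
    have h4 := natDegree_C_mul_le d (ψ k * (WK y d k * (X - C c)))
    omega
  rcases i with u | (j | (k | k))
  · show (WW y d * p s).natDegree ≤ _
    refine natDegree_mul_le.trans ?_
    rw [hp]; omega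
  · show (WW y d * p j).natDegree ≤ _
    refine natDegree_mul_le.trans ?_
    have := j.2
    rw [hp]; omega
  · exact loc k _
  · exact loc k _

theorem eval_fr (b : ℝ) (z : Fin s ⊕ (Fin m ⊕ Fin m) → ℝ) (x : ℝ) :
    (rp (fr y d s p ψ) (Sum.elim (fun _ : Unit => b) z)).eval x =
      (WW y d).eval x * (b * (p s).eval x + ∑ j : Fin s, z (Sum.inl j) * (p j).eval x) +
        ∑ k : Fin m, d * ((ψ k).eval x * ((WK y d k).eval x *
          (z (Sum.inr (Sum.inl k)) * (x - (y k + d)) + z (Sum.inr (Sum.inr k)) * (x - y k)))) := by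
  rw [rp_eval, Fintype.sum_sum_type, Fintype.sum_sum_type, Fintype.sum_sum_type,
    Fintype.sum_unique, ← Finset.sum_add_distrib, mul_add, Finset.mul_sum]
  simp only [fr, Sum.elim_inl, Sum.elim_inr, eval_mul, eval_C, eval_sub, eval_X]
  rw [add_assoc]
  congr 1
  · ring
  congr 1
  · apply Finset.sum_congr rfl; intro j _; ring
  · apply Finset.sum_congr rfl; intro j _; ring

theorem LB_qq (hd : 0 < d) (hy : ∀ k, 0 ≤ y k - d ∧ y k + 2 * d ≤ 1) (k : Fin m) :
    LB (fun x => (qq y d k).eval x) 2 := by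
  have h1 := (LB.lin (a := y k) ⟨by linarith [(hy k).1], by linarith [(hy k).2]⟩).mul
    (LB.lin (a := y k + d) ⟨by linarith [(hy k).1], by linarith [(hy k).2]⟩)
  exact (h1.congr (eval_qq y d k)).mono (by norm_num)

theorem LB_WK (hd : 0 < d) (hy : ∀ k, 0 ≤ y k - d ∧ y k + 2 * d ≤ 1) (k : Fin m) :
    LB (fun x => (WK y d k).eval x) (4 ^ m) := by
  have h1 := LB.prod (Finset.univ.erase k) (fun l x => (qq y d l).eval x) (M := 2)
    (fun l _ => LB_qq hd hy l)
  refine (h1.congr (fun x => by unfold WK; rw [eval_prod])).mono ?_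
  norm_num
  apply pow_le_pow_right₀ (by norm_num)
  omega

theorem prod_qq_le (hd : 0 < d) (hy : ∀ k, 0 ≤ y k - d ∧ y k + 2 * d ≤ 1) (T : Finset (Fin m))
    {x : ℝ} (hx : x ∈ Icc (0 : ℝ) 1) : |(∏ l ∈ T, qq y d l).eval x| ≤ 1 := by
  rw [eval_prod, Finset.abs_prod]
  apply Finset.prod_le_one (fun _ _ => abs_nonneg _)
  intro k _
  rw [eval_qq]
  have d1 : |x - y k| ≤ 1 := by
    rw [abs_le]; constructor <;> linarith [hx.1, hx.2, (hy k).1, (hy k).2]
  have d2 : |x - (y k + d)| ≤ 1 := by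
    rw [abs_le]; constructor <;> linarith [hx.1, hx.2, (hy k).1, (hy k).2]
  simpa using am d1 d2

theorem near_V (hd : 0 < d) (hy : ∀ k, 0 ≤ y k - d ∧ y k + 2 * d ≤ 1) (k : Fin m) {f : ℝ → ℝ}
    {Λ : ℝ} (hf : LB f Λ) {x : ℝ} (hx : x ∈ Icc (y k - d) (y k + 2 * d)) :
    |(WK y d k).eval x * f x - (WK y d k).eval (y k) * f (y k)| ≤ 4 * d * (4 ^ m * Λ) := by
  have h1 := ((LB_WK hd hy k).mul hf).2 x ⟨by linarith [(hy k).1, hx.1], by linarith [(hy k).2, hx.2]⟩
    (y k) ⟨by linarith [(hy k).1], by linarith [(hy k).2]⟩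
  refine h1.trans ?_
  have h2 : |x - y k| ≤ 2 * d := by rw [abs_le]; constructor <;> linarith [hx.1, hx.2]
  have h3 : 0 ≤ 2 * (4 ^ m * Λ) := ((LB_WK hd hy k).mul hf).nonneg
  nlinarith

theorem loc_fr (hd : 0 < d) (hy : ∀ k, 0 ≤ y k - d ∧ y k + 2 * d ≤ 1) {Λ G B1 b : ℝ}
    (hp : ∀ j ≤ s, LB (fun x => (p j).eval x) Λ) (hψ : ∀ k, LB (fun x => (ψ k).eval x) Λ)
    (k : Fin m) (hk : ψ k = p s) {z : Fin s ⊕ (Fin m ⊕ Fin m) → ℝ} (hz : ∀ i, |z i| ≤ G)
    (hB1 : 1 ≤ B1) (hb : |b| ≤ B1)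
    (hQ : |∑ j : Fin s, z (Sum.inl j) * (p j).eval (y k)| ≤ |(p s).eval (y k)| / 100)
    (hv0 : (WK y d k).eval (y k) * (p s).eval (y k) ≠ 0)
    (hsmall : 400 * d * (4 ^ m * Λ) * (B1 + (s + m) * G) ≤
      |(WK y d k).eval (y k) * (p s).eval (y k)|) :
    Loc (rp (fr y d s p ψ) (Sum.elim (fun _ : Unit => b) z)) (y k) d b
      (z (Sum.inr (Sum.inl k))) (z (Sum.inr (Sum.inr k))) := by
  classical
  set v := (WK y d k).eval (y k) * (p s).eval (y k) with hv
  have hG : 0 ≤ G := (abs_nonneg _).trans (hz (Sum.inr (Sum.inl k)))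
  have hΛ : 0 ≤ Λ := (hp s le_rfl).nonneg
  have hvpos : 0 < |v| := abs_pos.mpr hv0
  refine ⟨v, hv0, ?_⟩
  intro x hx
  have hx01 : x ∈ Icc (0 : ℝ) 1 := ⟨by linarith [(hy k).1, hx.1], by linarith [(hy k).2, hx.2]⟩
  set δ := 4 * d * (4 ^ m * Λ) with hδ
  have hδ0 : 0 ≤ δ := by positivity
  have hV := near_V hd hy k (hp s le_rfl) hx
  have hQL : LB (fun x => ∑ j : Fin s, z (Sum.inl j) * (p j).eval x) (s * (G * Λ)) := by
    have := LB.sum Finset.univ (fun (j : Fin s) x => z (Sum.inl j) * (p j).eval x) (M := G * Λ)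
      (fun j _ => (hp j j.2.le).const_mul (hz _))
    rwa [Finset.card_univ, Fintype.card_fin] at this
  have hU := near_V hd hy k hQL hx
  have hU0 : |(WK y d k).eval (y k) * ∑ j : Fin s, z (Sum.inl j) * (p j).eval (y k)| ≤
      |v| / 100 := by
    rw [hv, abs_mul, abs_mul, mul_div_assoc]
    exact mul_le_mul_of_nonneg_left hQ (abs_nonneg _)
  set e : ℝ := ∑ l ∈ Finset.univ.erase k, d * ((ψ l).eval x *
    ((∏ j ∈ (Finset.univ.erase l).erase k, qq y d j).eval x *
      (z (Sum.inr (Sum.inl l)) * (x - (y l + d)) + z (Sum.inr (Sum.inr l)) * (x - y l)))) with he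
  have hebd : |e| ≤ m * (d * (Λ * (1 * (G * 1 + G * 1)))) := by
    refine (Finset.abs_sum_le_sum_abs _ _).trans ?_
    have h1 : ∀ l ∈ Finset.univ.erase k, |d * ((ψ l).eval x *
        ((∏ j ∈ (Finset.univ.erase l).erase k, qq y d j).eval x *
        (z (Sum.inr (Sum.inl l)) * (x - (y l + d)) + z (Sum.inr (Sum.inr l)) * (x - y l))))| ≤
        d * (Λ * (1 * (G * 1 + G * 1))) := by
      intro l _
      have d1 : |x - y l| ≤ 1 := by
        rw [abs_le]; constructor <;> linarith [hx01.1, hx01.2, (hy l).1, (hy l).2]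
      have d2 : |x - (y l + d)| ≤ 1 := by
        rw [abs_le]; constructor <;> linarith [hx01.1, hx01.2, (hy l).1, (hy l).2]
      refine am (abs_of_pos hd).le (am ((hψ l).1 x hx01) (am (prod_qq_le hd hy _ hx01) ?_))
      exact (abs_add_le _ _).trans (add_le_add (am (hz _) d2) (am (hz _) d1))
    refine (Finset.sum_le_sum h1).trans ?_
    rw [Finset.sum_const, nsmul_eq_mul]
    apply mul_le_mul_of_nonneg_right _ (by positivity)
    have := Finset.card_erase_le (s := (Finset.univ : Finset (Fin m))) (a := k)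
    rw [Finset.card_univ, Fintype.card_fin] at this
    exact_mod_cast this
  have hebd2 : |e| ≤ δ * (m * G) := by
    refine hebd.trans ?_
    have h1 : (1 : ℝ) ≤ 4 ^ m := one_le_pow₀ (by norm_num)
    have h2 : 0 ≤ d * Λ * (m * G) := by positivity
    have h3 : δ * (m * G) = 4 * 4 ^ m * (d * Λ * (m * G)) := by rw [hδ]; ring
    have h4 : m * (d * (Λ * (1 * (G * 1 + G * 1)))) = 2 * (d * Λ * (m * G)) := by ring
    rw [h3, h4]
    apply mul_le_mul_of_nonneg_right _ h2
    linarith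
  have hsm : δ * (B1 + (s + m) * G) ≤ |v| / 100 := by
    rw [hδ]; linarith
  have hsG : 0 ≤ δ * (s * G) := by positivity
  have hmG : 0 ≤ δ * (m * G) := by positivity
  have hδB : δ ≤ δ * B1 := le_mul_of_one_le_right hδ0 hB1
  refine ⟨((WK y d k).eval x * (b * (p s).eval x + ∑ j : Fin s, z (Sum.inl j) * (p j).eval x) + e)
    / v, (WK y d k).eval x * (p s).eval x / v, ?_, ?_, ?_⟩
  · rw [div_sub' hv0, abs_div, div_le_iff₀ hvpos]
    set Q := ∑ j : Fin s, z (Sum.inl j) * (p j).eval x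
    set Q0 := ∑ j : Fin s, z (Sum.inl j) * (p j).eval (y k)
    have e1 : (WK y d k).eval x * (b * (p s).eval x + Q) + e - v * b =
        b * ((WK y d k).eval x * (p s).eval x - v) +
          ((WK y d k).eval x * Q - (WK y d k).eval (y k) * Q0) +
          (WK y d k).eval (y k) * Q0 + e := by ring
    rw [e1]
    have t1 := am hb hV
    have t2 : 4 * d * (4 ^ m * (s * (G * Λ))) = δ * (s * G) := by rw [hδ]; ring
    rw [t2] at hU
    have t3 := abs_add_le (b * ((WK y d k).eval x * (p s).eval x - v) +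
          ((WK y d k).eval x * Q - (WK y d k).eval (y k) * Q0) +
          (WK y d k).eval (y k) * Q0) e
    have t4 := abs_add_le (b * ((WK y d k).eval x * (p s).eval x - v) +
          ((WK y d k).eval x * Q - (WK y d k).eval (y k) * Q0)) ((WK y d k).eval (y k) * Q0)
    have t5 := abs_add_le (b * ((WK y d k).eval x * (p s).eval x - v))
          ((WK y d k).eval x * Q - (WK y d k).eval (y k) * Q0)
    nlinarith
  · rw [div_sub_one hv0, abs_div, div_le_iff₀ hvpos]
    nlinarith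
  · rw [eval_fr, ← Finset.add_sum_erase _ _ (Finset.mem_univ k), hk, eval_WW y d k]
    have e2 : ∑ l ∈ Finset.univ.erase k, d * ((ψ l).eval x * ((WK y d l).eval x *
        (z (Sum.inr (Sum.inl l)) * (x - (y l + d)) + z (Sum.inr (Sum.inr l)) * (x - y l)))) =
        (x - y k) * (x - (y k + d)) * e := by
      rw [he, Finset.mul_sum]
      apply Finset.sum_congr rfl
      intro l hl
      have hkl : k ∈ Finset.univ.erase l :=
        Finset.mem_erase.mpr ⟨(Finset.mem_erase.mp hl).1.symm, Finset.mem_univ _⟩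
      have e3 : WK y d l = qq y d k * ∏ j ∈ (Finset.univ.erase l).erase k, qq y d j :=
        (Finset.mul_prod_erase _ (qq y d) hkl).symm
      rw [e3, eval_mul, eval_qq]
      ring
    rw [e2]
    field_simp
    ring

theorem WK_lower (hm : 1 ≤ m) (j : Fin m → ℕ) (hj : Function.Injective j)
    (hy : ∀ k, y k = 1 / 4 + j k / (4 * m)) (hd : 0 < d) (hdm : d ≤ 1 / (8 * m)) (k : Fin m) :
    Real.exp (-(8 * m)) ≤ |(WK y d k).eval (y k)| := by
  classical
  have hm' : (0 : ℝ) < m := by exact_mod_cast hm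
  obtain ⟨t, rfl⟩ : ∃ t, m = t + 1 := ⟨m - 1, by omega⟩
  have hcard : (Finset.univ.erase k).card = t := by
    rw [Finset.card_erase_of_mem (Finset.mem_univ _), Finset.card_univ, Fintype.card_fin]
    rfl
  have h1 := prod_int_dist (fun l => (j l : ℤ)) (j k : ℤ) t (Finset.univ.erase k) hcard
    (by intro a _ b _ hab; apply hj; simpa using hab)
    (by
      intro l hl e
      apply (Finset.mem_erase.mp hl).1
      apply hj
      simpa using e)
  set M : ℝ := ((t + 1 : ℕ) : ℝ) with hM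
  have h2 : ∀ l ∈ Finset.univ.erase k, (|((j k : ℤ) : ℝ) - ((j l : ℤ) : ℝ)| / (8 * M)) ^ 2 ≤
      |(qq y d l).eval (y k)| := by
    intro l hl
    have hne : j k ≠ j l := fun e => (Finset.mem_erase.mp hl).1 (hj e).symm
    push_cast
    set D := |(j k : ℝ) - (j l : ℝ)| with hD
    have hD1 : 1 ≤ D := by
      rcases lt_or_gt_of_ne hne with h | h
      · have : (j k : ℝ) + 1 ≤ j l := by exact_mod_cast h
        rw [hD, le_abs]; right; linarith
      · have : (j l : ℝ) + 1 ≤ j k := by exact_mod_cast h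
        rw [hD, le_abs]; left; linarith
    have e1 : |y k - y l| = 2 * (D / (8 * M)) := by
      have : y k - y l = ((j k : ℝ) - j l) / (4 * M) := by rw [hy, hy]; ring
      rw [this, abs_div, abs_of_pos (by positivity : (0 : ℝ) < 4 * M)]
      field_simp
      ring
    have e2 : d ≤ D / (8 * M) := hdm.trans (div_le_div_of_nonneg_right hD1 (by positivity))
    have e3 : D / (8 * M) ≤ |y k - (y l + d)| := by
      have := abs_add_le (y k - (y l + d)) d
      rw [abs_of_pos hd, show y k - (y l + d) + d = y k - y l by ring] at this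
      linarith
    have e4 : 0 ≤ D / (8 * M) := by positivity
    rw [eval_qq, abs_mul, sq]
    exact mul_le_mul (by linarith) e3 e4 (abs_nonneg _)
  unfold WK
  rw [eval_prod, Finset.abs_prod]
  refine le_trans ?_ (Finset.prod_le_prod (fun _ _ => sq_nonneg _) h2)
  rw [Finset.prod_pow, Finset.prod_div_distrib, Finset.prod_const, hcard]
  have h3 : Real.exp (-(4 * M)) ≤
      (∏ l ∈ Finset.univ.erase k, |((j k : ℤ) : ℝ) - ((j l : ℤ) : ℝ)|) / (8 * M) ^ t := by
    refine le_trans ?_ (div_le_div_of_nonneg_right h1 (by positivity))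
    have f1 := pow_le_exp_mul_factorial (t + 1)
    rw [← hM, Nat.factorial_succ, pow_succ] at f1
    push_cast at f1
    have f2 : M ^ t ≤ Real.exp M * t.factorial := by
      have e : Real.exp M * (((t : ℝ) + 1) * t.factorial) = Real.exp M * t.factorial * M := by
        rw [hM]; push_cast; ring
      rw [e] at f1
      exact le_of_mul_le_mul_right f1 hm'
    have f3 : (16 : ℝ) ^ t ≤ Real.exp (3 * M) := by
      have g1 : (16 : ℝ) ≤ Real.exp 3 := by
        have g2 := Real.exp_one_gt_d9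
        have g3 : (2.7 : ℝ) ^ 3 ≤ Real.exp 1 ^ 3 := pow_le_pow_left₀ (by norm_num) (by linarith) 3
        rw [← Real.exp_nat_mul] at g3
        norm_num at g3 ⊢
        linarith
      calc (16 : ℝ) ^ t ≤ Real.exp 3 ^ t := pow_le_pow_left₀ (by norm_num) g1 t
        _ = Real.exp (t * 3) := by rw [Real.exp_nat_mul]
        _ ≤ _ := by
          apply Real.exp_le_exp.mpr
          rw [hM]; push_cast; linarith
    rw [div_div, le_div_iff₀ (by positivity)]
    have e5 : (2 : ℝ) ^ t * (8 * M) ^ t = 16 ^ t * M ^ t := by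
      rw [← mul_pow, ← mul_pow]; congr 1; ring
    rw [e5]
    calc Real.exp (-(4 * M)) * (16 ^ t * M ^ t)
        ≤ Real.exp (-(4 * M)) * (Real.exp (3 * M) * (Real.exp M * t.factorial)) := by gcongr
      _ = t.factorial := by
          rw [← mul_assoc, ← mul_assoc, ← Real.exp_add, ← Real.exp_add]
          have : -(4 * M) + 3 * M + M = 0 := by ring
          rw [this, Real.exp_zero, one_mul]
  have h4 := pow_le_pow_left₀ (Real.exp_pos _).le h3 2
  refine le_trans (le_of_eq ?_) h4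
  rw [← Real.exp_nat_mul]
  congr 1
  push_cast
  ring

end Pool.Agent.H142Z.Clt
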