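import Pool.Agent.H142Z.CltD

set_option autoImplicit false
open MeasureTheory ProbabilityTheory Filter Topology Set Polynomial
open scoped ENNReal NNReal

namespace Pool.Agent.H142Z.Clt
open Pool.Agent.Helper553.Orth

/-- The functional is monotone for the pointwise order on a set. -/
def Mono (L : ℝ[X] →ₗ[ℝ] ℝ) (E : Set ℝ) : Prop :=
  ∀ p q : ℝ[X], (∀ x ∈ E, p.eval x ≤ q.eval x) → L p ≤ L q

variable {m : ℕ} {y : Fin m → ℝ} {d : ℝ} {s : ℕ} {p : ℕ → ℝ[X]} {ψ : Fin m → ℝ[X]}
  {L : ℝ[X] →ₗ[ℝ] ℝ} {E : Set ℝ}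

theorem WK_zero (k l : Fin m) (hkl : l ≠ k) (x : ℝ) (hx : x = y l ∨ x = y l + d) :
    (WK y d k).eval x = 0 := by
  unfold WK
  rw [eval_prod]
  apply Finset.prod_eq_zero (Finset.mem_erase.mpr ⟨hkl, Finset.mem_univ l⟩)
  rw [eval_qq]
  rcases hx with h | h <;> rw [h] <;> ring

theorem WW_node (i : Fin m ⊕ Fin m) : (WW y d).eval (nod y d i) = 0 := by
  rcases i with k | k <;> rw [eval_WW y d k] <;> simp [nod]

theorem fr_node (a : Unit ⊕ (Fin s ⊕ (Fin m ⊕ Fin m))) (i : Fin m ⊕ Fin m)
    (h : a ≠ Sum.inr (Sum.inr i)) : (fr y d s p ψ a).eval (nod y d i) = 0 := by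
  rcases a with u | (j | (k | k))
  · simp only [fr, eval_mul, WW_node, zero_mul]
  · simp only [fr, eval_mul, WW_node, zero_mul]
  · simp only [fr, eval_mul, eval_C, eval_sub, eval_X]
    rcases i with l | l
    · have hlk : l ≠ k := by rintro rfl; exact h rfl
      rw [WK_zero (y := y) (d := d) k l hlk (nod y d (Sum.inl l)) (Or.inl rfl)]
      ring
    · by_cases hlk : l = k
      · simp only [nod, hlk, sub_self, mul_zero]
      · rw [WK_zero (y := y) (d := d) k l hlk (nod y d (Sum.inr l)) (Or.inr rfl)]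
        ring
  · simp only [fr, eval_mul, eval_C, eval_sub, eval_X]
    rcases i with l | l
    · by_cases hlk : l = k
      · simp only [nod, hlk, sub_self, mul_zero]
      · rw [WK_zero (y := y) (d := d) k l hlk (nod y d (Sum.inl l)) (Or.inl rfl)]
        ring
    · have hlk : l ≠ k := by rintro rfl; exact h rfl
      rw [WK_zero (y := y) (d := d) k l hlk (nod y d (Sum.inr l)) (Or.inr rfl)]
      ring

theorem L_mul_le (hM : Mono L E) (p q : ℝ[X]) {lam : ℝ} (hlam : 0 < lam) :
    |L (p * q)| ≤ (lam * L (p * p) + lam⁻¹ * L (q * q)) / 2 := by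
  have key : ∀ p q : ℝ[X], L (p * q) ≤ (lam * L (p * p) + lam⁻¹ * L (q * q)) / 2 := by
    intro p q
    have h := hM (p * q) ((lam / 2) • (p * p) + (lam⁻¹ / 2) • (q * q)) (by
      intro u _
      simp only [eval_mul, eval_add, eval_smul, smul_eq_mul]
      have h1 : 0 ≤ (lam * p.eval u - q.eval u) ^ 2 * lam⁻¹ := by positivity
      have h2 : (lam * p.eval u - q.eval u) ^ 2 * lam⁻¹ =
          lam * (p.eval u * p.eval u) + lam⁻¹ * (q.eval u * q.eval u) -
            2 * (p.eval u * q.eval u) := by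
        field_simp
        ring
      rw [h2] at h1
      linarith)
    rw [map_add, map_smul, map_smul, smul_eq_mul, smul_eq_mul] at h
    linarith
  rw [abs_le]
  constructor
  · have h := key (-p) q
    have e : -p * -p = p * p := by ring
    rw [e, neg_mul, map_neg] at h
    linarith
  · exact key p q

theorem fr_norm (hM : Mono L E) {η : ℝ} (hη : 0 < η) (hE : ∀ x ∈ E, ∀ i, η ≤ |x - nod y d i|)
    (hψ : ∀ k, L (WW y d * ψ k * (WW y d * ψ k)) ≤ 1) (i : Fin m ⊕ Fin m) :
    L (fr y d s p ψ (Sum.inr (Sum.inr i)) * fr y d s p ψ (Sum.inr (Sum.inr i))) ≤ (d / η) ^ 2 := by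
  have key : ∀ (k : Fin m) (c z : ℝ), (∀ x ∈ E, η ≤ |x - z|) →
      (∀ u, (u - y k) * (u - (y k + d)) = (u - c) * (u - z)) →
      L (C d * (ψ k * (WK y d k * (X - C c))) * (C d * (ψ k * (WK y d k * (X - C c))))) ≤
        (d / η) ^ 2 := by
    intro k c z hz hq
    have h := hM (C d * (ψ k * (WK y d k * (X - C c))) * (C d * (ψ k * (WK y d k * (X - C c)))))
      (((d / η) ^ 2) • (WW y d * ψ k * (WW y d * ψ k))) (by
      intro u hu
      simp only [eval_mul, eval_C, eval_sub, eval_X, eval_smul, smul_eq_mul, eval_WW y d k, hq]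
      have h1 : 1 ≤ ((u - z) / η) ^ 2 := by
        rw [← sq_abs, abs_div, abs_of_pos hη]
        apply one_le_pow₀
        rw [le_div_iff₀ hη]; linarith [hz u hu]
      have h2 : 0 ≤ (d * ((ψ k).eval u * ((WK y d k).eval u * (u - c)))) ^ 2 := sq_nonneg _
      calc d * ((ψ k).eval u * ((WK y d k).eval u * (u - c))) *
          (d * ((ψ k).eval u * ((WK y d k).eval u * (u - c))))
          = (d * ((ψ k).eval u * ((WK y d k).eval u * (u - c)))) ^ 2 * 1 := by ring
        _ ≤ (d * ((ψ k).eval u * ((WK y d k).eval u * (u - c)))) ^ 2 * ((u - z) / η) ^ 2 :=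
            mul_le_mul_of_nonneg_left h1 h2
        _ = _ := by ring)
    rw [map_smul, smul_eq_mul] at h
    refine h.trans ?_
    have := mul_le_mul_of_nonneg_left (hψ k) (sq_nonneg (d / η))
    linarith
  rcases i with k | k
  · exact key k (y k + d) (y k) (fun x hx => hE x hx (Sum.inl k)) (fun u => by ring)
  · exact key k (y k) (y k + d) (fun x hx => hE x hx (Sum.inr k)) (fun u => by ring)

/-- The masses. -/
noncomputable def mas (y : Fin m → ℝ) (d : ℝ) (s : ℕ) (p : ℕ → ℝ[X]) (ψ : Fin m → ℝ[X])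
    (i : Fin m ⊕ Fin m) : ℝ :=
  (((fr y d s p ψ (Sum.inr (Sum.inr i))).eval (nod y d i)) ^ 2)⁻¹

theorem gram (hM : Mono L E) {η : ℝ} (hd : 0 < d) (hdη : d ≤ η)
    (hE : ∀ x ∈ E, ∀ i, η ≤ |x - nod y d i|)
    (horth : ∀ j k, L (WW y d * p j * (WW y d * p k)) = if j = k then 1 else 0)
    (hψ : ∀ k, L (WW y d * ψ k * (WW y d * ψ k)) ≤ 1)
    (hself : ∀ i, (fr y d s p ψ (Sum.inr (Sum.inr i))).eval (nod y d i) ≠ 0)
    (a b : Unit ⊕ (Fin s ⊕ (Fin m ⊕ Fin m))) :
    |L (fr y d s p ψ a * fr y d s p ψ b) +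
      ∑ i, mas y d s p ψ i * (fr y d s p ψ a * fr y d s p ψ b).eval (nod y d i)
      - (if a = b then 1 else 0)| ≤ d / η := by
  classical
  have hη : 0 < η := by linarith
  have hτη0 : 0 < d / η := by positivity
  have hτη1 : d / η ≤ 1 := by rw [div_le_one hη]; exact hdη
  have cross : ∀ i a, |L (fr y d s p ψ (Sum.inr (Sum.inr i)) * fr y d s p ψ a)| ≤ d / η := by
    intro i a
    have ha : L (fr y d s p ψ a * fr y d s p ψ a) ≤ 1 := by
      rcases a with u | (j | k)
      · have := horth s s
        rw [if_pos rfl] at this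
        exact this.le
      · have := horth j j
        rw [if_pos rfl] at this
        exact this.le
      · refine (fr_norm hM hη hE hψ k).trans ?_
        nlinarith
    have h1 := L_mul_le hM (fr y d s p ψ (Sum.inr (Sum.inr i))) (fr y d s p ψ a)
      (lam := (d / η)⁻¹) (by positivity)
    have h2 := fr_norm (s := s) (p := p) hM hη hE hψ i
    refine h1.trans ?_
    rw [inv_inv]
    have e1 := mul_le_mul_of_nonneg_left h2 (by positivity : 0 ≤ (d / η)⁻¹)
    have e2 : (d / η)⁻¹ * (d / η) ^ 2 = d / η := by field_simp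
    have e3 := mul_le_mul_of_nonneg_left ha hτη0.le
    linarith
  by_cases hloc : ∃ i, a = Sum.inr (Sum.inr i) ∨ b = Sum.inr (Sum.inr i)
  · have hcross : |L (fr y d s p ψ a * fr y d s p ψ b)| ≤ d / η := by
      obtain ⟨i, hi | hi⟩ := hloc
      · rw [hi]; exact cross i b
      · rw [hi, mul_comm]; exact cross i a
    have hsum : ∑ i, mas y d s p ψ i * (fr y d s p ψ a * fr y d s p ψ b).eval (nod y d i)
        = if a = b then 1 else 0 := by
      by_cases hab : a = b
      · obtain ⟨i, hi⟩ : ∃ i, a = Sum.inr (Sum.inr i) := by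
          obtain ⟨i, hi | hi⟩ := hloc
          · exact ⟨i, hi⟩
          · exact ⟨i, by rw [hab, hi]⟩
        rw [if_pos hab, ← hab, hi, Finset.sum_eq_single i]
        · rw [eval_mul]
          unfold mas
          have := hself i
          field_simp
        · intro l _ hl
          rw [eval_mul, fr_node (Sum.inr (Sum.inr i)) l (by
            intro h; apply hl; exact (Sum.inr_injective (Sum.inr_injective h)).symm)]
          ring
        · intro h; exact absurd (Finset.mem_univ _) h
      · rw [if_neg hab]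
        apply Finset.sum_eq_zero
        intro i _
        rw [eval_mul]
        by_cases ha : a = Sum.inr (Sum.inr i)
        · have hb : b ≠ Sum.inr (Sum.inr i) := fun hb => hab (ha.trans hb.symm)
          rw [fr_node b i hb]; ring
        · rw [fr_node a i ha]; ring
    rw [hsum, add_sub_cancel_right]
    exact hcross
  · push Not at hloc
    have hsum : ∑ i, mas y d s p ψ i * (fr y d s p ψ a * fr y d s p ψ b).eval (nod y d i) = 0 := by
      apply Finset.sum_eq_zero
      intro i _
      rw [eval_mul, fr_node a i (hloc i).1]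
      ring
    rw [hsum, add_zero]
    have hval : L (fr y d s p ψ a * fr y d s p ψ b) = if a = b then 1 else 0 := by
      rcases a with u | (j | k)
      · rcases b with u' | (j' | k')
        · rw [if_pos rfl]
          have := horth s s
          rwa [if_pos rfl] at this
        · rw [if_neg (by simp)]
          have := horth s j'
          rwa [if_neg j'.2.ne'] at this
        · exact absurd rfl (hloc k').2
      · rcases b with u' | (j' | k')
        · rw [if_neg (by simp)]
          have := horth j s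
          rwa [if_neg j.2.ne] at this
        · have h := horth j j'
          show L (WW y d * p j * (WW y d * p j')) = _
          rw [h]
          by_cases hjj : (j : ℕ) = (j' : ℕ)
          · rw [if_pos hjj, if_pos (by rw [Fin.ext hjj])]
          · rw [if_neg hjj, if_neg]
            intro h'
            apply hjj
            have := Sum.inl_injective (Sum.inr_injective h')
            rw [this]
        · exact absurd rfl (hloc k').2
      · exact absurd rfl (hloc k).1
    rw [hval, sub_self, abs_zero]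
    exact hτη0.le

theorem self_lower (hd : 0 < d) (hy : ∀ k, 0 ≤ y k - d ∧ y k + 2 * d ≤ 1) {Λ v0 : ℝ}
    (hψ : ∀ k, LB (fun x => (ψ k).eval x) Λ)
    (hv : ∀ k, v0 ≤ |(WK y d k).eval (y k) * (ψ k).eval (y k)|)
    (hsm : 8 * d * (4 ^ m * Λ) ≤ v0) (i : Fin m ⊕ Fin m) :
    d ^ 2 * (v0 / 2) ≤ |(fr y d s p ψ (Sum.inr (Sum.inr i))).eval (nod y d i)| := by
  have key : ∀ k : Fin m, ∀ x ∈ Icc (y k - d) (y k + 2 * d),
      v0 / 2 ≤ |(WK y d k).eval x * (ψ k).eval x| := by
    intro k x hx
    have h1 := near_V hd hy k (hψ k) hx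
    have h2 := abs_sub_abs_le_abs_sub ((WK y d k).eval (y k) * (ψ k).eval (y k))
      ((WK y d k).eval x * (ψ k).eval x)
    rw [abs_sub_comm] at h2
    linarith [hv k]
  rcases i with k | k
  · have h := key k (y k) ⟨by linarith, by linarith⟩
    simp only [fr, nod, eval_mul, eval_C, eval_sub, eval_X]
    have e : d * ((ψ k).eval (y k) * ((WK y d k).eval (y k) * (y k - (y k + d)))) =
        -(d ^ 2 * ((WK y d k).eval (y k) * (ψ k).eval (y k))) := by ring
    rw [e, abs_neg, abs_mul, abs_of_pos (by positivity : 0 < d ^ 2)]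
    exact mul_le_mul_of_nonneg_left h (by positivity)
  · have h := key k (y k + d) ⟨by linarith, by linarith⟩
    simp only [fr, nod, eval_mul, eval_C, eval_sub, eval_X]
    have e : d * ((ψ k).eval (y k + d) * ((WK y d k).eval (y k + d) * (y k + d - y k))) =
        d ^ 2 * ((WK y d k).eval (y k + d) * (ψ k).eval (y k + d)) := by ring
    rw [e, abs_mul, abs_of_pos (by positivity : 0 < d ^ 2)]
    exact mul_le_mul_of_nonneg_left h (by positivity)

/-- Chebyshev bound for a Gaussian linear form. -/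
theorem cheb {κ : Type} [Fintype κ] (c : κ → ℝ) {t : ℝ} (ht : 0 < t) :
    gpi κ {z | t ≤ |∑ i, c i * z i|} ≤ ENNReal.ofReal ((∑ i, c i ^ 2) / t ^ 2) := by
  have hmem : MemLp (fun x : ℝ => x) 2 (gaussianReal 0 1) := memLp_id_gaussianReal' 2 (by norm_num)
  have hm : ∀ i, MemLp (fun x : ℝ => c i * x) 2 (gaussianReal 0 1) := fun i => hmem.const_mul _
  have hm2 : ∀ i, MemLp (fun z : κ → ℝ => c i * z i) 2 (gpi κ) := fun i =>
    (hm i).comp_measurePreserving (measurePreserving_eval (fun _ : κ => gaussianReal 0 1) i)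
  have hX : MemLp (fun z : κ → ℝ => ∑ i, c i * z i) 2 (gpi κ) :=
    memLp_finsetSum _ (fun i _ => hm2 i)
  have h1 := meas_ge_le_variance_div_sq hX ht
  have h2 : Var[fun z : κ → ℝ => ∑ i, c i * z i; gpi κ] = ∑ i, c i ^ 2 := by
    have h3 := variance_sum_pi (μ := fun _ : κ => gaussianReal 0 1) hm
    have e : (∑ i, fun z : κ → ℝ => c i * z i) = fun z : κ → ℝ => ∑ i, c i * z i := by
      funext z; rw [Finset.sum_apply]
    rw [e] at h3
    unfold gpi
    rw [h3]
    apply Finset.sum_congr rfl
    intro i _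
    rw [variance_const_mul, variance_fun_id_gaussianReal, NNReal.coe_one, mul_one]
  have h3 : ∫ z, (∑ i, c i * z i) ∂(gpi κ) = 0 := by
    rw [integral_finsetSum _ (fun i _ => (hm2 i).integrable one_le_two)]
    apply Finset.sum_eq_zero
    intro i _
    rw [integral_const_mul]
    unfold gpi
    rw [integral_eval, integral_id_gaussianReal, mul_zero]
  rw [h2, h3] at h1
  simpa using h1

end Pool.Agent.H142Z.Clt
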