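import Pool.Agent.H142Z.CltE

set_option autoImplicit false
open MeasureTheory ProbabilityTheory Filter Topology Set Polynomial
open scoped ENNReal NNReal

namespace Pool.Agent.H142Z.Clt
open Pool.Agent.Helper553.Orth

variable {m : ℕ} {y : Fin m → ℝ} {d : ℝ} {s : ℕ} {p : ℕ → ℝ[X]} {ψ : Fin m → ℝ[X]}

/-- The lower order part is large at a good node. -/
def EQ (y : Fin m → ℝ) (s : ℕ) (p : ℕ → ℝ[X]) (A : Finset (Fin m)) (k : Fin m) :
    Set (Fin s ⊕ (Fin m ⊕ Fin m) → ℝ) :=
  {z | k ∈ A ∧ |(p s).eval (y k)| / 100 ≤ |∑ j : Fin s, z (Sum.inl j) * (p j).eval (y k)|}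

theorem EQ_meas (A : Finset (Fin m)) (k : Fin m) : MeasurableSet (EQ y s p A k) := by
  have h1 : MeasurableSet {z : Fin s ⊕ (Fin m ⊕ Fin m) → ℝ |
      |(p s).eval (y k)| / 100 ≤ |∑ j : Fin s, z (Sum.inl j) * (p j).eval (y k)|} :=
    measurableSet_le measurable_const (by fun_prop)
  exact (MeasurableSet.const (k ∈ A)).inter h1

theorem EQ_prob (A : Finset (Fin m)) {q : ℝ} (hq : 0 ≤ q)
    (hA : ∀ k ∈ A, (p s).eval (y k) ≠ 0 ∧ 10000 * KK p s (y k) ≤ q * (p s).eval (y k) ^ 2)
    (k : Fin m) : gpi _ (EQ y s p A k) ≤ ENNReal.ofReal q := by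
  by_cases hk : k ∈ A
  · obtain ⟨h0, h1⟩ := hA k hk
    have ht : 0 < |(p s).eval (y k)| / 100 := by positivity
    have h2 := cheb (κ := Fin s ⊕ (Fin m ⊕ Fin m))
      (Sum.elim (fun j : Fin s => (p j).eval (y k)) (fun _ => 0)) ht
    refine le_trans (measure_mono ?_) (h2.trans (ENNReal.ofReal_le_ofReal ?_))
    · intro z hz
      have h3 := hz.2
      rw [mem_ofPred_eq, Fintype.sum_sum_type]
      simp only [Sum.elim_inl, Sum.elim_inr, zero_mul, Finset.sum_const_zero, add_zero]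
      simpa only [mul_comm] using h3
    · rw [Fintype.sum_sum_type]
      simp only [Sum.elim_inl, Sum.elim_inr]
      have e : ∑ j : Fin s, (p j).eval (y k) ^ 2 = KK p s (y k) := by
        unfold KK; rw [Finset.sum_range]
      rw [e, div_le_iff₀ (by positivity), div_pow, sq_abs]
      simp only [ne_eq, OfNat.ofNat_ne_zero, not_false_eq_true, zero_pow, Finset.sum_const_zero,
        add_zero]
      linarith
  · have : EQ y s p A k = ∅ := by
      ext z; simp [EQ, hk]
    rw [this, measure_empty]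
    exact bot_le

theorem varge {pA pb B0 : ℝ} (hC : Cst pA pb B0) (hm : 1 ≤ m) (hd : 0 < d)
    (hy : ∀ k, 0 ≤ y k - d ∧ y k + 2 * d ≤ 1) (hsep : ∀ k l, k ≠ l → 3 * d < |y k - y l|)
    {Λ G : ℝ} (hG : 1 ≤ G) (hNG : (s + 2 * m) * (1 / G ^ 2) ≤ pA / 8)
    (hp : ∀ j ≤ s, LB (fun x => (p j).eval x) Λ) (hψ : ∀ k, LB (fun x => (ψ k).eval x) Λ)
    (hpd : ∀ j, (p j).natDegree = j) (hψd : ∀ k, (ψ k).natDegree ≤ s)
    (A : Finset (Fin m)) (hAc : (m : ℝ) ≤ A.card + pA / 32 * m) (hs : (s : ℝ) ≤ pA / 8 * m)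
    (hA : ∀ k ∈ A, ψ k = p s ∧ 10000 * KK p s (y k) ≤ pA ^ 2 / 256 * (p s).eval (y k) ^ 2)
    (hv0 : ∀ k, (WK y d k).eval (y k) * (ψ k).eval (y k) ≠ 0)
    (hsmall : ∀ k, 400 * d * (4 ^ m * Λ) * (B0 + 1 + (s + m) * G) ≤
      |(WK y d k).eval (y k) * (ψ k).eval (y k)|) :
    VarGe (fr y d s p ψ) (pA ^ 3 * pb / 256 * m ^ 2) := by
  classical
  let k0 : Fin m := ⟨0, hm⟩
  set κ := Fin s ⊕ (Fin m ⊕ Fin m) with hκ
  have hpA := hC.hpA
  have hpb := hC.hpb
  have hB0 := hC.hB0
  intro c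
  let F : (Unit ⊕ κ → ℝ) → ℝ≥0∞ := fun x =>
    ENNReal.ofReal (((nr (rp (fr y d s p ψ) x) : ℝ) - c) ^ 2)
  have hFm : Measurable F := by
    have h1 : Measurable (fun x : Unit ⊕ κ → ℝ => (nr (rp (fr y d s p ψ) x) : ℝ)) :=
      (measurable_from_top (f := fun n : ℕ => (n : ℝ))).comp (measurable_nr _)
    exact ENNReal.measurable_ofReal.comp ((h1.sub_const c).pow_const 2)
  have hem : Measurable (fun p : ℝ × (κ → ℝ) =>
      (Sum.elim (fun _ : Unit => p.1) p.2 : Unit ⊕ κ → ℝ)) := by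
    apply measurable_pi_lambda
    rintro (i | i)
    · exact measurable_fst
    · exact (measurable_pi_apply i).comp measurable_snd
  show _ ≤ ∫⁻ x, F x ∂(gpi (Unit ⊕ κ))
  have hcm : Measurable (fun p : ℝ × (κ → ℝ) => F (Sum.elim (fun _ : Unit => p.1) p.2)) :=
    hFm.comp hem
  rw [← map_e, lintegral_map hFm hem, lintegral_prod_symm' _ hcm]
  set T1 := TypS s m pA B0 G k0 with hT1
  set T2 := {z : κ → ℝ | pA / 32 * m <
    ((Finset.univ.filter (fun k => z ∈ EQ y s p A k)).card : ℝ)} with hT2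
  have hT1m := typ_meas s m pA B0 G k0
  have hT2m : MeasurableSet T2 := measurableSet_lt measurable_const (count_measurable _ (EQ_meas A))
  have hP1 := typ_prob hC hm hG hNG k0
  have hP2 : gpi κ T2 ≤ ENNReal.ofReal (pA / 8) := by
    have h1 := count_le hm (gpi κ) (EQ y s p A) (EQ_meas A) (q := pA ^ 2 / 256) (θ := pA / 32)
      (by positivity) (by positivity) (EQ_prob A (by positivity) (fun k hk => by
        have h2 := hv0 k
        rw [(hA k hk).1] at h2
        exact ⟨right_ne_zero_of_mul h2, (hA k hk).2⟩))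
    refine h1.trans (le_of_eq ?_)
    congr 1
    field_simp
    ring
  have hP : ENNReal.ofReal (pA / 8) ≤ gpi κ (T1 \ T2) := by
    have h1 : gpi κ T1 ≤ gpi κ (T1 \ T2) + gpi κ T2 := by
      refine (measure_mono ?_).trans (measure_union_le _ _)
      intro z hz
      by_cases h : z ∈ T2
      · exact Or.inr h
      · exact Or.inl ⟨hz, h⟩
    have h2 : ENNReal.ofReal (pA / 8) + ENNReal.ofReal (pA / 8) ≤
        gpi κ (T1 \ T2) + ENNReal.ofReal (pA / 8) := by
      rw [← ENNReal.ofReal_add (by positivity) (by positivity)]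
      have e : pA / 8 + pA / 8 = pA / 4 := by ring
      rw [e]
      exact hP1.trans (h1.trans (add_le_add le_rfl hP2))
    exact (ENNReal.add_le_add_iff_right ENNReal.ofReal_ne_top).mp h2
  have hinner : ∀ z ∈ T1 \ T2, ENNReal.ofReal (pb * ((pA * m / 2) ^ 2 / 8)) ≤
      ∫⁻ b, F (Sum.elim (fun _ : Unit => b) z) ∂(gaussianReal 0 1) := by
    rintro z ⟨⟨hz1, -, hz3, hz4⟩, hz5⟩
    rw [hT2, mem_ofPred_eq, not_lt] at hz5
    set FA := Finset.univ.filter (fun k => z ∈ EA s m k) with hFA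
    set FB := Finset.univ.filter (fun k => z ∈ EB s m B0 k) with hFB
    set FQ := Finset.univ.filter (fun k => z ∈ EQ y s p A k) with hFQ
    have hloc : ∀ k ∈ A \ FQ, ∀ b : ℝ, |b| ≤ B0 + 1 →
        Loc (rp (fr y d s p ψ) (Sum.elim (fun _ : Unit => b) z)) (y k) d b
          (z (Sum.inr (Sum.inl k))) (z (Sum.inr (Sum.inr k))) := by
      intro k hk b hb
      obtain ⟨hk1, hk2⟩ := Finset.mem_sdiff.mp hk
      have h1 := hv0 k
      have h2 := hsmall k
      rw [(hA k hk1).1] at h1 h2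
      apply loc_fr hd hy hp hψ k (hA k hk1).1 hz1 (by linarith) hb _ h1 h2
      by_contra h3
      push Not at h3
      exact hk2 (Finset.mem_filter.mpr ⟨Finset.mem_univ _, hk1, h3.le⟩)
    have hc0 : (A.card : ℝ) ≤ (A \ FQ).card + FQ.card := by
      exact_mod_cast Finset.card_le_card_sdiff_add_card
    have hdeg : ∀ b : ℝ, (rp (fr y d s p ψ) (Sum.elim (fun _ : Unit => b) z)).natDegree ≤
        s + 2 * m := by
      intro b
      unfold rp
      apply natDegree_sum_le_of_forall_le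
      intro i _
      exact (natDegree_C_mul_le _ _).trans (natDegree_fr hpd hψd i)
    have h := inner_bound (N1 := fun _ => 0)
      (N2 := fun b => nr (rp (fr y d s p ψ) (Sum.elim (fun _ : Unit => b) z)))
      (S1 := Icc B0 (B0 + 1)) (S2 := Icc 1 (11 / 10)) measurableSet_Icc measurableSet_Icc
      hC.h2 hC.h1 (α := 2 * m - pA * m / 4) (β := 2 * m - 3 * (pA * m) / 4)
      (by have : 0 ≤ pA * m := by positivity
          linarith)
      (by
        intro b hb
        have h1 := count_lower hd hsep ((A \ FQ) \ FB) (P := rp (fr y d s p ψ)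
          (Sum.elim (fun _ : Unit => b) z)) (by
            intro k hk
            obtain ⟨hk1, hk2⟩ := Finset.mem_sdiff.mp hk
            have h2 : z ∉ EB s m B0 k := fun h => hk2 (Finset.mem_filter.mpr ⟨Finset.mem_univ _, h⟩)
            have h3 := not_not.mp h2
            exact (hloc k hk1 b (by rw [abs_of_pos (by linarith [hb.1])]; exact hb.2)).two hd hB0
              hb.1 h3.1 h3.2)
        have h2 : ((A \ FQ).card : ℝ) ≤ ((A \ FQ) \ FB).card + FB.card := by
          exact_mod_cast Finset.card_le_card_sdiff_add_card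
        have h3 : 2 * (((A \ FQ) \ FB).card : ℝ) ≤
            nr (rp (fr y d s p ψ) (Sum.elim (fun _ : Unit => b) z)) := by exact_mod_cast h1
        push_cast
        linarith)
      (by
        intro b hb
        have h1 := count_upper (hdeg b) hd hsep ((A \ FQ) ∩ FA) (by
            intro k hk
            obtain ⟨hk1, hk2⟩ := Finset.mem_inter.mp hk
            have h3 := (Finset.mem_filter.mp hk2).2
            exact (hloc k hk1 b (by rw [abs_of_pos (by linarith [hb.1])]; linarith [hb.2])).dip hd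
              hb.1 hb.2 h3.1 h3.2)
        have h2 : (((A \ FQ) ∪ FA).card : ℝ) + ((A \ FQ) ∩ FA).card = (A \ FQ).card + FA.card := by
          exact_mod_cast Finset.card_union_add_card_inter _ _
        have h4 : (((A \ FQ) ∪ FA).card : ℝ) ≤ m := by
          have := Finset.card_le_univ ((A \ FQ) ∪ FA)
          rw [Fintype.card_fin] at this
          exact_mod_cast this
        have h3 : (nr (rp (fr y d s p ψ) (Sum.elim (fun _ : Unit => b) z)) : ℝ) +
            2 * ((A \ FQ) ∩ FA).card ≤ s + 2 * m := by exact_mod_cast h1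
        push_cast
        linarith) 0 c
    have e : 2 * (m : ℝ) - pA * m / 4 - (2 * m - 3 * (pA * m) / 4) = pA * m / 2 := by ring
    rw [e] at h
    refine h.trans (le_of_eq ?_)
    apply lintegral_congr
    intro b
    simp [F]
  calc ENNReal.ofReal (pA ^ 3 * pb / 256 * m ^ 2)
      = ENNReal.ofReal (pb * ((pA * m / 2) ^ 2 / 8)) * ENNReal.ofReal (pA / 8) := by
        rw [← ENNReal.ofReal_mul (by positivity)]
        congr 1
        ring
    _ ≤ ENNReal.ofReal (pb * ((pA * m / 2) ^ 2 / 8)) * gpi κ (T1 \ T2) := mul_le_mul_right hP _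
    _ = ∫⁻ _z in T1 \ T2, ENNReal.ofReal (pb * ((pA * m / 2) ^ 2 / 8)) ∂(gpi κ) := by
        rw [setLIntegral_const]
    _ ≤ ∫⁻ z in T1 \ T2, ∫⁻ b, F (Sum.elim (fun _ : Unit => b) z) ∂(gaussianReal 0 1) ∂(gpi κ) :=
        setLIntegral_mono' (hT1m.diff hT2m) hinner
    _ ≤ _ := setLIntegral_le_lintegral _ _

end Pool.Agent.H142Z.Clt
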