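import Pool.Agent.H142Z.CltF

set_option autoImplicit false
open MeasureTheory ProbabilityTheory Filter Topology Set Polynomial
open scoped ENNReal NNReal

namespace Pool.Agent.H142Z.Clt
open Pool.Agent.Helper553.Orth

/-- A short initial interval together with finitely many very short intervals. -/
def Thin (lam κ : ℝ) (E : Set ℝ) : Prop :=
  ∃ (ι : Type) (_ : Fintype ι) (a t : ι → ℝ) (N : ι → ℕ),
    (∀ i, a i ∈ Icc (0 : ℝ) 1 ∧ 0 ≤ t i ∧ 1 ≤ N i ∧
      Real.exp (-lam) ^ N i ≤ Real.exp (-t i) / 2) ∧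
    ∑ i, Real.exp (-t i) < 1 / 16 ∧ ∑ i, (1 + t i) / N i < κ ∧
    ∀ x ∈ E, x ∈ Icc (0 : ℝ) 1 ∧ (x ≤ Real.exp (-lam) ∨ ∃ i, |x - a i| ≤ Real.exp (-lam) ^ N i)

theorem thin_base {lam κ : ℝ} (hlam : 0 ≤ lam) (hκ : 0 < κ) :
    Thin lam κ (Icc 0 (Real.exp (-lam))) := by
  refine ⟨Empty, inferInstance, fun i => i.elim, fun i => i.elim, fun i => i.elim,
    fun i => i.elim, by simp, by simpa using hκ, ?_⟩
  intro x hx
  refine ⟨⟨hx.1, hx.2.trans ?_⟩, Or.inl hx.2⟩
  rw [Real.exp_le_one_iff]; linarith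

theorem Thin.add {lam κ : ℝ} {E : Set ℝ} (hlam : 0 < lam) (h : Thin lam κ E) {ι' : Type}
    [Fintype ι'] (c : ι' → ℝ) (hc : ∀ i, c i ∈ Icc (0 : ℝ) 1) :
    ∃ h0 : ℝ, 0 < h0 ∧ ∀ w ≤ h0, (∀ i, c i + w ≤ 1) →
      Thin lam κ (E ∪ ⋃ i, Icc (c i) (c i + w)) := by
  obtain ⟨ι, _, a, t, N, h1, h2, h3, h4⟩ := h
  set n : ℝ := (Fintype.card ι' : ℝ) with hn
  have hn0 : 0 ≤ n := Nat.cast_nonneg _
  have e1 : Tendsto (fun T : ℝ => n * Real.exp (-T)) atTop (𝓝 (n * 0)) :=
    Real.tendsto_exp_neg_atTop_nhds_zero.const_mul n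
  rw [mul_zero] at e1
  obtain ⟨T, hT1, hT0⟩ := ((e1.eventually (gt_mem_nhds (sub_pos.mpr h2))).and
    (eventually_ge_atTop 0)).exists
  have e2 : Tendsto (fun M : ℕ => n * (1 + T) / (M : ℝ)) atTop (𝓝 0) :=
    tendsto_const_div_atTop_nhds_zero_nat _
  have e3 : Tendsto (fun M : ℕ => Real.exp (-lam) ^ M) atTop (𝓝 0) :=
    tendsto_pow_atTop_nhds_zero_of_lt_one (Real.exp_pos _).le (by
      rw [Real.exp_lt_one_iff]; linarith)
  obtain ⟨M, hM1, hM2, hM3⟩ := ((e2.eventually (gt_mem_nhds (sub_pos.mpr h3))).and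
    ((e3.eventually (gt_mem_nhds (half_pos (Real.exp_pos (-T))))).and
      (eventually_ge_atTop 1))).exists
  refine ⟨Real.exp (-lam) ^ M, by positivity, ?_⟩
  intro w hw hw1
  refine ⟨ι ⊕ ι', inferInstance, Sum.elim a c, Sum.elim t (fun _ => T), Sum.elim N (fun _ => M),
    ?_, ?_, ?_, ?_⟩
  · rintro (i | i)
    · exact h1 i
    · exact ⟨hc i, hT0, hM3, hM2.le⟩
  · rw [Fintype.sum_sum_type]
    simp only [Sum.elim_inl, Sum.elim_inr, Finset.sum_const, Finset.card_univ, nsmul_eq_mul]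
    linarith
  · rw [Fintype.sum_sum_type]
    simp only [Sum.elim_inl, Sum.elim_inr, Finset.sum_const, Finset.card_univ, nsmul_eq_mul]
    rw [← mul_div_assoc]
    linarith
  · rintro x (hx | hx)
    · obtain ⟨h5, h6 | ⟨i, h6⟩⟩ := h4 x hx
      · exact ⟨h5, Or.inl h6⟩
      · exact ⟨h5, Or.inr ⟨Sum.inl i, h6⟩⟩
    · obtain ⟨i, hi⟩ := mem_iUnion.mp hx
      refine ⟨⟨(hc i).1.trans hi.1, hi.2.trans (hw1 i)⟩, Or.inr ⟨Sum.inr i, ?_⟩⟩
      show |x - c i| ≤ Real.exp (-lam) ^ M
      rw [abs_of_nonneg (by linarith [hi.1])]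
      linarith [hi.2]

theorem card_window (T : Finset ℕ) {u l : ℝ} (hl : 0 ≤ l) (h : ∀ j ∈ T, u < j ∧ (j : ℝ) < u + l) :
    (T.card : ℝ) ≤ l + 1 := by
  rcases T.eq_empty_or_nonempty with rfl | hne
  · simp; linarith
  have h1 : T ⊆ Finset.Icc (T.min' hne) (T.max' hne) := by
    intro j hj
    exact Finset.mem_Icc.mpr ⟨T.min'_le j hj, T.le_max' j hj⟩
  have h2 := Finset.card_le_card h1
  rw [Nat.card_Icc] at h2
  have h3 : T.min' hne ≤ T.max' hne := T.min'_le _ (T.max'_mem hne)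
  have h4 : T.card + T.min' hne ≤ T.max' hne + 1 := by omega
  have h5 : (T.card : ℝ) + T.min' hne ≤ T.max' hne + 1 := by exact_mod_cast h4
  linarith [(h _ (T.min'_mem hne)).1, (h _ (T.max'_mem hne)).2]

theorem Thin.package {lam κ : ℝ} {E : Set ℝ} (h : Thin lam κ E) (hlam : 3 ≤ lam) (hκ : κ ≤ 1) :
    ∃ (Y : Set ℝ) (η C0 : ℝ), 0 < η ∧ 0 ≤ C0 ∧ (∀ x ∈ E, x ∈ Icc (0 : ℝ) 1) ∧
      (∀ m : ℕ, 1 ≤ m → C0 ≤ m → ∃ j : Fin m → ℕ, Function.Injective j ∧
        ∀ k, j k < 2 * m ∧ 1 / 4 + (j k : ℝ) / (4 * m) ∈ Y) ∧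
      (∀ y ∈ Y, 1 / 4 ≤ y → ∀ x ∈ E, 2 * η ≤ |x - y|) ∧
      ∀ s : ℕ, C0 ≤ s → ∃ (F : ℝ[X]) (S : ℕ), F.natDegree ≤ s ∧ (1 - κ) * s - C0 ≤ S ∧
        (∀ x ∈ E, |F.eval x| ≤ Real.exp (-lam) ^ S) ∧
        ∀ y ∈ Y, 1 / 4 ≤ y → Real.exp (-(3 * S + C0)) ≤ |F.eval y| := by
  classical
  obtain ⟨ι, _, a, t, N, h1, h2, h3, h4⟩ := h
  set J : ℝ := (Fintype.card ι : ℝ) with hJ
  have hJ0 : 0 ≤ J := Nat.cast_nonneg _
  have ht0 : 0 ≤ ∑ i, t i := Finset.sum_nonneg (fun i _ => (h1 i).2.1)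
  have hNpos : ∀ i, (0 : ℝ) < N i := fun i => by exact_mod_cast (h1 i).2.2.1
  have hρ : Real.exp (-lam) ≤ 1 / 8 := by
    have g1 : Real.exp (-lam) ≤ Real.exp (-3) := Real.exp_le_exp.mpr (by linarith)
    refine g1.trans ?_
    rw [Real.exp_neg, one_div]
    apply inv_anti₀ (by norm_num)
    have g2 := Real.exp_one_gt_d9
    have g3 : (2.7 : ℝ) ^ 3 ≤ Real.exp 1 ^ 3 := pow_le_pow_left₀ (by norm_num) (by linarith) 3
    rw [← Real.exp_nat_mul] at g3
    norm_num at g3 ⊢
    linarith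
  have hρ0 := Real.exp_pos (-lam)
  have hκ0 : 0 < κ := lt_of_le_of_lt (Finset.sum_nonneg (fun i _ => by
    have := (h1 i).2.1
    have := hNpos i
    positivity)) h3
  refine ⟨{y | ∀ i, Real.exp (-t i) ≤ |y - a i|}, Real.exp (-∑ i, t i) / 16,
    2 * J + ∑ i, t i + 1, by positivity, by positivity, fun x hx => (h4 x hx).1, ?_, ?_, ?_⟩
  · intro m hm hC
    have hm' : (0 : ℝ) < m := by exact_mod_cast hm
    let bad : ι → Finset ℕ := fun i => (Finset.range (2 * m)).filter
      (fun j => |1 / 4 + (j : ℝ) / (4 * m) - a i| < Real.exp (-t i))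
    have hbad : ∀ i, ((bad i).card : ℝ) ≤ 8 * m * Real.exp (-t i) + 1 := by
      intro i
      apply card_window _ (u := 4 * m * (a i - Real.exp (-t i) - 1 / 4)) (by positivity)
      intro j hj
      have h5 := abs_lt.mp (Finset.mem_filter.mp hj).2
      have e : (j : ℝ) = 4 * m * ((j : ℝ) / (4 * m)) := by field_simp
      constructor
      · rw [e]; apply mul_lt_mul_of_pos_left _ (by positivity); linarith [h5.1]
      · have e2 : 4 * m * (a i - Real.exp (-t i) - 1 / 4) + 8 * m * Real.exp (-t i) =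
            4 * m * (a i + Real.exp (-t i) - 1 / 4) := by ring
        rw [e2, e]; apply mul_lt_mul_of_pos_left _ (by positivity); linarith [h5.2]
    have hU : ((Finset.univ.biUnion bad).card : ℝ) ≤ m := by
      have e1 : ((Finset.univ.biUnion bad).card : ℝ) ≤ ∑ i, ((bad i).card : ℝ) := by
        exact_mod_cast Finset.card_biUnion_le
      have e2 := Finset.sum_le_sum (s := Finset.univ) (fun i _ => hbad i)
      rw [Finset.sum_add_distrib, ← Finset.mul_sum, Finset.sum_const, Finset.card_univ,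
        nsmul_eq_mul, mul_one] at e2
      have e3 := mul_le_mul_of_nonneg_left h2.le (by positivity : (0 : ℝ) ≤ 8 * m)
      linarith
    have hcard : m ≤ (Finset.range (2 * m) \ Finset.univ.biUnion bad).card := by
      have e1 := Finset.card_le_card_sdiff_add_card (s := Finset.range (2 * m))
        (t := Finset.univ.biUnion bad)
      rw [Finset.card_range] at e1
      have e2 : (Finset.univ.biUnion bad).card ≤ m := by exact_mod_cast hU
      omega
    refine ⟨Finset.orderEmbOfCardLe _ hcard, (Finset.orderEmbOfCardLe _ hcard).injective, ?_⟩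
    intro k
    have hk := Finset.mem_sdiff.mp (Finset.orderEmbOfCardLe_mem _ hcard k)
    refine ⟨Finset.mem_range.mp hk.1, fun i => ?_⟩
    by_contra hcon
    push Not at hcon
    exact hk.2 (Finset.mem_biUnion.mpr ⟨i, Finset.mem_univ _, Finset.mem_filter.mpr ⟨hk.1, hcon⟩⟩)
  · intro y hy hy4 x hx
    have e0 : Real.exp (-∑ i, t i) ≤ 1 := by rw [Real.exp_le_one_iff]; linarith
    obtain ⟨_, h6 | ⟨i, h6⟩⟩ := h4 x hx
    · rw [le_abs]; right; linarith
    · have e1 : Real.exp (-∑ i, t i) ≤ Real.exp (-t i) := by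
        apply Real.exp_le_exp.mpr
        have := Finset.single_le_sum (f := t) (fun i _ => (h1 i).2.1) (Finset.mem_univ i)
        linarith
      have e2 := hy i
      have e3 := (h1 i).2.2.2
      have e4 := abs_add_le (y - x) (x - a i)
      rw [sub_add_sub_cancel, abs_sub_comm y x] at e4
      have := Real.exp_pos (-∑ i, t i)
      linarith
  · intro s hs
    set S := ⌊(1 - κ) * s - J⌋₊ with hS
    have hs0 : (0 : ℝ) ≤ s := Nat.cast_nonneg _
    have hS0 : (0 : ℝ) ≤ S := Nat.cast_nonneg _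
    have hdiv : ∀ i, ((S / N i + 1 : ℕ) : ℝ) ≤ S / N i + 1 := by
      intro i
      push_cast
      linarith [Nat.cast_div_le (α := ℝ) (m := S) (n := N i)]
    refine ⟨X ^ S * ∏ i, (X - C (a i)) ^ (S / N i + 1), S, ?_, ?_, ?_, ?_⟩
    · have e1 : (X ^ S * ∏ i, (X - C (a i)) ^ (S / N i + 1) : ℝ[X]).natDegree ≤
          S + ∑ i, (S / N i + 1) := by
        refine natDegree_mul_le.trans (add_le_add (natDegree_X_pow S).le ?_)
        refine (natDegree_prod_le _ _).trans (Finset.sum_le_sum (fun i _ => ?_))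
        refine natDegree_pow_le.trans ?_
        rw [natDegree_X_sub_C, mul_one]
      refine e1.trans ?_
      have e2 : ((∑ i, (S / N i + 1) : ℕ) : ℝ) ≤ S * κ + J := by
        rw [Nat.cast_sum]
        refine (Finset.sum_le_sum (fun i _ => hdiv i)).trans ?_
        rw [Finset.sum_add_distrib, Finset.sum_const, Finset.card_univ, nsmul_eq_mul, mul_one]
        have e3 : ∑ i, (S : ℝ) / N i ≤ S * ∑ i, (1 + t i) / N i := by
          rw [Finset.mul_sum]
          apply Finset.sum_le_sum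
          intro i _
          rw [← mul_div_assoc]
          apply div_le_div_of_nonneg_right _ (hNpos i).le
          nlinarith [(h1 i).2.1]
        have e4 := mul_le_mul_of_nonneg_left h3.le hS0
        linarith
      have e5 : (S : ℝ) + (S * κ + J) ≤ s := by
        rcases le_total 0 ((1 - κ) * s - J) with h5 | h5
        · have e6 : (S : ℝ) ≤ (1 - κ) * s - J := Nat.floor_le h5
          have e7 := mul_le_mul_of_nonneg_right e6 hκ0.le
          have e8 : 0 ≤ κ * κ * s := by positivity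
          have e9 : 0 ≤ J * κ := by positivity
          nlinarith
        · have e6 : S = 0 := Nat.floor_of_nonpos h5
          rw [e6]
          push_cast
          linarith
      have e6 : ((S + ∑ i, (S / N i + 1) : ℕ) : ℝ) ≤ s := by
        rw [Nat.cast_add]; linarith
      exact_mod_cast e6
    · have := Nat.lt_floor_add_one ((1 - κ) * s - J)
      rw [← hS] at this
      linarith
    · intro x hx
      obtain ⟨h5, h6⟩ := h4 x hx
      have hfac : ∀ i, |x - a i| ≤ 1 := by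
        intro i
        rw [abs_le]; constructor <;> linarith [h5.1, h5.2, (h1 i).1.1, (h1 i).1.2]
      simp only [eval_mul, eval_pow, eval_X, eval_prod, eval_sub, eval_C, abs_mul, abs_pow,
        Finset.abs_prod]
      rw [abs_of_nonneg h5.1]
      rcases h6 with h6 | ⟨i, h6⟩
      · have e1 : ∏ i, |x - a i| ^ (S / N i + 1) ≤ 1 :=
          Finset.prod_le_one (fun _ _ => by positivity)
            (fun i _ => pow_le_one₀ (abs_nonneg _) (hfac i))
        have e2 : x ^ S ≤ Real.exp (-lam) ^ S := pow_le_pow_left₀ h5.1 h6 S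
        calc _ ≤ Real.exp (-lam) ^ S * 1 := mul_le_mul e2 e1 (by positivity) (by positivity)
          _ = _ := mul_one _
      · rw [← Finset.mul_prod_erase _ _ (Finset.mem_univ i)]
        have e1 : ∏ l ∈ Finset.univ.erase i, |x - a l| ^ (S / N l + 1) ≤ 1 :=
          Finset.prod_le_one (fun _ _ => by positivity)
            (fun i _ => pow_le_one₀ (abs_nonneg _) (hfac i))
        have e2 : x ^ S ≤ 1 := pow_le_one₀ h5.1 h5.2
        have e3 : |x - a i| ^ (S / N i + 1) ≤ Real.exp (-lam) ^ S := by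
          refine (pow_le_pow_left₀ (abs_nonneg _) h6 _).trans ?_
          rw [← pow_mul]
          apply pow_le_pow_of_le_one hρ0.le (by linarith)
          exact (Nat.lt_mul_div_succ S (h1 i).2.2.1).le
        calc _ ≤ 1 * (Real.exp (-lam) ^ S * 1) := by gcongr
          _ = _ := by ring
    · intro y hy hy4
      simp only [eval_mul, eval_pow, eval_X, eval_prod, eval_sub, eval_C, abs_mul, abs_pow,
        Finset.abs_prod]
      have e1 : Real.exp (-(2 * S)) ≤ |y| ^ S := by
        have g1 : Real.exp (-2) ≤ |y| := by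
          rw [abs_of_pos (by linarith)]
          refine le_trans ?_ hy4
          rw [Real.exp_neg, one_div]
          apply inv_anti₀ (by norm_num)
          have g2 := Real.exp_one_gt_d9
          have g3 : (2.7 : ℝ) ^ 2 ≤ Real.exp 1 ^ 2 := pow_le_pow_left₀ (by norm_num) (by linarith) 2
          rw [← Real.exp_nat_mul] at g3
          norm_num at g3 ⊢
          linarith
        refine le_trans (le_of_eq ?_) (pow_le_pow_left₀ (Real.exp_pos _).le g1 S)
        rw [← Real.exp_nat_mul]; congr 1; ring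
      have e2 : Real.exp (-(S + ∑ i, t i)) ≤ ∏ i, |y - a i| ^ (S / N i + 1) := by
        have g1 : ∏ i, Real.exp (-t i) ^ (S / N i + 1) ≤ ∏ i, |y - a i| ^ (S / N i + 1) :=
          Finset.prod_le_prod (fun _ _ => by positivity)
            (fun i _ => pow_le_pow_left₀ (Real.exp_pos _).le (hy i) _)
        refine le_trans ?_ g1
        simp_rw [← Real.exp_nat_mul]
        rw [← Real.exp_sum]
        apply Real.exp_le_exp.mpr
        have g2 : ∀ i, -((S : ℝ) * ((1 + t i) / N i) + t i) ≤ ((S / N i + 1 : ℕ) : ℝ) * -t i := by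
          intro i
          have g3 := mul_le_mul_of_nonneg_right (hdiv i) (h1 i).2.1
          have g4 : (S : ℝ) / N i * t i ≤ S * ((1 + t i) / N i) := by
            rw [div_mul_eq_mul_div, ← mul_div_assoc]
            apply div_le_div_of_nonneg_right _ (hNpos i).le
            nlinarith
          nlinarith
        refine le_trans ?_ (Finset.sum_le_sum (fun i _ => g2 i))
        rw [Finset.sum_neg_distrib, Finset.sum_add_distrib, ← Finset.mul_sum]
        have g5 := mul_le_mul_of_nonneg_left (h3.le.trans hκ) hS0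
        linarith
      calc Real.exp (-(3 * S + (2 * J + ∑ i, t i + 1)))
          ≤ Real.exp (-(2 * S)) * Real.exp (-(S + ∑ i, t i)) := by
            rw [← Real.exp_add]
            apply Real.exp_le_exp.mpr
            linarith
        _ ≤ _ := mul_le_mul e1 e2 (Real.exp_pos _).le (by positivity)

theorem II_dens {f : ℝ → ℝ} (hf : Integrable f m01) (hf0 : 0 ≤ᵐ[m01] f) (q : ℝ[X]) :
    II (dens_UMeas hf) q = ∫ x, f x * q.eval x ∂m01 := dens_integral hf hf0 _

theorem mono_dens {f : ℝ → ℝ} (hf : Integrable f m01) (hf0 : 0 ≤ᵐ[m01] f) {E : Set ℝ}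
    (hE : ∀ᵐ x ∂m01, f x ≠ 0 → x ∈ E) : Mono (II (dens_UMeas hf)) E := by
  intro p q hpq
  rw [II_dens hf hf0, II_dens hf hf0]
  apply integral_mono_ae (integrable_mul_poly hf p) (integrable_mul_poly hf q)
  filter_upwards [hf0, hE] with x hx hx'
  by_cases h : f x = 0
  · rw [h, zero_mul, zero_mul]
  · exact mul_le_mul_of_nonneg_left (hpq x (hx' h)) hx

theorem low_dens {f : ℝ → ℝ} (hf : Integrable f m01) (hf0 : 0 ≤ᵐ[m01] f) {ρ : ℝ} (hρ : ρ ≤ 1)
    (h1 : ∀ᵐ x ∂m01, x ≤ ρ → 1 ≤ f x) (q : ℝ[X]) :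
    ∫ x in Icc 0 ρ, q.eval x ^ 2 ≤ II (dens_UMeas hf) (q * q) := by
  rw [II_dens hf hf0]
  have e2 : m01.restrict (Icc (0 : ℝ) ρ) = volume.restrict (Icc (0 : ℝ) ρ) := by
    unfold m01
    rw [Measure.restrict_restrict measurableSet_Icc,
      inter_eq_self_of_subset_left (Icc_subset_Icc_right hρ)]
  rw [← e2, ← integral_indicator measurableSet_Icc]
  apply integral_mono_ae _ (integrable_mul_poly hf _)
  · filter_upwards [hf0, h1] with x hx hx'
    rw [eval_mul, ← sq]
    by_cases h : x ∈ Icc (0 : ℝ) ρ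
    · rw [indicator_of_mem h]
      exact le_mul_of_one_le_left (sq_nonneg _) (hx' h.2)
    · rw [indicator_of_notMem h]
      exact mul_nonneg hx (sq_nonneg _)
  · apply Integrable.indicator _ measurableSet_Icc
    have := integrable_mul_poly (integrable_const (1 : ℝ)) (q * q)
    simpa only [one_mul, eval_mul, sq] using this

end Pool.Agent.H142Z.Clt
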