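import Pool.Agent.H142Z.CltG

set_option autoImplicit false
open MeasureTheory ProbabilityTheory Filter Topology Set Polynomial
open scoped ENNReal NNReal

namespace Pool.Agent.H142Z.Clt
open Pool.Agent.Helper553.Orth

variable {m : ℕ} {y : Fin m → ℝ} {d : ℝ} {L : ℝ[X] →ₗ[ℝ] ℝ} {E : Set ℝ}

theorem exp_neg_le_eighth {lam : ℝ} (hlam : 3 ≤ lam) : Real.exp (-lam) ≤ 1 / 8 := by
  have g1 : Real.exp (-lam) ≤ Real.exp (-3) := Real.exp_le_exp.mpr (by linarith)
  refine g1.trans ?_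
  rw [Real.exp_neg, one_div]
  apply inv_anti₀ (by norm_num)
  have g2 := Real.exp_one_gt_d9
  have g3 : (2.7 : ℝ) ^ 3 ≤ Real.exp 1 ^ 3 := pow_le_pow_left₀ (by norm_num) (by linarith) 3
  rw [← Real.exp_nat_mul] at g3
  norm_num at g3 ⊢
  linarith

theorem unit_bound {lam : ℝ} (hlam : 3 ≤ lam) (hd : 0 < d) (hy4 : ∀ k, 1 / 4 ≤ y k)
    (hlow : ∀ q : ℝ[X], ∫ x in Icc 0 (Real.exp (-lam)), q.eval x ^ 2 ≤ L (q * q))
    {q : ℝ[X]} {i : ℕ} (hq : q.natDegree ≤ i) {B : ℝ} (hB : 0 ≤ B)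
    (hn : L (WW y d * q * (WW y d * q)) ≤ B ^ 2) :
    LB (fun x => q.eval x) (B * Real.exp (5 * m + (lam + 5) * (i + 1))) ∧
      |q.coeff i| ≤ B * Real.exp (5 * m + (lam + 5) * (i + 1)) := by
  have hρ := exp_neg_le_eighth hlam
  have hW : ∀ x ∈ Icc 0 (Real.exp (-lam)), 1 ≤ Real.exp (5 * m) * |(WW y d).eval x| := by
    intro x hx
    have h1 : ∏ _k : Fin m, Real.exp (-5) ≤ |(WW y d).eval x| := by
      unfold WW
      rw [eval_prod, Finset.abs_prod]
      apply Finset.prod_le_prod (fun _ _ => (Real.exp_pos _).le)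
      intro k _
      rw [eval_qq, abs_mul]
      have d1 : 1 / 8 ≤ |x - y k| := by rw [le_abs]; right; linarith [hx.2, hy4 k]
      have d2 : 1 / 8 ≤ |x - (y k + d)| := by rw [le_abs]; right; linarith [hx.2, hy4 k]
      have d3 : Real.exp (-5) ≤ 1 / 8 * (1 / 8) := by
        rw [Real.exp_neg, show (1 : ℝ) / 8 * (1 / 8) = 64⁻¹ by norm_num]
        apply inv_anti₀ (by norm_num)
        have g2 := Real.exp_one_gt_d9
        have g3 : (2.7 : ℝ) ^ 5 ≤ Real.exp 1 ^ 5 := pow_le_pow_left₀ (by norm_num) (by linarith) 5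
        rw [← Real.exp_nat_mul] at g3
        norm_num at g3 ⊢
        linarith
      exact d3.trans (mul_le_mul d1 d2 (by norm_num) (abs_nonneg _))
    rw [Finset.prod_const, Finset.card_univ, Fintype.card_fin, ← Real.exp_nat_mul] at h1
    calc (1 : ℝ) = Real.exp (5 * m) * Real.exp (m * -5) := by
          rw [← Real.exp_add, show 5 * (m : ℝ) + m * -5 = 0 by ring, Real.exp_zero]
      _ ≤ _ := mul_le_mul_of_nonneg_left h1 (Real.exp_pos _).le
  have h1 : ∫ x in Icc 0 (Real.exp (-lam)), q.eval x ^ 2 ≤ (B * Real.exp (5 * m)) ^ 2 := by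
    calc ∫ x in Icc 0 (Real.exp (-lam)), q.eval x ^ 2
        ≤ ∫ x in Icc 0 (Real.exp (-lam)), Real.exp (5 * m) ^ 2 * (WW y d * q).eval x ^ 2 := by
          apply setIntegral_mono_on
          · exact (q.continuous.pow 2).continuousOn.integrableOn_Icc
          · exact (continuous_const.mul ((WW y d * q).continuous.pow 2)).continuousOn.integrableOn_Icc
          · exact measurableSet_Icc
          · intro x hx
            have h2 : 1 ≤ (Real.exp (5 * m) * |(WW y d).eval x|) ^ 2 := one_le_pow₀ (hW x hx)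
            rw [mul_pow, sq_abs] at h2
            rw [eval_mul, mul_pow, ← mul_assoc]
            exact le_mul_of_one_le_left (sq_nonneg _) h2
      _ ≤ Real.exp (5 * m) ^ 2 * B ^ 2 := by
          rw [integral_const_mul]
          exact mul_le_mul_of_nonneg_left ((hlow _).trans hn) (sq_nonneg _)
      _ = _ := by ring
  have h2 := lagrange_bound hq (Real.exp_pos _) (by linarith) (by positivity) h1
  have e : B * Real.exp (5 * m) * (Real.exp 5 / Real.exp (-lam)) ^ (i + 1) =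
      B * Real.exp (5 * m + (lam + 5) * (i + 1)) := by
    rw [← Real.exp_sub, ← Real.exp_nat_mul, mul_assoc, ← Real.exp_add]
    congr 2
    push_cast
    ring
  rw [e] at h2
  exact h2

theorem select {lam κ C0 M0 β Lc : ℝ} {S0 S : ℕ} (hm : 1 ≤ m) (hlam : 3 ≤ lam) (hd : 0 < d)
    (hy4 : ∀ k, 1 / 4 ≤ y k) (hy : ∀ k, 0 ≤ y k - d ∧ y k + 2 * d ≤ 1)
    (hM : Mono L E) (hE : ∀ x ∈ E, x ∈ Icc (0 : ℝ) 1) (hM0 : L 1 ≤ M0)
    (hlow : ∀ q : ℝ[X], ∫ x in Icc 0 (Real.exp (-lam)), q.eval x ^ 2 ≤ L (q * q))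
    (hcomp : ∀ s : ℕ, C0 ≤ s → ∃ (F : ℝ[X]) (S : ℕ), F.natDegree ≤ s ∧ (1 - κ) * s - C0 ≤ S ∧
      (∀ x ∈ E, |F.eval x| ≤ Real.exp (-lam) ^ S) ∧
      ∀ k, Real.exp (-(3 * S + C0)) ≤ |F.eval (y k)|)
    (hC0 : C0 ≤ S0) (hS : S0 ≤ S) (hβ0 : 0 ≤ β) (hβ1 : β ≤ 1) (hLc : 1 ≤ Lc)
    (hlt : (1 - β) * (S + 2 * (5 * m + (lam + 5) * (S + 1)) + M0) + β * Lc * S <
      2 * ((lam - 3) * ((1 - κ) * S - C0)) - 2 * C0 - M0 - 2 * (5 * m + (lam + 5) * (S0 + 1))) :
    ∃ (s : ℕ) (p : ℕ → ℝ[X]) (ψ : Fin m → ℝ[X]) (A : Finset (Fin m)), S0 ≤ s ∧ s ≤ S ∧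
      (∀ j, (p j).natDegree = j) ∧ (∀ k, (ψ k).natDegree ≤ s) ∧
      (∀ j k, L (WW y d * p j * (WW y d * p k)) = if j = k then 1 else 0) ∧
      (∀ k, L (WW y d * ψ k * (WW y d * ψ k)) ≤ 1) ∧
      (∀ j ≤ s, LB (fun x => (p j).eval x) (Real.exp (5 * m + (lam + 5) * (s + 1)))) ∧
      (∀ k, LB (fun x => (ψ k).eval x) (Real.exp (5 * m + (lam + 5) * (s + 1)))) ∧
      (m : ℝ) ≤ A.card + β * m ∧
      (∀ k ∈ A, ψ k = p s ∧ Lc * KK p s (y k) ≤ (p s).eval (y k) ^ 2) ∧
      ∀ k, Real.exp ((lam - 3) * ((1 - κ) * s - C0) - C0 - M0 / 2 - 1 / 2) ≤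
        |(ψ k).eval (y k)| := by
  classical
  set LW : ℝ[X] →ₗ[ℝ] ℝ := L.comp (LinearMap.mulLeft ℝ (WW y d * WW y d)) with hLW
  have hLWa : ∀ f g : ℝ[X], LW (f * g) = L (WW y d * f * (WW y d * g)) := by
    intro f g
    show L (WW y d * WW y d * (f * g)) = _
    congr 1; ring
  have hpos : PosF LW := by
    intro q hq
    by_contra hcon
    push Not at hcon
    rw [hLWa] at hcon
    have h1 := (unit_bound hlam hd hy4 hlow (le_refl q.natDegree) (le_refl 0)
      (by simpa using hcon)).2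
    rw [zero_mul] at h1
    exact hq (leadingCoeff_eq_zero.mp (abs_eq_zero.mp (le_antisymm h1 (abs_nonneg _))))
  obtain ⟨p, hp⟩ := exists_ONP hpos
  have hub : ∀ (q : ℝ[X]) (i : ℕ), q.natDegree ≤ i → LW (q * q) ≤ 1 →
      LB (fun x => q.eval x) (Real.exp (5 * m + (lam + 5) * (i + 1))) ∧
        |q.coeff i| ≤ Real.exp (5 * m + (lam + 5) * (i + 1)) := by
    intro q i hq hn
    have := unit_bound hlam hd hy4 hlow hq zero_le_one (by rw [← hLWa]; simpa using hn)
    simpa only [one_mul] using this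
  have hp1 : ∀ j, LW (p j * p j) = 1 := fun j => by rw [hp.orth, if_pos rfl]
  have hWle : ∀ x ∈ E, (WW y d).eval x ^ 2 ≤ 1 := by
    intro x hx
    rw [← sq_abs]
    exact pow_le_one₀ (abs_nonneg _) (prod_qq_le hd hy Finset.univ (hE x hx))
  have hy01 : ∀ k, y k ∈ Icc (0 : ℝ) 1 := fun k => ⟨by linarith [hy4 k], by linarith [(hy k).2]⟩
  have hM0e : M0 ≤ Real.exp M0 := by linarith [Real.add_one_le_exp M0]
  have hKlow : ∀ s : ℕ, C0 ≤ s → ∀ k,
      Real.exp (2 * ((lam - 3) * ((1 - κ) * s - C0)) - 2 * C0 - M0) ≤ KK p (s + 1) (y k) := by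
    intro s hs k
    obtain ⟨F, S', h1, h2, h3, h4⟩ := hcomp s hs
    have h5 := hp.extremal h1 (y k)
    have h6 : LW (F * F) ≤ (Real.exp (-lam) ^ S') ^ 2 * Real.exp M0 := by
      rw [hLWa]
      have h7 := hM (WW y d * F * (WW y d * F)) (((Real.exp (-lam) ^ S') ^ 2) • (1 : ℝ[X])) (by
        intro x hx
        simp only [eval_mul, eval_smul, eval_one, smul_eq_mul, mul_one]
        have e1 : F.eval x ^ 2 ≤ (Real.exp (-lam) ^ S') ^ 2 := by
          rw [← sq_abs]; exact pow_le_pow_left₀ (abs_nonneg _) (h3 x hx) 2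
        have e2 := mul_le_mul (hWle x hx) e1 (sq_nonneg _) zero_le_one
        nlinarith)
      rw [map_smul, smul_eq_mul] at h7
      exact h7.trans (mul_le_mul_of_nonneg_left (hM0.trans hM0e) (sq_nonneg _))
    have h7 : Real.exp (-(3 * S' + C0)) ^ 2 ≤ F.eval (y k) ^ 2 := by
      rw [← sq_abs (F.eval (y k))]; exact pow_le_pow_left₀ (Real.exp_pos _).le (h4 k) 2
    have h8 := h7.trans (h5.trans (mul_le_mul_of_nonneg_right h6 (KK_nonneg _ _ _)))
    have e1 : Real.exp (-(3 * S' + C0)) ^ 2 = (Real.exp (-lam) ^ S') ^ 2 * Real.exp M0 *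
        Real.exp (2 * ((lam - 3) * S') - 2 * C0 - M0) := by
      rw [← Real.exp_nat_mul, ← Real.exp_nat_mul, ← Real.exp_nat_mul, ← Real.exp_add,
        ← Real.exp_add]
      congr 1
      push_cast
      ring
    rw [e1] at h8
    refine le_trans (Real.exp_le_exp.mpr ?_) (le_of_mul_le_mul_left h8 (by positivity))
    have := mul_le_mul_of_nonneg_left h2 (by linarith : 0 ≤ lam - 3)
    linarith
  have hKup : ∀ i k, KK p (i + 1) (y k) ≤ Real.exp (2 * (5 * m + (lam + 5) * (i + 1))) := by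
    intro i k
    obtain ⟨q, h1, h2, h3⟩ := hp.kernel i (y k)
    have h4 := (hub q i h1 h2.le).1.1 (y k) (hy01 k)
    rw [← h3, ← sq_abs]
    refine (pow_le_pow_left₀ (abs_nonneg _) h4 2).trans (le_of_eq ?_)
    rw [← Real.exp_nat_mul]; norm_num
  have hrat : ∀ i k, (p i).leadingCoeff ≤ (p (i + 1)).leadingCoeff ∧ KK p (i + 2) (y k) ≤
      2 * ((p (i + 1)).leadingCoeff / (p i).leadingCoeff) ^ 2 * KK p (i + 1) (y k) := by
    intro i k
    apply hp.ratio
    rw [← hp1 i, hLWa, hLWa]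
    apply hM
    intro x hx
    simp only [eval_mul, eval_sub, eval_X, eval_C]
    have e1 : (x - y k) ^ 2 ≤ 1 := by
      rw [← sq_abs]
      apply pow_le_one₀ (abs_nonneg _)
      rw [abs_le]; constructor <;> linarith [(hE x hx).1, (hE x hx).2, (hy01 k).1, (hy01 k).2]
    have e2 := mul_le_mul_of_nonneg_right e1 (sq_nonneg ((WW y d).eval x * (p i).eval x))
    nlinarith
  have hlog2 : 0 ≤ Real.log 2 ∧ Real.log 2 ≤ 1 := by
    constructor <;> linarith [Real.log_two_gt_d9, Real.log_two_lt_d9]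
  obtain ⟨i, hi1, hi2, hi3⟩ := tele (m := m) hm hS (fun i k => Real.log (KK p (i + 1) (y k)))
    (fun i => Real.log 2 + 2 * (Real.log (p (i + 1)).leadingCoeff - Real.log (p i).leadingCoeff))
    (U := S + 2 * (5 * m + (lam + 5) * (S + 1)) + M0) (β := β) (L := Lc)
    (A := 2 * ((lam - 3) * ((1 - κ) * S - C0)) - 2 * C0 - M0 - 2 * (5 * m + (lam + 5) * (S0 + 1)))
    (by
      intro i k
      have h1 := Real.log_le_log (hp.KK_pos (i + 1) (y k)) (hrat i k).2
      have g0 := hp.lc i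
      have g1 := hp.lc (i + 1)
      rw [Real.log_mul (by positivity) (hp.KK_pos i (y k)).ne', Real.log_mul (by norm_num)
        (by positivity), Real.log_pow, Real.log_div g1.ne' g0.ne'] at h1
      push_cast at h1
      linarith)
    (by
      intro i
      have h1 := Real.log_le_log (hp.lc i) (hrat i ⟨0, hm⟩).1
      linarith [hlog2.1])
    (by
      rw [Finset.sum_add_distrib, ← Finset.mul_sum,
        Finset.sum_range_sub (fun i => Real.log (p i).leadingCoeff), Finset.sum_const,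
        Finset.card_range, nsmul_eq_mul]
      have h1 : Real.log (p S).leadingCoeff ≤ 5 * m + (lam + 5) * (S + 1) := by
        rw [Real.log_le_iff_le_exp (hp.lc S)]
        have h2 := (hub (p S) S (hp.deg S).le (hp1 S).le).2
        rw [leadingCoeff, hp.deg]
        exact (le_abs_self _).trans h2
      have h2 : -M0 ≤ 2 * Real.log (p 0).leadingCoeff := by
        have g0 := hp.lc 0
        have h3 := hp1 0
        rw [hLWa] at h3
        have h4 := hM (WW y d * p 0 * (WW y d * p 0)) (((p 0).leadingCoeff ^ 2) • (1 : ℝ[X])) (by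
          intro x hx
          have e : (p 0).eval x = (p 0).leadingCoeff := by
            conv_lhs => rw [hp.zero_eq, eval_C]
          simp only [eval_mul, eval_smul, eval_one, smul_eq_mul, mul_one, e]
          have e2 := mul_le_mul_of_nonneg_right (hWle x hx) (sq_nonneg (p 0).leadingCoeff)
          nlinarith)
        rw [map_smul, smul_eq_mul, h3] at h4
        have h5 := h4.trans (mul_le_mul_of_nonneg_left (hM0.trans hM0e) (sq_nonneg _))
        have h6 := Real.log_le_log one_pos h5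
        rw [Real.log_one, Real.log_mul (by positivity) (Real.exp_pos _).ne', Real.log_exp,
          Real.log_pow] at h6
        push_cast at h6
        linarith
      have h3 : (S : ℝ) * Real.log 2 ≤ S := mul_le_of_le_one_right (Nat.cast_nonneg _) hlog2.2
      linarith)
    (by
      intro k
      have h1 := Real.log_le_log (Real.exp_pos _)
        (hKlow S (hC0.trans (by exact_mod_cast hS)) k)
      have h2 := Real.log_le_log (hp.KK_pos S0 (y k)) (hKup S0 k)
      rw [Real.log_exp] at h1 h2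
      linarith) hβ0 hβ1 (by linarith) hlt
  set Bad := Finset.univ.filter (fun k => Real.log (KK p (i + 1 + 1) (y k)) -
    Real.log (KK p (i + 1) (y k)) < Lc) with hBad
  have hker := fun k => hp.kernel (i + 1) (y k)
  choose r hr1 hr2 hr3 using hker
  have hgood : ∀ k ∈ Finset.univ \ Bad, Lc * KK p (i + 1) (y k) ≤ (p (i + 1)).eval (y k) ^ 2 := by
    intro k hk
    have h1 : Lc ≤ Real.log (KK p (i + 1 + 1) (y k)) - Real.log (KK p (i + 1) (y k)) := by
      by_contra h2
      push Not at h2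
      exact (Finset.mem_sdiff.mp hk).2 (Finset.mem_filter.mpr ⟨Finset.mem_univ _, h2⟩)
    have g0 := hp.KK_pos i (y k)
    have g1 := hp.KK_pos (i + 1) (y k)
    rw [← Real.log_div g1.ne' g0.ne', Real.le_log_iff_exp_le (by positivity),
      le_div_iff₀ g0, KK_succ p (i + 1)] at h1
    have h3 := mul_le_mul_of_nonneg_right (Real.add_one_le_exp Lc) g0.le
    linarith
  have hψ : ∀ k, (if k ∈ Finset.univ \ Bad then p (i + 1) else r k).natDegree ≤ i + 1 ∧
      LW ((if k ∈ Finset.univ \ Bad then p (i + 1) else r k) *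
        (if k ∈ Finset.univ \ Bad then p (i + 1) else r k)) ≤ 1 ∧
      KK p (i + 1 + 1) (y k) / 2 ≤
        (if k ∈ Finset.univ \ Bad then p (i + 1) else r k).eval (y k) ^ 2 := by
    intro k
    split_ifs with hk
    · refine ⟨(hp.deg _).le, (hp1 _).le, ?_⟩
      have h1 := hgood k hk
      have h2 := mul_le_mul_of_nonneg_right hLc (KK_nonneg p (i + 1) (y k))
      rw [KK_succ p (i + 1)]
      linarith
    · refine ⟨hr1 k, (hr2 k).le, ?_⟩
      rw [hr3 k]
      linarith [KK_nonneg p (i + 1 + 1) (y k)]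
  refine ⟨i + 1, p, fun k => if k ∈ Finset.univ \ Bad then p (i + 1) else r k, Finset.univ \ Bad,
    by omega, by omega, hp.deg, fun k => (hψ k).1, fun j k => by rw [← hLWa]; exact hp.orth j k,
    fun k => by rw [← hLWa]; exact (hψ k).2.1,
    fun j hj => (hub (p j) (i + 1) ((hp.deg j).le.trans hj) (hp1 j).le).1,
    fun k => (hub _ (i + 1) (hψ k).1 (hψ k).2.1).1, ?_,
    fun k hk => ⟨if_pos hk, hgood k hk⟩, ?_⟩
  · have h1 := Finset.card_le_card_sdiff_add_card (s := (Finset.univ : Finset (Fin m))) (t := Bad)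
    rw [Finset.card_univ, Fintype.card_fin] at h1
    have h2 : (m : ℝ) ≤ (Finset.univ \ Bad).card + Bad.card := by exact_mod_cast h1
    linarith
  · intro k
    have h1 := hKlow (i + 1) (hC0.trans (by exact_mod_cast (by omega : S0 ≤ i + 1))) k
    apply le_of_sq_le_sq _ (abs_nonneg _) |>.trans le_rfl
    rw [sq_abs]
    refine le_trans ?_ (hψ k).2.2
    rw [← Real.exp_nat_mul]
    have e : ((2 : ℕ) : ℝ) * ((lam - 3) * ((1 - κ) * ((i + 1 : ℕ) : ℝ) - C0) - C0 - M0 / 2 - 1 / 2) =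
        (2 * ((lam - 3) * ((1 - κ) * ((i + 1 : ℕ) : ℝ) - C0)) - 2 * C0 - M0) + -1 := by
      push_cast; ring
    rw [e, Real.exp_add]
    have h2 : Real.exp (-1) ≤ 1 / 2 := by
      rw [Real.exp_neg, one_div]
      apply inv_anti₀ (by norm_num)
      linarith [Real.exp_one_gt_d9]
    have h3 := mul_le_mul h1 h2 (Real.exp_pos _).le (KK_nonneg _ _ _)
    linarith

end Pool.Agent.H142Z.Clt
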