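import Pool.Agent.H142Z.CltH

set_option autoImplicit false
open MeasureTheory ProbabilityTheory Filter Topology Set Polynomial
open scoped ENNReal NNReal

namespace Pool.Agent.H142Z.Clt
open Pool.Agent.Helper553.Orth

/-- Densities carried by a thin set and at least one on the initial interval. -/
def DD (lam κ : ℝ) (f : ℝ → ℝ) : Prop :=
  ∃ E : Set ℝ, Thin lam κ E ∧ (∀ᵐ x ∂m01, f x ≠ 0 → x ∈ E) ∧
    ∀ᵐ x ∂m01, x ≤ Real.exp (-lam) → 1 ≤ f x

/-- Adding bumps. -/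
noncomputable def GG {κ : Type} [Fintype κ] (f : ℝ → ℝ) (w a : κ → ℝ) (h : ℝ) : ℝ → ℝ :=
  fun x => f x + ∑ k, w k * bump (a k) h x

theorem add_bumps {lam κ0 : ℝ} (hlam : 0 < lam) {f : ℝ → ℝ} (hf : Integrable f m01)
    (hf0 : 0 ≤ᵐ[m01] f) (hD : DD lam κ0 f) {κ ι : Type} [Fintype κ]
    [Fintype ι] (a : κ → ℝ) (ha : ∀ i, 0 ≤ a i ∧ a i < 1) (w : κ → ℝ) (hw : ∀ i, 0 ≤ w i)
    (P : ι → ι → ℝ[X]) (T : ι → ι → ℝ) (β : ℝ)
    (hclose : ∀ i j, |∫ x, f x * (P i j).eval x ∂m01 + ∑ k, w k * (P i j).eval (a k) - T i j| < β)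
    {h0 : ℝ} (hh0 : 0 < h0) :
    ∃ h : ℝ, 0 < h ∧ h ≤ h0 ∧ (∀ k, a k + h ≤ 1) ∧ Integrable (GG f w a h) m01 ∧
      0 ≤ᵐ[m01] GG f w a h ∧ DD lam κ0 (GG f w a h) ∧
      ∫ x, |GG f w a h x - f x| ∂m01 ≤ ∑ k, w k ∧
      ∀ i j, |∫ x, GG f w a h x * (P i j).eval x ∂m01 - T i j| < β := by
  obtain ⟨E, hE1, hE2, hE3⟩ := hD
  obtain ⟨h1, hh1, hthin⟩ := hE1.add hlam a (fun i => ⟨(ha i).1, (ha i).2.le⟩)
  have hGint : ∀ h, Integrable (GG f w a h) m01 := by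
    intro h
    exact hf.add (integrable_finsetSum _ (fun k _ => (bump_integrable (a k) h).const_mul _))
  have hval : ∀ h (p : ℝ[X]), ∫ x, GG f w a h x * p.eval x ∂m01 =
      ∫ x, f x * p.eval x ∂m01 + ∑ k, w k * ∫ x, bump (a k) h x * p.eval x ∂m01 := by
    intro h p
    have e1 : ∀ x, GG f w a h x * p.eval x =
        f x * p.eval x + ∑ k, w k * (bump (a k) h x * p.eval x) := by
      intro x
      simp only [GG]
      rw [add_mul, Finset.sum_mul]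
      congr 1
      apply Finset.sum_congr rfl
      intro k _
      ring
    simp_rw [e1]
    rw [integral_add (integrable_mul_poly hf p) (integrable_finsetSum _
      (fun k _ => (integrable_mul_poly (bump_integrable (a k) h) p).const_mul _)),
      integral_finsetSum _ (fun k _ => (integrable_mul_poly (bump_integrable (a k) h) p).const_mul _)]
    congr 1
    apply Finset.sum_congr rfl
    intro k _
    rw [integral_const_mul]
  have hlim : ∀ i j, ∀ᶠ h in 𝓝[>] (0 : ℝ),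
      |∫ x, GG f w a h x * (P i j).eval x ∂m01 - T i j| < β := by
    intro i j
    have ht : Tendsto (fun h => |∫ x, GG f w a h x * (P i j).eval x ∂m01 - T i j|) (𝓝[>] 0)
        (𝓝 |∫ x, f x * (P i j).eval x ∂m01 + ∑ k, w k * (P i j).eval (a k) - T i j|) := by
      simp_rw [hval]
      apply Tendsto.abs
      apply Tendsto.sub_const
      apply Tendsto.const_add
      apply tendsto_finsetSum
      intro k _
      exact (bump_tendsto (ha k).1 (ha k).2 (P i j)).const_mul _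
    exact ht.eventually (gt_mem_nhds (hclose i j))
  have hlim' : ∀ᶠ h in 𝓝[>] (0 : ℝ), ∀ i j,
      |∫ x, GG f w a h x * (P i j).eval x ∂m01 - T i j| < β := by
    rw [eventually_all]; intro i
    rw [eventually_all]; intro j
    exact hlim i j
  have hsmall : ∀ᶠ h in 𝓝[>] (0 : ℝ), ∀ k, a k + h ≤ 1 := by
    rw [eventually_all]; intro k
    have : ∀ᶠ h in 𝓝 (0 : ℝ), a k + h < 1 := by
      have h1 : Tendsto (fun h : ℝ => a k + h) (𝓝 0) (𝓝 (a k + 0)) :=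
        tendsto_const_nhds.add tendsto_id
      rw [add_zero] at h1
      exact h1.eventually (gt_mem_nhds (ha k).2)
    exact (this.filter_mono nhdsWithin_le_nhds).mono (fun h hh => hh.le)
  have hpos : ∀ᶠ h in 𝓝[>] (0 : ℝ), 0 < h := eventually_mem_nhdsWithin
  have hlt : ∀ᶠ h in 𝓝[>] (0 : ℝ), h < min h0 h1 :=
    (gt_mem_nhds (lt_min hh0 hh1) : ∀ᶠ h in 𝓝 (0 : ℝ), h < min h0 h1).filter_mono
      nhdsWithin_le_nhds
  obtain ⟨h, g1, g2, g3, g4⟩ := (hlim'.and (hsmall.and (hpos.and hlt))).exists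
  have hs0 : ∀ x, 0 ≤ ∑ k, w k * bump (a k) h x := fun x =>
    Finset.sum_nonneg (fun k _ => mul_nonneg (hw k) (bump_nonneg g3 x))
  refine ⟨h, g3, g4.le.trans (min_le_left _ _), g2, hGint h, ?_,
    ⟨_, hthin h (g4.le.trans (min_le_right _ _)) g2, ?_, ?_⟩, ?_, g1⟩
  · filter_upwards [hf0] with x hx
    exact add_nonneg hx (hs0 x)
  · filter_upwards [hE2] with x hx hne
    by_cases h5 : f x = 0
    · right
      by_contra h6
      apply hne
      unfold GG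
      rw [h5, zero_add]
      apply Finset.sum_eq_zero
      intro k _
      have : bump (a k) h x = 0 := indicator_of_notMem (fun h7 => h6 (mem_iUnion.mpr ⟨k, h7⟩)) _
      rw [this, mul_zero]
    · exact Or.inl (hx h5)
  · filter_upwards [hE3] with x hx hx'
    exact (hx hx').trans (le_add_of_nonneg_right (hs0 x))
  · have e1 : ∀ x, |GG f w a h x - f x| = ∑ k, w k * bump (a k) h x := by
      intro x
      simp only [GG]
      rw [add_sub_cancel_left, abs_of_nonneg (hs0 x)]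
    simp_rw [e1]
    rw [integral_finsetSum _ (fun k _ => (bump_integrable (a k) h).const_mul _)]
    apply le_of_eq
    apply Finset.sum_congr rfl
    intro k _
    rw [integral_const_mul, bump_integral (ha k).1 g3 (g2 k), mul_one]

theorem exp_ge (n : ℕ) {c : ℝ} (h : c ≤ 2.7 ^ n) : c ≤ Real.exp n := by
  have g2 := Real.exp_one_gt_d9
  have g3 : (2.7 : ℝ) ^ n ≤ Real.exp 1 ^ n := pow_le_pow_left₀ (by norm_num) (by linarith) n
  rw [← Real.exp_nat_mul, mul_one] at g3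
  linarith

theorem num1 {lam κ β x S T m M Lc C0 M0 : ℝ} (hκS : κ * S = T) (hlT : lam * T = x * S)
    (hβ : β = 6 * κ) (hm : m = M * S) (hTS : T ≤ S) (hβ0 : 0 ≤ β) (hβ1 : β ≤ 1)
    (hx : x = 50 * M + Lc + 30) (hC : 4 * lam + 20 + 2 * M0 + 2 * (lam * C0) ≤ S) (hS : 0 < S)
    (hlam : 3 ≤ lam) (hLc : 0 ≤ Lc) (hM : 0 ≤ M) (hC0 : 0 ≤ C0) (hM0 : 0 ≤ M0) :
    (1 - β) * (S + 2 * (5 * m + (lam + 5) * (S + 1)) + M0) + β * Lc * S <
      2 * ((lam - 3) * ((1 - κ) * S - C0)) - 2 * C0 - M0 -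
        2 * (5 * m + (lam + 5) * (4 * T + 1)) := by
  have hm0 : 0 ≤ m := by rw [hm]; positivity
  have e1 : β * (lam * S) = 6 * (x * S) := by
    rw [hβ, ← hlT, ← hκS]; ring
  have e2 : (1 - β) * (S + 2 * (5 * m + (lam + 5) * (S + 1)) + M0) =
      2 * (lam * S) - 2 * (β * (lam * S)) + (1 - β) * (11 * S + 10 * m + 2 * lam + 10 + M0) := by
    ring
  have e3 : (1 - β) * (11 * S + 10 * m + 2 * lam + 10 + M0) ≤
      11 * S + 10 * m + 2 * lam + 10 + M0 :=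
    mul_le_of_le_one_left (by positivity) (by linarith)
  have e4 : β * Lc * S ≤ Lc * S := by
    rw [mul_assoc]; exact mul_le_of_le_one_left (by positivity) hβ1
  have e5 : (lam - 3) * ((1 - κ) * S - C0) =
      lam * S - lam * T - lam * C0 - 3 * S + 3 * T + 3 * C0 := by
    rw [← hκS]; ring
  have e6 : (lam + 5) * (4 * T + 1) = 4 * (lam * T) + lam + 20 * T + 5 := by ring
  have e7 : x * S = 50 * m + Lc * S + 30 * S := by rw [hx, hm]; ring
  have e8 : 0 ≤ Lc * S := by positivity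
  rw [e2, e1, e5, e6, hlT]
  linarith

theorem num2 {lam κ x S s m B0 C0 M0 c : ℝ} (hlκ : lam * κ = x) (hκ : 0 ≤ κ) (hx : 0 ≤ x)
    (hs0 : 0 ≤ s) (hs : s ≤ S) (hc : c = x * S + 17 * m + 9 * S)
    (hC : lam + 13 + B0 + lam * C0 + M0 ≤ S) (hC0 : 0 ≤ C0) (hM0 : 0 ≤ M0) :
    6 + -c + (2 * m + (5 * m + (lam + 5) * (s + 1))) + (B0 + (2 * m + 1)) ≤
      -(8 * m) + ((lam - 3) * ((1 - κ) * s - C0) - C0 - M0 / 2 - 1 / 2) := by
  have e1 : (lam - 3) * ((1 - κ) * s - C0) =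
      lam * s - x * s - 3 * s + 3 * (κ * s) - lam * C0 + 3 * C0 := by
    rw [← hlκ]; ring
  have e2 : x * s ≤ x * S := mul_le_mul_of_nonneg_left hs hx
  have e3 : 0 ≤ κ * s := by positivity
  have e4 : (lam + 5) * (s + 1) = lam * s + lam + 5 * s + 5 := by ring
  rw [e1, e4, hc]
  linarith

theorem num3 {lam κ x S T s m Lc C0 M0 c : ℝ} (hlT : lam * T = x * S) (hκ : κ ≤ 1 / 4)
    (hT0 : 0 ≤ T) (hTS : T ≤ S) (hs : 4 * T ≤ s) (hc : c = x * S + 17 * m + 9 * S)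
    (hx : x * S = 50 * m + Lc * S + 30 * S) (hLS : 0 ≤ Lc * S) (hm : 0 ≤ m)
    (hC : 2 * (lam * C0) + M0 + 4 ≤ S) (hlam : 3 ≤ lam) (hC0 : 0 ≤ C0) :
    3 + m + (4 * c - 2 * (-(8 * m) + ((lam - 3) * ((1 - κ) * s - C0) - C0 - M0 / 2 - 1 / 2))) ≤
      -S := by
  have e1 : 3 * T ≤ (1 - κ) * s := by nlinarith
  have e2 := mul_le_mul_of_nonneg_left e1 (by linarith : 0 ≤ lam - 3)
  have e3 : (lam - 3) * (3 * T) = 3 * (lam * T) - 9 * T := by ring
  have e4 : (lam - 3) * ((1 - κ) * s - C0) = (lam - 3) * ((1 - κ) * s) - lam * C0 + 3 * C0 := by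
    ring
  rw [e4, hc]
  rw [e3, hlT] at e2
  linarith

/-- The robust variance property. -/
def Good2 (c0 : ℝ) (K : ℕ) (f : ℝ → ℝ) : Prop :=
  ∃ (s m : ℕ) (φ : Unit ⊕ (Fin s ⊕ (Fin m ⊕ Fin m)) → ℝ[X]), K ≤ s + 2 * m ∧
    (∀ i, (φ i).natDegree ≤ s + 2 * m) ∧ VarGe φ (c0 * ((s : ℝ) + 2 * m) ^ 2) ∧
    ∀ i j, |∫ x, f x * (φ i * φ j).eval x ∂m01 - (if i = j then 1 else 0)| <
      1 / (8 * ((s : ℝ) + 2 * m + 1) ^ 2)

end Pool.Agent.H142Z.Clt
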