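import Pool.Agent.H142Z.CltI

set_option autoImplicit false
open MeasureTheory ProbabilityTheory Filter Topology Set Polynomial
open scoped ENNReal NNReal

namespace Pool.Agent.H142Z.Clt
open Pool.Agent.Helper553.Orth

theorem le_exp_self (x : ℝ) : x ≤ Real.exp x := by linarith [Real.add_one_le_exp x]

theorem small_aux {B0 s m : ℝ} (hB0 : 1 ≤ B0) (hm : 1 ≤ m) (hs : s ≤ m) :
    B0 + 1 + (s + m) * m ≤ Real.exp (B0 + (2 * m + 1)) := by
  have h1 := Real.add_one_le_exp B0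
  have h2 := Real.add_one_le_exp m
  have h3 : (2 : ℝ) ≤ Real.exp 1 := by linarith [Real.exp_one_gt_d9]
  have h4 : Real.exp (B0 + (2 * m + 1)) = Real.exp B0 * (Real.exp m * Real.exp m * Real.exp 1) := by
    rw [← Real.exp_add, ← Real.exp_add, ← Real.exp_add]; congr 1; ring
  have h5 : (m + 1) * (m + 1) ≤ Real.exp m * Real.exp m :=
    mul_le_mul h2 h2 (by linarith) (Real.exp_pos _).le
  have h6 : (m + 1) * (m + 1) * 2 ≤ Real.exp m * Real.exp m * Real.exp 1 :=
    mul_le_mul h5 h3 (by norm_num) (by positivity)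
  have h7 : (s + m) * m ≤ 2 * (m * m) := by nlinarith
  rw [h4]
  calc B0 + 1 + (s + m) * m ≤ (B0 + 1) * ((m + 1) * (m + 1) * 2) := by nlinarith
    _ ≤ _ := mul_le_mul h1 h6 (by positivity) (Real.exp_pos _).le

theorem stage : ∃ lam κ c0 : ℝ, 3 ≤ lam ∧ 0 < κ ∧ 0 < c0 ∧ ∀ f : ℝ → ℝ, Integrable f m01 →
    0 ≤ᵐ[m01] f → DD lam κ f → ∀ ε : ℝ, 0 < ε → ∀ K : ℕ, ∃ g : ℝ → ℝ, Integrable g m01 ∧
      0 ≤ᵐ[m01] g ∧ DD lam κ g ∧ ∫ x, |g x - f x| ∂m01 < ε ∧ Good2 c0 K g := by
  obtain ⟨pA, pb, B0, hC⟩ := exists_cst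
  have hpA := hC.hpA
  have hpb := hC.hpb
  have hB0 := hC.hB0
  obtain ⟨M, hM⟩ := exists_nat_ge (8 / pA + 1)
  obtain ⟨Q, hQ⟩ := exists_nat_ge (192 / pA + 6)
  have hM1 : (1 : ℝ) ≤ M := by have : 0 < 8 / pA := by positivity
                               linarith
  have hQ6 : (6 : ℝ) ≤ Q := by have : 0 < 192 / pA := by positivity
                               linarith
  have hMp : 8 ≤ pA * M := by
    have : 8 / pA ≤ M := by linarith
    rw [div_le_iff₀ hpA] at this; linarith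
  have hQp : 192 ≤ pA * Q := by
    have : 192 / pA ≤ Q := by linarith
    rw [div_le_iff₀ hpA] at this; linarith
  obtain ⟨Lc, hLc⟩ : ∃ Lc : ℝ, Lc = 2560000 / pA ^ 2 + 1 := ⟨_, rfl⟩
  have hLc1 : 1 ≤ Lc := by
    have : 0 < 2560000 / pA ^ 2 := by positivity
    linarith
  have hLc2 : 10000 ≤ pA ^ 2 / 256 * Lc := by
    rw [hLc]
    have e : pA ^ 2 / 256 * (2560000 / pA ^ 2 + 1) = 10000 + pA ^ 2 / 256 := by
      field_simp; ring
    rw [e]
    have : 0 < pA ^ 2 / 256 := by positivity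
    linarith
  obtain ⟨x, hx⟩ : ∃ x : ℝ, x = 50 * M + Lc + 30 := ⟨_, rfl⟩
  have hx1 : 1 ≤ x := by linarith
  obtain ⟨lam, hlam⟩ : ∃ lam : ℝ, lam = Q * x := ⟨_, rfl⟩
  obtain ⟨κ, hκ⟩ : ∃ κ : ℝ, κ = 1 / Q := ⟨_, rfl⟩
  have hlam3 : 3 ≤ lam := by
    have := mul_le_mul hQ6 hx1 zero_le_one (by linarith)
    rw [hlam]; linarith
  have hκ0 : 0 < κ := by rw [hκ]; positivity
  have hκQ : κ * Q = 1 := by rw [hκ]; field_simp
  have hκ6 : κ ≤ 1 / 6 := by
    have := mul_le_mul_of_nonneg_left hQ6 hκ0.le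
    linarith
  have hlκ : lam * κ = x := by rw [hlam, mul_comm (Q : ℝ), mul_assoc, mul_comm (Q : ℝ), hκQ, mul_one]
  have hβp : 6 * κ ≤ pA / 32 := by
    have := mul_le_mul_of_nonneg_left hQp hκ0.le
    have e : κ * (pA * Q) = pA := by rw [mul_comm pA, ← mul_assoc, hκQ, one_mul]
    linarith
  refine ⟨lam, κ, pA ^ 3 * pb / 256 / 9, hlam3, hκ0, by positivity, ?_⟩
  intro f hf hf0 hD ε hε K
  obtain ⟨E, hE1, hE2, hE3⟩ := id hD
  obtain ⟨Y, η, C0, hη, hC0, hE01, hgrid, hdist, hcomp⟩ := hE1.package hlam3 (by linarith)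
  have hMono := mono_dens hf hf0 hE2
  have hlow := low_dens hf hf0 ((exp_neg_le_eighth hlam3).trans (by norm_num)) hE3
  obtain ⟨M0, hM0⟩ : ∃ M0 : ℝ, M0 = |II (dens_UMeas hf) 1| := ⟨_, rfl⟩
  have hM00 : 0 ≤ M0 := by rw [hM0]; exact abs_nonneg _
  obtain ⟨T, hT⟩ := exists_nat_ge
    (4 * lam + 20 + B0 + 2 * M0 + 2 * (lam * C0) + C0 + 1 / ε + 1 / η + K)
  have p1 : 0 ≤ lam * C0 := by positivity
  have p2 : 0 < 1 / ε := by positivity
  have p3 : 0 < 1 / η := by positivity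
  have p4 : (0 : ℝ) ≤ K := Nat.cast_nonneg _
  obtain ⟨S, hS⟩ : ∃ S : ℕ, S = Q * T := ⟨_, rfl⟩
  obtain ⟨m, hm⟩ : ∃ m : ℕ, m = M * S := ⟨_, rfl⟩
  have hSr : (S : ℝ) = Q * T := by rw [hS]; push_cast; rfl
  have hmr : (m : ℝ) = M * S := by rw [hm]; push_cast; rfl
  have hT20 : (20 : ℝ) ≤ T := by linarith
  have hTS4 : 4 * (T : ℝ) ≤ S := by
    rw [hSr]; exact mul_le_mul_of_nonneg_right (by linarith) (Nat.cast_nonneg _)
  have hTS : (T : ℝ) ≤ S := by linarith
  have hSm : (S : ℝ) ≤ m := by rw [hmr]; exact le_mul_of_one_le_left (Nat.cast_nonneg _) hM1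
  have hm1r : (1 : ℝ) ≤ m := by linarith
  have hm1 : 1 ≤ m := by exact_mod_cast hm1r
  have hκS : κ * S = T := by rw [hSr, ← mul_assoc, hκQ, one_mul]
  have hlT : lam * T = x * S := by rw [hlam, hSr]; ring
  have hxS : x * S = 50 * m + Lc * S + 30 * S := by rw [hx, hmr]; ring
  have hLS : 0 ≤ Lc * S := by positivity
  obtain ⟨j, hj, hjk⟩ := hgrid m hm1 (by linarith)
  obtain ⟨y, hy⟩ : ∃ y : Fin m → ℝ, ∀ k, y k = 1 / 4 + j k / (4 * m) := ⟨_, fun _ => rfl⟩
  obtain ⟨c, hc⟩ : ∃ c : ℝ, c = x * S + 17 * m + 9 * S := ⟨_, rfl⟩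
  obtain ⟨d, hd⟩ : ∃ d : ℝ, d = Real.exp (-c) := ⟨_, rfl⟩
  have hd0 : 0 < d := by rw [hd]; exact Real.exp_pos _
  have master : d * (128 * (m : ℝ) ^ 2) * Real.exp S < 1 := by
    have e1 : 128 * (m : ℝ) ^ 2 ≤ Real.exp (5 : ℕ) * Real.exp m ^ 2 :=
      mul_le_mul (exp_ge 5 (by norm_num)) (pow_le_pow_left₀ (by linarith) (le_exp_self _) 2)
        (by positivity) (Real.exp_pos _).le
    calc d * (128 * (m : ℝ) ^ 2) * Real.exp S
        ≤ d * (Real.exp (5 : ℕ) * Real.exp m ^ 2) * Real.exp S := by gcongr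
      _ < 1 := by
        rw [hd, ← Real.exp_nat_mul, ← Real.exp_add, ← Real.exp_add, ← Real.exp_add,
          Real.exp_lt_one_iff]
        push_cast
        linarith
  have heS : 1 / η ≤ Real.exp S := le_trans (by linarith) (le_exp_self (S : ℝ))
  have heS1 : 1 ≤ Real.exp S := Real.one_le_exp (by linarith)
  have hmsq : (m : ℝ) ≤ (m : ℝ) ^ 2 := le_self_pow₀ hm1r two_ne_zero
  have hd128 : d * (128 * m) < 1 := by
    have e1 : d * (128 * m) ≤ d * (128 * (m : ℝ) ^ 2) :=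
      mul_le_mul_of_nonneg_left (by linarith only [hmsq]) hd0.le
    have e2 : d * (128 * (m : ℝ) ^ 2) ≤ d * (128 * (m : ℝ) ^ 2) * Real.exp S :=
      le_mul_of_one_le_right (by positivity) heS1
    linarith
  have hdη' : d / η * (128 * (m : ℝ) ^ 2) < 1 := by
    have e1 : d / η * (128 * (m : ℝ) ^ 2) = d * (128 * (m : ℝ) ^ 2) * (1 / η) := by ring
    rw [e1]
    exact lt_of_le_of_lt (mul_le_mul_of_nonneg_left heS (by positivity)) master
  have hdη : d ≤ η := by
    have e1 : d / η ≤ d / η * (128 * (m : ℝ) ^ 2) :=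
      le_mul_of_one_le_right (by positivity) (by linarith only [hmsq, hm1r])
    have e2 : d / η ≤ 1 := by linarith
    rwa [div_le_one hη] at e2
  have hd8 : d ≤ 1 / 8 := by
    have := mul_le_mul_of_nonneg_left hm1r hd0.le
    linarith only [this, hd128, hd0]
  have hdm : d ≤ 1 / (8 * m) := by
    rw [le_div_iff₀ (by positivity)]
    have : 0 ≤ d * m := by positivity
    linarith
  have hy4 : ∀ k, 1 / 4 ≤ y k := by
    intro k
    have : 0 ≤ (j k : ℝ) / (4 * m) := by positivity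
    rw [hy]; linarith
  have hy34 : ∀ k, y k ≤ 3 / 4 := by
    intro k
    have e1 : (j k : ℝ) ≤ 2 * m := by exact_mod_cast (hjk k).1.le
    have : (j k : ℝ) / (4 * m) ≤ 1 / 2 := by
      rw [div_le_iff₀ (by positivity)]; linarith
    rw [hy]; linarith
  have hyd : ∀ k, 0 ≤ y k - d ∧ y k + 2 * d ≤ 1 := fun k =>
    ⟨by linarith [hy4 k], by linarith [hy34 k]⟩
  have hyY : ∀ k, y k ∈ Y := fun k => by rw [hy]; exact (hjk k).2
  have hsep : ∀ k l, k ≠ l → 3 * d < |y k - y l| := by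
    intro k l hkl
    have hne : j k ≠ j l := fun e => hkl (hj e)
    have hD1 : 1 ≤ |(j k : ℝ) - (j l : ℝ)| := by
      rcases lt_or_gt_of_ne hne with h | h
      · have : (j k : ℝ) + 1 ≤ j l := by exact_mod_cast h
        rw [le_abs]; right; linarith
      · have : (j l : ℝ) + 1 ≤ j k := by exact_mod_cast h
        rw [le_abs]; left; linarith
    have e : y k - y l = ((j k : ℝ) - j l) / (4 * m) := by rw [hy, hy]; ring
    rw [e, abs_div, abs_of_pos (by positivity : (0 : ℝ) < 4 * m), lt_div_iff₀ (by positivity)]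
    have : 0 ≤ d * m := by positivity
    linarith
  obtain ⟨s, p, ψ, A, hs1, hs2, hpd, hψd, horth, hψn, hpL, hψL, hAc, hA, hψv⟩ :=
    select (κ := κ) (C0 := C0) (M0 := M0) (β := 6 * κ) (Lc := Lc) (S0 := 4 * T) (S := S) hm1 hlam3
      hd0 hy4 hyd hMono hE01 (by rw [hM0]; exact le_abs_self _) hlow
      (fun s hs => by
        obtain ⟨F, S', h1, h2, h3, h4⟩ := hcomp s hs
        exact ⟨F, S', h1, h2, h3, fun k => h4 _ (hyY k) (hy4 k)⟩)
      (by push_cast; linarith) (by exact_mod_cast hTS4) (by positivity) (by linarith) hLc1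
      (by
        push_cast
        exact num1 hκS hlT rfl hmr hTS (by positivity) (by linarith) hx (by linarith) (by linarith)
          hlam3 (by linarith) (by linarith) hC0 hM00)
  have hs1r : 4 * (T : ℝ) ≤ s := by exact_mod_cast hs1
  have hs2r : (s : ℝ) ≤ S := by exact_mod_cast hs2
  have hs0 : (0 : ℝ) ≤ s := Nat.cast_nonneg _
  obtain ⟨a, ha⟩ : ∃ a : ℝ, a = -(8 * m) +
    ((lam - 3) * ((1 - κ) * s - C0) - C0 - M0 / 2 - 1 / 2) := ⟨_, rfl⟩
  have hv : ∀ k, Real.exp a ≤ |(WK y d k).eval (y k) * (ψ k).eval (y k)| := by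
    intro k
    rw [ha, Real.exp_add, abs_mul]
    exact mul_le_mul (WK_lower hm1 j hj hy hd0 hdm k) (hψv k) (Real.exp_pos _).le (abs_nonneg _)
  obtain ⟨Λ, hΛ⟩ : ∃ Λ : ℝ, Λ = Real.exp (5 * m + (lam + 5) * (s + 1)) := ⟨_, rfl⟩
  rw [← hΛ] at hpL hψL
  have hΛ0 : 0 < Λ := by rw [hΛ]; exact Real.exp_pos _
  have hsmall : 400 * d * (4 ^ m * Λ) * (B0 + 1 + (s + m) * m) ≤ Real.exp a := by
    have e1 : (4 : ℝ) ^ m ≤ Real.exp (2 * m) := by
      have := pow_le_pow_left₀ (by norm_num) (exp_ge 2 (c := 4) (by norm_num)) m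
      rw [← Real.exp_nat_mul] at this
      refine this.trans (le_of_eq ?_)
      congr 1; push_cast; ring
    have e2 : (400 : ℝ) ≤ Real.exp 6 := by
      have g2 := Real.exp_one_gt_d9
      have g3 : (2.7182 : ℝ) ^ 6 ≤ Real.exp 1 ^ 6 := pow_le_pow_left₀ (by norm_num) (by linarith) 6
      rw [← Real.exp_nat_mul] at g3
      norm_num at g3 ⊢
      linarith
    have e3 := small_aux hB0 hm1r (hs2r.trans hSm)
    calc 400 * d * (4 ^ m * Λ) * (B0 + 1 + (s + m) * m)
        ≤ Real.exp 6 * d * (Real.exp (2 * m) * Λ) * Real.exp (B0 + (2 * m + 1)) := by gcongr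
      _ ≤ _ := by
        rw [hd, hΛ, ← Real.exp_add, ← Real.exp_add, ← Real.exp_add, ← Real.exp_add, ha]
        exact Real.exp_le_exp.mpr (num2 hlκ hκ0.le (by linarith) hs0 hs2r hc (by linarith) hC0 hM00)
  have hV := varge hC hm1 hd0 hyd hsep (Λ := Λ) (G := m) hm1r
    (by
      have e1 : 8 * S ≤ pA * m := by
        rw [hmr, ← mul_assoc]; exact mul_le_mul_of_nonneg_right hMp (by linarith)
      rw [mul_one_div, div_le_div_iff₀ (by positivity) (by norm_num)]
      have e2 : 24 * (m : ℝ) ≤ pA * m * m :=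
        mul_le_mul_of_nonneg_right (by linarith only [e1, hTS, hT20]) (Nat.cast_nonneg _)
      have e3 : pA * (m : ℝ) ^ 2 = pA * m * m := by ring
      rw [e3]
      linarith only [e2, hs2r, hSm])
    hpL hψL hpd hψd A
    (by
      have := mul_le_mul_of_nonneg_right hβp (by linarith : (0 : ℝ) ≤ m)
      linarith)
    (by
      have e1 : 8 * S ≤ pA * m := by
        rw [hmr, ← mul_assoc]; exact mul_le_mul_of_nonneg_right hMp (by linarith)
      linarith)
    (fun k hk => ⟨(hA k hk).1, by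
      have e1 := mul_le_mul_of_nonneg_right hLc2 (KK_nonneg p s (y k))
      have e2 := mul_le_mul_of_nonneg_left (hA k hk).2 (by positivity : 0 ≤ pA ^ 2 / 256)
      rw [← mul_assoc] at e2
      exact e1.trans e2⟩)
    (fun k => abs_pos.mp (lt_of_lt_of_le (Real.exp_pos a) (hv k)))
    (fun k => hsmall.trans (hv k))
  have hself := self_lower (s := s) (p := p) hd0 hyd hψL hv (by
    refine le_trans ?_ hsmall
    have e1 : 0 ≤ d * (4 ^ m * Λ) := by positivity
    have e2 : 1 ≤ B0 + 1 + (s + m) * m := by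
      have : 0 ≤ ((s : ℝ) + m) * m := by positivity
      linarith only [this, hB0]
    have e3 := mul_le_mul_of_nonneg_left e2 (by positivity : 0 ≤ 400 * d * (4 ^ m * Λ))
    linarith only [e1, e3])
  have hmass : ∑ i, mas y d s p ψ i < ε := by
    have e0 : 0 < d ^ 2 * (Real.exp a / 2) := by positivity
    have e1 : ∀ i, mas y d s p ψ i ≤ ((d ^ 2 * (Real.exp a / 2)) ^ 2)⁻¹ := by
      intro i
      unfold mas
      apply inv_anti₀ (by positivity)
      rw [← sq_abs ((fr y d s p ψ (Sum.inr (Sum.inr i))).eval (nod y d i))]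
      exact pow_le_pow_left₀ e0.le (hself i) 2
    have e2 := Finset.sum_le_sum (s := Finset.univ) (fun i _ => e1 i)
    rw [Finset.sum_const, Finset.card_univ, Fintype.card_sum, Fintype.card_fin, nsmul_eq_mul] at e2
    have e3 : ((m + m : ℕ) : ℝ) * ((d ^ 2 * (Real.exp a / 2)) ^ 2)⁻¹ =
        8 * m * Real.exp (4 * c - 2 * a) := by
      have g1 : Real.exp (4 * c - 2 * a) = (d ^ 4 * Real.exp a ^ 2)⁻¹ := by
        rw [hd, ← Real.exp_nat_mul, ← Real.exp_nat_mul, ← Real.exp_add, ← Real.exp_neg]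
        congr 1; push_cast; ring
      rw [g1]
      push_cast
      field_simp
      ring
    have e4 : 8 * (m : ℝ) ≤ Real.exp (3 + m) := by
      rw [Real.exp_add]
      exact mul_le_mul (by exact_mod_cast exp_ge 3 (c := 8) (by norm_num)) (le_exp_self _)
        (by linarith) (Real.exp_pos _).le
    have e5 : 8 * m * Real.exp (4 * c - 2 * a) ≤ Real.exp (-S) := by
      refine (mul_le_mul_of_nonneg_right e4 (Real.exp_pos _).le).trans ?_
      rw [← Real.exp_add, ha]
      exact Real.exp_le_exp.mpr (num3 hlT (by linarith) (by linarith) hTS hs1r hc hxS hLS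
        (by linarith) (by linarith) hlam3 hC0)
    have e6 : Real.exp (-S) < ε := by
      rw [Real.exp_neg, inv_lt_comm₀ (Real.exp_pos _) hε, ← one_div]
      linarith [Real.add_one_le_exp (S : ℝ)]
    linarith
  have hgram := gram (s := s) hMono hd0 hdη (by
      intro z hz i
      rcases i with k | k
      · have := hdist _ (hyY k) (hy4 k) z hz
        show η ≤ |z - y k|
        linarith
      · have e1 := hdist _ (hyY k) (hy4 k) z hz
        have e2 := abs_add_le (z - (y k + d)) d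
        rw [abs_of_pos hd0, show z - (y k + d) + d = z - y k by ring] at e2
        show η ≤ |z - (y k + d)|
        linarith) horth hψn
    (fun i => abs_pos.mp (lt_of_lt_of_le (by positivity) (hself i)))
  obtain ⟨h, -, -, -, g1, g2, g3, g4, g5⟩ := add_bumps (by linarith) hf hf0 hD (nod y d)
    (by
      rintro (k | k)
      · exact ⟨by show 0 ≤ y k; linarith [hy4 k], by show y k < 1; linarith [hy34 k]⟩
      · exact ⟨by show 0 ≤ y k + d; linarith [hy4 k], by show y k + d < 1; linarith [hy34 k]⟩)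
    (mas y d s p ψ) (fun i => by unfold mas; positivity)
    (fun a b => fr y d s p ψ a * fr y d s p ψ b) (fun a b => if a = b then 1 else 0)
    (1 / (8 * ((s : ℝ) + 2 * m + 1) ^ 2))
    (fun a b => by
      have e1 := hgram a b
      rw [II_dens hf hf0] at e1
      refine lt_of_le_of_lt e1 ?_
      rw [lt_div_iff₀ (by positivity)]
      refine lt_of_le_of_lt (mul_le_mul_of_nonneg_left ?_ (by positivity)) hdη'
      have e2 : ((s : ℝ) + 2 * m + 1) ^ 2 ≤ (4 * m) ^ 2 :=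
        pow_le_pow_left₀ (by positivity) (by linarith only [hs2r, hSm, hm1r]) 2
      have e3 : (4 * (m : ℝ)) ^ 2 = 16 * (m : ℝ) ^ 2 := by ring
      linarith only [e2, e3]) one_pos
  refine ⟨_, g1, g2, g3, lt_of_le_of_lt g4 hmass, s, m, fr y d s p ψ, ?_, natDegree_fr hpd hψd,
    hV.mono ?_, g5⟩
  · have : (K : ℝ) ≤ s + 2 * m := by linarith
    exact_mod_cast this
  · have e2 : ((s : ℝ) + 2 * m) ^ 2 ≤ (3 * m) ^ 2 :=
      pow_le_pow_left₀ (by positivity) (by linarith) 2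
    have e3 := mul_le_mul_of_nonneg_left e2 (by positivity : 0 ≤ pA ^ 3 * pb / 256 / 9)
    refine e3.trans (le_of_eq ?_)
    ring

end Pool.Agent.H142Z.Clt
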