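import Pool.Agent.H142Z.CltJ

set_option autoImplicit false
open MeasureTheory ProbabilityTheory Filter Topology Set Polynomial
open scoped ENNReal NNReal

namespace Pool.Agent.H142Z.Clt
open Pool.Agent.Helper553.Orth

theorem DD.congr {lam κ : ℝ} {f g : ℝ → ℝ} (h : DD lam κ f) (hg : g =ᵐ[m01] f) : DD lam κ g := by
  obtain ⟨E, h1, h2, h3⟩ := h
  refine ⟨E, h1, ?_, ?_⟩
  · filter_upwards [h2, hg] with x hx hx'
    rw [hx']; exact hx
  · filter_upwards [h3, hg] with x hx hx'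
    rw [hx']; exact hx

theorem Good2.congr {c0 : ℝ} {K : ℕ} {f g : ℝ → ℝ} (h : Good2 c0 K f) (hg : g =ᵐ[m01] f) :
    Good2 c0 K g := by
  obtain ⟨s, m, φ, h1, h2, h3, h4⟩ := h
  refine ⟨s, m, φ, h1, h2, h3, fun i j => ?_⟩
  have e : ∫ x, g x * (φ i * φ j).eval x ∂m01 = ∫ x, f x * (φ i * φ j).eval x ∂m01 := by
    apply integral_congr_ae
    filter_upwards [hg] with x hx
    rw [hx]
  rw [e]
  exact h4 i j

theorem good2_open (c0 : ℝ) (K : ℕ) : IsOpen {f : XX | Good2 c0 K (f : Lp ℝ 1 m01)} := by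
  rw [isOpen_iff_mem_nhds]
  rintro f ⟨s, m, φ, h1, h2, h3, h4⟩
  have key : ∀ i j, ∀ᶠ g : XX in 𝓝 f,
      |∫ x, (g : Lp ℝ 1 m01) x * (φ i * φ j).eval x ∂m01 - (if i = j then 1 else 0)| <
      1 / (8 * ((s : ℝ) + 2 * m + 1) ^ 2) := by
    intro i j
    obtain ⟨M, hM0, hM⟩ := poly_bdd (φ i * φ j)
    have hc := cont_functional (u := fun x => (φ i * φ j).eval x)
      (φ i * φ j).continuous.measurable hM0 (m01_ae.mono (fun x hx => hM x hx))
    have hc' : Continuous (fun g : XX =>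
        |∫ x, (g : Lp ℝ 1 m01) x * (φ i * φ j).eval x ∂m01 - (if i = j then 1 else 0)|) :=
      ((hc.comp continuous_subtype_val).sub continuous_const).abs
    exact hc'.continuousAt.eventually (gt_mem_nhds (h4 i j))
  have key' : ∀ᶠ g : XX in 𝓝 f, ∀ i j,
      |∫ x, (g : Lp ℝ 1 m01) x * (φ i * φ j).eval x ∂m01 - (if i = j then 1 else 0)| <
      1 / (8 * ((s : ℝ) + 2 * m + 1) ^ 2) := by
    rw [eventually_all]; intro i
    rw [eventually_all]; intro j
    exact key i j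
  filter_upwards [key'] with g hg
  exact ⟨s, m, φ, h1, h2, h3, hg⟩

theorem dense_of {lam κ : ℝ} {R : (ℝ → ℝ) → Prop} (hR : ∀ f g, R f → g =ᵐ[m01] f → R g)
    (h : ∀ f : ℝ → ℝ, Integrable f m01 → 0 ≤ᵐ[m01] f → DD lam κ f → ∀ ε : ℝ, 0 < ε →
      ∃ g : ℝ → ℝ, Integrable g m01 ∧ 0 ≤ᵐ[m01] g ∧ DD lam κ g ∧
        ∫ x, |g x - f x| ∂m01 < ε ∧ R g) :
    Dense {z : closure {f : XX | DD lam κ (f : Lp ℝ 1 m01)} | R ((z : XX) : Lp ℝ 1 m01)} := by
  rw [Metric.dense_iff]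
  intro z ε hε
  obtain ⟨f, hf, hzf⟩ := Metric.mem_closure_iff.mp z.2 (ε / 2) (half_pos hε)
  obtain ⟨g, g1, g2, g3, g4, g5⟩ := h _ (l1_integrable (f : Lp ℝ 1 m01)) (XX_nonneg f) hf (ε / 2)
    (half_pos hε)
  obtain ⟨g', hg'⟩ := toXX g1 g2
  refine ⟨⟨g', subset_closure (g3.congr hg')⟩, ?_, hR _ _ g5 hg'⟩
  rw [Metric.mem_ball, Subtype.dist_eq]
  have e : dist g' f < ε / 2 := by
    rw [Subtype.dist_eq, l1_dist]
    refine lt_of_le_of_lt (le_of_eq ?_) g4
    apply integral_congr_ae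
    filter_upwards [hg'] with x hx
    rw [hx]
  have e2 := dist_triangle g' f (z : XX)
  rw [dist_comm] at hzf
  show dist g' (z : XX) < ε
  linarith

theorem mJ_step {lam κ : ℝ} (hlam : 0 < lam) {a b : ℝ} (ha : 0 ≤ a) (hab : a < b) (hb : b ≤ 1)
    (f : ℝ → ℝ) (hf : Integrable f m01) (hf0 : 0 ≤ᵐ[m01] f) (hD : DD lam κ f) (ε : ℝ)
    (hε : 0 < ε) : ∃ g : ℝ → ℝ, Integrable g m01 ∧ 0 ≤ᵐ[m01] g ∧ DD lam κ g ∧
      ∫ x, |g x - f x| ∂m01 < ε ∧ 0 < mJ a b g := by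
  obtain ⟨h, h1, h2, h3, g1, g2, g3, g4, -⟩ := add_bumps hlam hf hf0 hD (κ := Unit) (ι := Empty)
    (fun _ => (a + b) / 2) (fun _ => ⟨by linarith, by linarith⟩) (fun _ => ε / 2)
    (fun _ => by linarith) (fun i => i.elim) (fun i => i.elim) 1 (fun i => i.elim)
    (h0 := (b - a) / 4) (by linarith)
  refine ⟨_, g1, g2, g3, lt_of_le_of_lt g4 (by simp; linarith), ?_⟩
  have hi1 : Integrable (fun x => f x * (Ioo a b).indicator (fun _ => (1 : ℝ)) x) m01 := by
    apply hf.mul_bdd (c := 1) (measurable_const.indicator measurableSet_Ioo).aestronglyMeasurable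
    exact Eventually.of_forall (ind_bdd a b)
  have e : mJ a b (GG f (fun _ : Unit => ε / 2) (fun _ => (a + b) / 2) h) =
      mJ a b f + ε / 2 * ∫ x, bump ((a + b) / 2) h x ∂m01 := by
    unfold mJ
    rw [← integral_const_mul, ← integral_add hi1 ((bump_integrable _ _).const_mul _)]
    apply integral_congr_ae
    apply Eventually.of_forall
    intro x
    simp only [GG, Finset.univ_unique, Finset.sum_singleton]
    rw [add_mul]
    congr 1
    by_cases hx : x ∈ Icc ((a + b) / 2) ((a + b) / 2 + h)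
    · rw [indicator_of_mem (show x ∈ Ioo a b from ⟨by linarith [hx.1], by linarith [hx.2]⟩), mul_one]
    · have : bump ((a + b) / 2) h x = 0 := indicator_of_notMem hx _
      rw [this, mul_zero, zero_mul]
  rw [e, bump_integral (by linarith) h1 (h3 ())]
  have h0 : 0 ≤ mJ a b f := by
    unfold mJ
    apply integral_nonneg_of_ae
    filter_upwards [hf0] with x hx
    exact mul_nonneg hx (ind_nonneg a b x)
  linarith

/-- The generic thin density. -/
theorem exists_generic2 : ∃ c0 : ℝ, 0 < c0 ∧ ∃ f : ℝ → ℝ, Integrable f m01 ∧ 0 ≤ᵐ[m01] f ∧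
    (∀ K : ℕ, Good2 c0 K f) ∧ ∀ a b : ℚ, 0 ≤ a → a < b → b ≤ 1 → 0 < mJ a b f := by
  obtain ⟨lam, κ, c0, hlam, hκ, hc0, hst⟩ := stage
  refine ⟨c0, hc0, ?_⟩
  let Z := closure {f : XX | DD lam κ (f : Lp ℝ 1 m01)}
  haveI : CompleteSpace Z := isClosed_closure.completeSpace_coe
  haveI : Nonempty Z := by
    obtain ⟨g, hg⟩ := toXX (g := (Icc 0 (Real.exp (-lam))).indicator (fun _ => (1 : ℝ)))
      ((integrable_const _).indicator measurableSet_Icc)
      (Eventually.of_forall (fun x => indicator_nonneg (fun _ _ => zero_le_one) x))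
    refine ⟨⟨g, subset_closure (DD.congr ⟨_, thin_base (by linarith) hκ, ?_, ?_⟩ hg)⟩⟩
    · exact Eventually.of_forall (fun x hx => mem_of_indicator_ne_zero hx)
    · filter_upwards [m01_ae] with x hx hx'
      rw [indicator_of_mem (show x ∈ Icc 0 (Real.exp (-lam)) from ⟨hx.1, hx'⟩)]
  let S : ℕ ⊕ {p : ℚ × ℚ // 0 ≤ p.1 ∧ p.1 < p.2 ∧ p.2 ≤ 1} → Set Z := fun i =>
    Sum.elim (fun K : ℕ => {z : Z | Good2 c0 K ((z : XX) : Lp ℝ 1 m01)})
      (fun p => {z : Z | 0 < mJ (p.1.1 : ℝ) (p.1.2 : ℝ) ((z : XX) : Lp ℝ 1 m01)}) i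
  have ho : ∀ i, IsOpen (S i) := by
    rintro (K | p)
    · exact (good2_open c0 K).preimage continuous_subtype_val
    · exact (mJ_open _ _).preimage continuous_subtype_val
  have hd : ∀ i, Dense (S i) := by
    rintro (K | p)
    · exact dense_of (R := Good2 c0 K) (fun _ _ h hg => h.congr hg)
        (fun f h1 h2 h3 ε hε => hst f h1 h2 h3 ε hε K)
    · apply dense_of (R := fun f => 0 < mJ (p.1.1 : ℝ) (p.1.2 : ℝ) f)
      · intro f g h hg
        have e : mJ (p.1.1 : ℝ) (p.1.2 : ℝ) g = mJ (p.1.1 : ℝ) (p.1.2 : ℝ) f := by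
          unfold mJ
          apply integral_congr_ae
          filter_upwards [hg] with x hx
          rw [hx]
        rw [e]; exact h
      · apply mJ_step (by linarith)
        · exact_mod_cast p.2.1
        · exact_mod_cast p.2.2.1
        · exact_mod_cast p.2.2.2
  obtain ⟨z, hz⟩ := (dense_iInter_of_isOpen ho hd).nonempty
  rw [mem_iInter] at hz
  refine ⟨((z : XX) : Lp ℝ 1 m01), l1_integrable _, XX_nonneg _, ?_, ?_⟩
  · intro K
    exact hz (Sum.inl K)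
  · intro a b ha hab hb
    exact hz (Sum.inr ⟨(a, b), ha, hab, hb⟩)

theorem variance_quadratic {c0 : ℝ} {f : ℝ → ℝ} (hf : Integrable f m01) (hf0 : 0 ≤ᵐ[m01] f)
    (hgood : ∀ K : ℕ, Good2 c0 K f) {p : ℕ → ℝ[X]}
    (hdeg : ∀ k, (p k).natDegree = k ∧ 0 < (p k).leadingCoeff)
    (horth : ∀ j k, ip (dens f) (p j) (p k) = if j = k then 1 else 0)
    {Ω : Type} [MeasurableSpace Ω] (μ : Measure Ω) [IsProbabilityMeasure μ] (a : ℕ → Ω → ℝ)
    (hlaw : ∀ k, HasLaw (a k) (gaussianReal 0 1) μ) (hind : iIndepFun a μ) :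
    ∃ᶠ n : ℕ in atTop, c0 / 2 * (n : ℝ) ^ 2 ≤ Var[fun ω => (nr (PP p a n ω) : ℝ); μ] := by
  classical
  rw [frequently_atTop]
  intro K
  obtain ⟨s, m, φ, hs, hφ, hv, hG⟩ := hgood K
  have hcard : Fintype.card (Unit ⊕ (Fin s ⊕ (Fin m ⊕ Fin m))) = (s + 2 * m) + 1 := by
    simp only [Fintype.card_sum, Fintype.card_unit, Fintype.card_fin]
    ring
  obtain ⟨h1, -⟩ := variance_large (dens_UMeas hf) hdeg horth hcard φ hφ hv (fun i j => by
    rw [dens_ip hf hf0]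
    have := (hG i j).le
    push_cast
    exact this) μ a hlaw hind
  refine ⟨s + 2 * m, hs, le_trans (le_of_eq ?_) h1⟩
  push_cast
  ring

theorem count_aemeasurable (p : ℕ → ℝ[X]) {Ω : Type} [MeasurableSpace Ω] {μ : Measure Ω}
    {a : ℕ → Ω → ℝ} (ha : ∀ k, AEMeasurable (a k) μ) (n : ℕ) :
    AEMeasurable (fun ω => (nr (PP p a n ω) : ℝ)) μ := by
  have hnm : Measurable (fun y : Fin (n + 1) → ℝ => (nr (rp (fun i : Fin (n + 1) => p i) y) : ℝ)) :=
    (measurable_from_top (f := fun n : ℕ => (n : ℝ))).comp (measurable_nr _)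
  have ham : AEMeasurable (fun ω (i : Fin (n + 1)) => a i ω) μ :=
    aemeasurable_pi_lambda _ (fun i => ha i)
  have e : (fun ω => (nr (PP p a n ω) : ℝ)) =
      fun ω => (nr (rp (fun i : Fin (n + 1) => p i) (fun i => a i ω)) : ℝ) := by
    funext ω
    unfold PP rp
    rw [Finset.sum_range]
  rw [e]
  exact hnm.comp_aemeasurable ham

theorem normalised_bounded {Ω : Type} [MeasurableSpace Ω] {μ : Measure Ω} [IsProbabilityMeasure μ]
    {N : ℕ → Ω → ℝ} (hN : ∀ (n : ℕ) (ω : Ω), N n ω ∈ Icc (0 : ℝ) n) {c : ℝ} (hc : 0 < c)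
    (h : ∃ᶠ n : ℕ in atTop, c * (n : ℝ) ^ 2 ≤ Var[N n; μ]) :
    ∃ L : ℝ, ∃ᶠ n : ℕ in atTop, 0 < Var[N n; μ] ∧
      ∀ ω, |(N n ω - μ[N n]) / √Var[N n; μ]| ≤ L := by
  refine ⟨1 / √c, (h.and_eventually (eventually_ge_atTop 1)).mono ?_⟩
  rintro n ⟨h1, h2⟩
  have hn : (0 : ℝ) < n := by exact_mod_cast h2
  have hV : 0 < Var[N n; μ] := lt_of_lt_of_le (by positivity) h1
  refine ⟨hV, fun ω => ?_⟩
  have e1 : 0 ≤ μ[N n] := integral_nonneg (fun ω => (hN n ω).1)
  have e2 : ∫ ω, N n ω ∂μ ≤ (n : ℝ) := by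
    have := integral_mono_of_nonneg (μ := μ) (f := N n) (g := fun _ => (n : ℝ))
      (Eventually.of_forall (fun ω => (hN n ω).1)) (integrable_const _)
      (Eventually.of_forall (fun ω => (hN n ω).2))
    simpa using this
  have e3 : |N n ω - μ[N n]| ≤ n := by
    rw [abs_le]; constructor <;> linarith [(hN n ω).1, (hN n ω).2]
  have e4 : √c * n ≤ √Var[N n; μ] := by
    apply Real.le_sqrt_of_sq_le
    rw [mul_pow, Real.sq_sqrt hc.le]
    exact h1
  have e5 : 0 < √c := Real.sqrt_pos.mpr hc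
  rw [abs_div, abs_of_pos (Real.sqrt_pos.mpr hV), div_le_div_iff₀ (Real.sqrt_pos.mpr hV) e5]
  nlinarith

theorem not_gaussian {Ω : Type} [MeasurableSpace Ω] {μ : Measure Ω} [IsProbabilityMeasure μ]
    {Z : ℕ → Ω → ℝ} {L : ℝ} (h : ∃ᶠ n : ℕ in atTop, ∀ ω, |Z n ω| ≤ L) :
    ¬ TendstoInDistribution Z atTop id (fun _ => μ) (gaussianReal 0 1) := by
  intro ht
  have h1 := ProbabilityMeasure.le_liminf_measure_open_of_tendsto ht.tendsto
    (isOpen_Ioi (a := L))
  simp only [ProbabilityMeasure.coe_mk, Measure.map_id] at h1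
  have h2 : liminf (fun n => (μ.map (Z n)) (Ioi L)) atTop ≤ 0 := by
    apply liminf_le_of_frequently_le _
    refine h.mono (fun n hn => le_of_eq ?_)
    rw [Measure.map_apply_of_aemeasurable (ht.forall_aemeasurable n) measurableSet_Ioi]
    have : Z n ⁻¹' Ioi L = ∅ := by
      ext ω
      simp only [mem_preimage, mem_Ioi, mem_empty_iff_false, iff_false, not_lt]
      exact (le_abs_self _).trans (hn ω)
    rw [this, measure_empty]
  have h3 : 0 < gaussianReal 0 1 (Ioi L) :=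
    lt_of_lt_of_le (gam_Icc_pos (a := L + 1) (b := L + 2) (by linarith))
      (measure_mono (fun x hx => by
        show L < x
        linarith [hx.1]))
  exact absurd (h1.trans h2) (not_le.mpr h3)

end Pool.Agent.H142Z.Clt
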