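import Mathlib

set_option autoImplicit false
open Finset

namespace Pool.Agent.H142Z.Dyadic

section Kraft

variable {C T : Type*} [DecidableEq C] [DecidableEq T]

/-- `S` is an exact cover of `U` by the cell sets of its tiles. -/
def IsTil (cells : T → Finset C) (S : Finset T) (U : Finset C) : Prop :=
  (∀ c, c ∈ U ↔ ∃ t ∈ S, c ∈ cells t) ∧ ∀ t ∈ S, ∀ t' ∈ S, t ≠ t' → Disjoint (cells t) (cells t')

open Classical in
theorem kraft (V : Finset T) (cells : T → Finset C) (corner : T → C) (f : C → ℕ) (w : T → ℝ)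
    (hw : ∀ t ∈ V, 0 ≤ w t)
    (hc : ∀ t ∈ V, corner t ∈ cells t)
    (hf : ∀ t ∈ V, ∀ c ∈ cells t, c ≠ corner t → f (corner t) < f c)
    (hs : ∀ c, ∑ t ∈ V.filter (fun t => corner t = c), w t ≤ 1) :
    ∀ (N : ℕ) (U : Finset C), U.card = N →
      ∑ S ∈ V.powerset.filter (fun S => IsTil cells S U), ∏ t ∈ S, w t ≤ 1 := by
  intro N
  induction N using Nat.strong_induction_on with
  | _ N ih =>
  intro U hU
  rcases U.eq_empty_or_nonempty with rfl | hne
  · have hsub : V.powerset.filter (fun S => IsTil cells S (∅ : Finset C)) ⊆ {∅} := by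
      intro S hS
      rw [mem_filter, mem_powerset] at hS
      rw [mem_singleton]
      by_contra h
      obtain ⟨t, ht⟩ := Finset.nonempty_iff_ne_empty.mpr h
      have := (hS.2.1 (corner t)).mpr ⟨t, ht, hc t (hS.1 ht)⟩
      simp at this
    calc _ ≤ ∑ S ∈ ({∅} : Finset (Finset T)), ∏ t ∈ S, w t := by
          apply Finset.sum_le_sum_of_subset_of_nonneg hsub
          intro S hS _
          rw [mem_singleton] at hS
          subst hS
          simp
      _ = 1 := by simp
  · obtain ⟨x, hxU, hxmin⟩ := Finset.exists_min_image U f hne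
    have hprod : ∀ S ∈ V.powerset.filter (fun S => IsTil cells S U), 0 ≤ ∏ t ∈ S, w t := by
      intro S hS
      rw [mem_filter, mem_powerset] at hS
      exact Finset.prod_nonneg fun t ht => hw t (hS.1 ht)
    have step1 : ∑ S ∈ V.powerset.filter (fun S => IsTil cells S U), ∏ t ∈ S, w t ≤
        ∑ S ∈ V.powerset.filter (fun S => IsTil cells S U),
          ∑ t ∈ V.filter (fun t => corner t = x), if t ∈ S then ∏ t ∈ S, w t else 0 := by
      apply Finset.sum_le_sum
      intro S hS
      have h0 := hprod S hS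
      rw [mem_filter, mem_powerset] at hS
      obtain ⟨t, htS, hxt⟩ := (hS.2.1 x).mp hxU
      have htV := hS.1 htS
      have hcU : corner t ∈ U := (hS.2.1 _).mpr ⟨t, htS, hc t htV⟩
      have hcx : corner t = x := by
        by_contra hne'
        have h1 := hf t htV x hxt (Ne.symm hne')
        have h2 := hxmin _ hcU
        omega
      have hmem : t ∈ V.filter (fun t => corner t = x) := mem_filter.mpr ⟨htV, hcx⟩
      have := Finset.single_le_sum (f := fun t' => if t' ∈ S then ∏ t ∈ S, w t else 0)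
        (fun t' _ => by split_ifs <;> simp [h0]) hmem
      simpa [htS] using this
    refine step1.trans ?_
    rw [Finset.sum_comm]
    refine le_trans (Finset.sum_le_sum (g := fun t => w t) ?_) (hs x)
    intro t ht
    rw [mem_filter] at ht
    obtain ⟨htV, hcx⟩ := ht
    rw [← Finset.sum_filter]
    have hlt : (U \ cells t).card < N := by
      rw [← hU]
      apply Finset.card_lt_card
      refine ⟨sdiff_subset, fun h => ?_⟩
      have := h hxU
      rw [mem_sdiff] at this
      exact this.2 (hcx ▸ hc t htV)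
    have hih := ih _ hlt (U \ cells t) rfl
    have e1 : ∑ S ∈ (V.powerset.filter (fun S => IsTil cells S U)).filter (fun S => t ∈ S),
        ∏ t ∈ S, w t = w t * ∑ S ∈ (V.powerset.filter (fun S => IsTil cells S U)).filter
          (fun S => t ∈ S), ∏ t' ∈ S.erase t, w t' := by
      rw [Finset.mul_sum]
      apply Finset.sum_congr rfl
      intro S hS
      rw [mem_filter] at hS
      rw [Finset.mul_prod_erase S w hS.2]
    rw [e1]
    have e2 : ∑ S ∈ (V.powerset.filter (fun S => IsTil cells S U)).filter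
          (fun S => t ∈ S), ∏ t' ∈ S.erase t, w t' ≤ 1 := by
      refine le_trans ?_ hih
      rw [← Finset.sum_image (s := (V.powerset.filter (fun S => IsTil cells S U)).filter
          (fun S => t ∈ S)) (g := fun S => S.erase t) (f := fun S => ∏ t' ∈ S, w t')]
      · apply Finset.sum_le_sum_of_subset_of_nonneg
        · intro S' hS'
          rw [mem_image] at hS'
          obtain ⟨S, hS, rfl⟩ := hS'
          rw [mem_filter, mem_filter, mem_powerset] at hS
          obtain ⟨⟨hSV, hcov, hdis⟩, htS⟩ := hS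
          rw [mem_filter, mem_powerset]
          refine ⟨(erase_subset t S).trans hSV, ?_, ?_⟩
          · intro c
            rw [mem_sdiff]
            constructor
            · rintro ⟨hcU, hct⟩
              obtain ⟨t', ht', hct'⟩ := (hcov c).mp hcU
              refine ⟨t', mem_erase.mpr ⟨?_, ht'⟩, hct'⟩
              rintro rfl
              exact hct hct'
            · rintro ⟨t', ht', hct'⟩
              rw [mem_erase] at ht'
              refine ⟨(hcov c).mpr ⟨t', ht'.2, hct'⟩, fun hct => ?_⟩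
              exact Finset.disjoint_left.mp (hdis t' ht'.2 t htS ht'.1) hct' hct
          · intro a ha b hb hab
            exact hdis a (mem_of_mem_erase ha) b (mem_of_mem_erase hb) hab
        · intro S hS _
          rw [mem_filter, mem_powerset] at hS
          exact Finset.prod_nonneg fun t ht => hw t (hS.1 ht)
      · intro S hS S' hS' h
        have h1 : t ∈ S := (mem_filter.mp (mem_coe.mp hS)).2
        have h2 : t ∈ S' := (mem_filter.mp (mem_coe.mp hS')).2
        have h3 : S.erase t = S'.erase t := h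
        rw [← Finset.insert_erase h1, ← Finset.insert_erase h2, h3]
    have := mul_le_mul_of_nonneg_left e2 (hw t htV)
    simpa using this

end Kraft

/-- the largest `s ≤ n` with `c ≡ r` modulo `2 ^ s` -/
def lev (n r c : ℕ) : ℕ := Nat.findGreatest (fun s => c ≡ r [MOD 2 ^ s]) n

lemma lev_le (n r c : ℕ) : lev n r c ≤ n := Nat.findGreatest_le n

lemma le_lev {n r c s : ℕ} (hs : s ≤ n) (h : c ≡ r [MOD 2 ^ s]) : s ≤ lev n r c :=
  Nat.le_findGreatest (P := fun s => c ≡ r [MOD 2 ^ s]) hs h

lemma modEq_of_le_lev {n r c s : ℕ} (h : s ≤ lev n r c) : c ≡ r [MOD 2 ^ s] := by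
  have h0 : c ≡ r [MOD 2 ^ (lev n r c)] :=
    Nat.findGreatest_spec (P := fun s => c ≡ r [MOD 2 ^ s]) (m := 0) (Nat.zero_le n)
      (by simp [Nat.modEq_one])
  exact h0.of_dvd (pow_dvd_pow 2 h)

/-- the distinguished cell of the dyadic block `[a 2^s, (a+1) 2^s)` -/
def cor (r s a : ℕ) : ℕ := 2 ^ s * a + r % 2 ^ s

lemma cor_div (r s a : ℕ) : cor r s a / 2 ^ s = a := by
  unfold cor
  have h : 0 < 2 ^ s := by positivity
  rw [Nat.mul_add_div h, Nat.div_eq_of_lt (Nat.mod_lt _ h), add_zero]

lemma cor_modEq (r s a : ℕ) : cor r s a ≡ r [MOD 2 ^ s] := by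
  unfold cor Nat.ModEq
  simp

lemma eq_cor {r s a c : ℕ} (h1 : c / 2 ^ s = a) (h2 : c ≡ r [MOD 2 ^ s]) : c = cor r s a := by
  unfold cor
  rw [← h1, ← h2, Nat.div_add_mod]

lemma cor_lt {n r s a : ℕ} (hs : s ≤ n) (ha : a < 2 ^ (n - s)) : cor r s a < 2 ^ n := by
  unfold cor
  have h : r % 2 ^ s < 2 ^ s := Nat.mod_lt _ (by positivity)
  have h2 : 2 ^ n = 2 ^ s * 2 ^ (n - s) := by rw [← pow_add]; congr 1; omega
  have h3 : 2 ^ s * (a + 1) ≤ 2 ^ s * 2 ^ (n - s) := Nat.mul_le_mul_left _ ha
  rw [h2]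
  nlinarith

lemma geom_le (m : ℕ) : ∑ j ∈ range m, (1 / 2 : ℝ) ^ (j + 1) ≤ 1 := by
  have : ∑ j ∈ range m, (1 / 2 : ℝ) ^ (j + 1) = 1 - (1 / 2) ^ m := by
    induction m with
    | zero => simp
    | succ m ih => rw [sum_range_succ, ih]; ring
  rw [this]
  have : (0 : ℝ) ≤ (1 / 2) ^ m := by positivity
  linarith

lemma count_le {n s j a : ℕ} (hj : j ≤ n) :
    ((range (2 ^ n)).filter (fun r => cor r s a ≡ r [MOD 2 ^ j])).card ≤ 2 ^ s * 2 ^ (n - j) := by
  have : ((range (2 ^ s)) ×ˢ (range (2 ^ (n - j)))).card = 2 ^ s * 2 ^ (n - j) := by simp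
  rw [← this]
  apply Finset.card_le_card_of_injOn (fun r => (r % 2 ^ s, r / 2 ^ j))
  · intro r hr
    rw [mem_coe, mem_filter, mem_range] at hr
    rw [mem_coe, mem_product, mem_range, mem_range]
    refine ⟨Nat.mod_lt _ (by positivity), ?_⟩
    apply Nat.div_lt_of_lt_mul
    rw [← pow_add]
    have : j + (n - j) = n := by omega
    rw [this]; exact hr.1
  · intro r hr r' hr' h
    rw [mem_coe, mem_filter] at hr hr'
    simp only [Prod.mk.injEq] at h
    have e : cor r s a = cor r' s a := by unfold cor; rw [h.1]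
    have h1 : r ≡ r' [MOD 2 ^ j] := hr.2.symm.trans (e ▸ hr'.2)
    rw [← Nat.div_add_mod r (2 ^ j), ← Nat.div_add_mod r' (2 ^ j), h.2, h1]

lemma avg_lev {n s : ℕ} (a : ℕ) (hs : s ≤ n) :
    ∑ r ∈ range (2 ^ n), ((lev n r (cor r s a) - s : ℕ) : ℝ) ≤ 2 ^ n := by
  have h1 : ∀ r, ((lev n r (cor r s a) - s : ℕ) : ℝ) ≤
      ∑ l ∈ range (n - s), if cor r s a ≡ r [MOD 2 ^ (s + l + 1)] then (1 : ℝ) else 0 := by
    intro r
    rw [Finset.sum_boole]
    have : range (lev n r (cor r s a) - s) ⊆
        (range (n - s)).filter (fun l => cor r s a ≡ r [MOD 2 ^ (s + l + 1)]) := by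
      intro l hl
      rw [mem_range] at hl
      have := lev_le n r (cor r s a)
      rw [mem_filter, mem_range]
      exact ⟨by omega, modEq_of_le_lev (n := n) (by omega)⟩
    have h := Finset.card_le_card this
    rw [card_range] at h
    exact_mod_cast h
  refine (Finset.sum_le_sum fun r _ => h1 r).trans ?_
  rw [Finset.sum_comm]
  have h2 : ∀ l ∈ range (n - s), ∑ r ∈ range (2 ^ n),
      (if cor r s a ≡ r [MOD 2 ^ (s + l + 1)] then (1 : ℝ) else 0) ≤ 2 ^ n * (1 / 2) ^ (l + 1) := by
    intro l hl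
    rw [mem_range] at hl
    rw [Finset.sum_boole]
    have h := count_le (n := n) (s := s) (j := s + l + 1) (a := a) (by omega)
    have h' : (((range (2 ^ n)).filter (fun r => cor r s a ≡ r [MOD 2 ^ (s + l + 1)])).card : ℝ)
        ≤ 2 ^ s * 2 ^ (n - (s + l + 1)) := by exact_mod_cast h
    refine h'.trans (le_of_eq ?_)
    have e : (2 : ℝ) ^ n = 2 ^ s * 2 ^ (n - (s + l + 1)) * 2 ^ (l + 1) := by
      rw [← pow_add, ← pow_add]; congr 1; omega
    rw [e, mul_assoc _ (2 ^ (l + 1)), ← mul_pow]
    norm_num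
  refine (Finset.sum_le_sum h2).trans ?_
  rw [← Finset.mul_sum]
  have := mul_le_mul_of_nonneg_left (geom_le (n - s)) (show (0 : ℝ) ≤ 2 ^ n by positivity)
  simpa using this

end Pool.Agent.H142Z.Dyadic
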