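import Pool.Agent.H142Z.Dyadic

set_option autoImplicit false
open Finset

namespace Pool.Agent.H142Z.Dyadic

abbrev Tile (d n : ℕ) := (Fin d → Fin (n + 1)) × (Fin d → Fin (2 ^ n))

variable {d n : ℕ}

/-- the finest cells contained in a tile -/
def cells (x : Tile d n) : Finset (Fin d → Fin (2 ^ n)) :=
  univ.filter fun c => ∀ k, (c k : ℕ) / 2 ^ (n - (x.1 k : ℕ)) = x.2 k

/-- the distinguished cell of a tile -/
def corner (r : ℕ) (x : Tile d n) : Fin d → Fin (2 ^ n) := fun k =>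
  ⟨cor r (n - (x.1 k : ℕ)) (x.2 k) % 2 ^ n, Nat.mod_lt _ (by positivity)⟩

def Valid (x : Tile d n) : Prop := ∀ k, (x.2 k : ℕ) < 2 ^ (x.1 k : ℕ)

lemma corner_val (r : ℕ) {x : Tile d n} (hx : Valid x) (k : Fin d) :
    (corner r x k : ℕ) = cor r (n - (x.1 k : ℕ)) (x.2 k) := by
  have h1 : (x.1 k : ℕ) ≤ n := Nat.lt_succ_iff.mp (x.1 k).2
  apply Nat.mod_eq_of_lt
  apply cor_lt (Nat.sub_le _ _)
  have : n - (n - (x.1 k : ℕ)) = x.1 k := by omega
  rw [this]; exact hx k

def rk (r : ℕ) (c : Fin d → Fin (2 ^ n)) : ℕ := ∑ k, (n - lev n r (c k))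

/-- excess roundness of the tile in coordinate `k` -/
def exc (r : ℕ) (x : Tile d n) (k : Fin d) : ℕ :=
  lev n r (cor r (n - (x.1 k : ℕ)) (x.2 k)) - (n - (x.1 k : ℕ))

noncomputable def wt (r : ℕ) (x : Tile d n) : ℝ := ∏ k, (1 / 2 : ℝ) ^ (exc r x k + 1)

lemma corner_mem (r : ℕ) {x : Tile d n} (hx : Valid x) : corner r x ∈ cells x := by
  rw [cells, mem_filter]
  refine ⟨mem_univ _, fun k => ?_⟩
  rw [corner_val r hx, cor_div]

lemma rk_lt (r : ℕ) {x : Tile d n} (hx : Valid x) {c : Fin d → Fin (2 ^ n)} (hc : c ∈ cells x)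
    (hne : c ≠ corner r x) : rk r (corner r x) < rk r c := by
  rw [cells, mem_filter] at hc
  have key : ∀ k, c k ≠ corner r x k → n - lev n r (corner r x k) < n - lev n r (c k) := by
    intro k hk
    have h1 : n - (x.1 k : ℕ) ≤ lev n r (corner r x k) := by
      rw [corner_val r hx]
      exact le_lev (Nat.sub_le _ _) (cor_modEq _ _ _)
    have h2 : lev n r (c k) < n - (x.1 k : ℕ) := by
      by_contra h
      push Not at h
      have h3 := eq_cor (hc.2 k) (modEq_of_le_lev h)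
      apply hk
      apply Fin.ext
      rw [corner_val r hx, h3]
    have h4 := lev_le n r (corner r x k)
    omega
  unfold rk
  apply Finset.sum_lt_sum
  · intro k _
    by_cases hk : c k = corner r x k
    · rw [hk]
    · exact (key k hk).le
  · obtain ⟨k, hk⟩ := Function.ne_iff.mp hne
    exact ⟨k, mem_univ _, key k hk⟩

lemma one_dim (m : ℕ) (hm : m ≤ n) :
    ∑ i : Fin (n + 1), (if n - (i : ℕ) ≤ m then (1 / 2 : ℝ) ^ (m - (n - (i : ℕ)) + 1) else 0) ≤ 1 := by
  rw [Fin.sum_univ_eq_sum_range (fun i => if n - i ≤ m then (1 / 2 : ℝ) ^ (m - (n - i) + 1) else 0)]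
  rw [← Finset.sum_filter]
  refine le_trans (le_of_eq ?_) (geom_le (m + 1))
  apply Finset.sum_bij (fun i _ => m - (n - i))
  · intro i hi
    rw [mem_range]; omega
  · intro i hi j hj h
    rw [mem_filter, mem_range] at hi hj
    omega
  · intro j hj
    rw [mem_range] at hj
    refine ⟨n - m + j, ?_, ?_⟩
    · rw [mem_filter, mem_range]; omega
    · omega
  · intro i _; rfl

open Classical in
lemma sum_wt_le (r : ℕ) (V : Finset (Tile d n)) (hV : ∀ x ∈ V, Valid x)
    (c : Fin d → Fin (2 ^ n)) :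
    ∑ x ∈ V.filter (fun x => corner r x = c), wt r x ≤ 1 := by
  set g : Fin d → Fin (n + 1) → ℝ := fun k i =>
    if n - (i : ℕ) ≤ lev n r (c k) then (1 / 2 : ℝ) ^ (lev n r (c k) - (n - (i : ℕ)) + 1) else 0
    with hg
  have hg0 : ∀ k i, 0 ≤ g k i := by
    intro k i; simp only [hg]; split_ifs <;> positivity
  have e1 : ∀ x ∈ V.filter (fun x => corner r x = c), wt r x = ∏ k, g k (x.1 k) := by
    intro x hx
    rw [mem_filter] at hx
    unfold wt
    apply Finset.prod_congr rfl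
    intro k _
    have h0 : (c k : ℕ) = cor r (n - (x.1 k : ℕ)) (x.2 k) := by
      rw [← hx.2, corner_val r (hV x hx.1)]
    have h1 : n - (x.1 k : ℕ) ≤ lev n r (c k) := by
      rw [h0]
      exact le_lev (Nat.sub_le _ _) (cor_modEq _ _ _)
    simp only [hg]
    rw [if_pos h1, exc, ← h0]
  rw [Finset.sum_congr rfl e1]
  have e2 : ∑ x ∈ V.filter (fun x => corner r x = c), ∏ k, g k (x.1 k) ≤
      ∑ i : Fin d → Fin (n + 1), ∏ k, g k (i k) := by
    rw [← Finset.sum_image (s := V.filter (fun x => corner r x = c)) (g := fun x => x.1)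
      (f := fun i => ∏ k, g k (i k))]
    · apply Finset.sum_le_sum_of_subset_of_nonneg (subset_univ _)
      intro i _ _
      exact Finset.prod_nonneg fun k _ => hg0 k _
    · intro x hx y hy h
      rw [mem_coe, mem_filter] at hx hy
      have h' : x.1 = y.1 := h
      apply Prod.ext h'
      funext k
      apply Fin.ext
      have h1 := corner_mem r (hV x hx.1)
      have h2 := corner_mem r (hV y hy.1)
      rw [cells, mem_filter] at h1 h2
      rw [← h1.2 k, ← h2.2 k, hx.2, hy.2, h']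
  refine e2.trans ?_
  rw [← Fintype.piFinset_univ, ← Finset.prod_univ_sum]
  apply Finset.prod_le_one
  · intro k _
    exact Finset.sum_nonneg fun i _ => hg0 k i
  · intro k _
    exact one_dim _ (lev_le _ _ _)

lemma half_pow_ge (y : ℕ) (M : ℝ) : Real.exp (-M) * (1 + M - y) ≤ (1 / 2 : ℝ) ^ y := by
  have h1 : Real.exp (-1) ≤ 1 / 2 := by
    have := Real.add_one_le_exp (1 : ℝ)
    rw [Real.exp_neg, inv_eq_one_div]
    apply one_div_le_one_div_of_le <;> linarith
  have h2 : Real.exp (-(y : ℝ)) ≤ (1 / 2 : ℝ) ^ y := by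
    have : Real.exp (-(y : ℝ)) = Real.exp (-1) ^ y := by
      rw [← Real.exp_nat_mul]; congr 1; ring
    rw [this]
    exact pow_le_pow_left₀ (Real.exp_pos _).le h1 y
  refine le_trans ?_ h2
  have h3 : Real.exp (-(y : ℝ)) = Real.exp (-M) * Real.exp (M - y) := by
    rw [← Real.exp_add]; congr 1; ring
  rw [h3]
  apply mul_le_mul_of_nonneg_left _ (Real.exp_pos _).le
  have := Real.add_one_le_exp (M - y)
  linarith

lemma avg_wt (S : Finset (Tile d n)) :
    (2 : ℝ) ^ n * Real.exp (-(2 * d * S.card)) ≤ ∑ r ∈ range (2 ^ n), ∏ x ∈ S, wt r x := by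
  have e1 : ∀ r, ∏ x ∈ S, wt r x = (1 / 2 : ℝ) ^ (∑ x ∈ S, ∑ k, (exc r x k + 1)) := by
    intro r
    unfold wt
    simp only [Finset.prod_pow_eq_pow_sum]
  simp only [e1]
  set M : ℝ := 2 * d * S.card with hM
  refine le_trans ?_ (Finset.sum_le_sum fun r _ => half_pow_ge _ M)
  rw [← Finset.mul_sum, mul_comm]
  apply mul_le_mul_of_nonneg_left _ (Real.exp_pos _).le
  rw [Finset.sum_sub_distrib, Finset.sum_const, card_range]
  have h2 : ∑ r ∈ range (2 ^ n), ((∑ x ∈ S, ∑ k, (exc r x k + 1) : ℕ) : ℝ) ≤ 2 ^ n * M := by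
    push_cast
    rw [Finset.sum_comm]
    have h3 : ∀ x ∈ S, ∑ r ∈ range (2 ^ n), ∑ k, ((exc r x k : ℝ) + 1) ≤ 2 ^ n * (2 * d) := by
      intro x _
      rw [Finset.sum_comm]
      have h4 : ∀ k ∈ (univ : Finset (Fin d)),
          ∑ r ∈ range (2 ^ n), ((exc r x k : ℝ) + 1) ≤ 2 ^ n * 2 := by
        intro k _
        rw [Finset.sum_add_distrib]
        have := avg_lev (n := n) (s := n - (x.1 k : ℕ)) (x.2 k) (Nat.sub_le _ _)
        simp only [exc]
        rw [Finset.sum_const, card_range]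
        simp only [nsmul_eq_mul, Nat.cast_pow, Nat.cast_ofNat, mul_one]
        linarith
      refine (Finset.sum_le_sum h4).trans (le_of_eq ?_)
      simp only [Finset.sum_const, card_univ, Fintype.card_fin, nsmul_eq_mul]
      ring
    refine (Finset.sum_le_sum h3).trans (le_of_eq ?_)
    simp only [Finset.sum_const, nsmul_eq_mul, hM]
    ring
  simp only [nsmul_eq_mul, Nat.cast_pow, Nat.cast_ofNat]
  nlinarith

open Classical in
/-- The weighted count of tilings. -/
theorem count_tilings (V : Finset (Tile d n)) (hV : ∀ x ∈ V, Valid x) :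
    ∑ S ∈ V.powerset.filter (fun S => IsTil cells S univ), Real.exp (-(2 * d * S.card)) ≤ 1 := by
  have hpos : (0 : ℝ) < 2 ^ n := by positivity
  have h1 : ∀ r ∈ range (2 ^ n),
      ∑ S ∈ V.powerset.filter (fun S => IsTil cells S univ), ∏ x ∈ S, wt r x ≤ 1 := by
    intro r _
    have := kraft V cells (corner r) (rk r) (wt r)
      (fun x _ => by unfold wt; positivity) (fun x hx => corner_mem r (hV x hx))
      (fun x hx c hc hne => rk_lt r (hV x hx) hc hne)
      (fun c => by convert sum_wt_le r V hV c) _ univ rfl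
    convert this
  have h2 := Finset.sum_le_sum h1
  rw [Finset.sum_comm] at h2
  have h3 := (Finset.sum_le_sum fun S _ => avg_wt S).trans h2
  rw [← Finset.mul_sum] at h3
  simp only [Finset.sum_const, card_range, nsmul_eq_mul, Nat.cast_pow, Nat.cast_ofNat] at h3
  exact le_of_mul_le_mul_left h3 hpos

lemma sum_superset {α : Type*} [DecidableEq α] (U S : Finset α) (hS : S ⊆ U) (p : ℝ) :
    ∑ A ∈ U.powerset, (if S ⊆ A then p ^ A.card * (1 - p) ^ (U.card - A.card) else 0) =
      p ^ S.card := by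
  have h1 := Finset.prod_add (fun _ : α => p) (fun u => if u ∈ S then 0 else 1 - p) U
  have h2 : ∏ u ∈ U, (p + if u ∈ S then 0 else 1 - p) = p ^ S.card := by
    have : ∀ u ∈ U, (p + if u ∈ S then 0 else 1 - p) = if u ∈ S then p else 1 := by
      intro u _; split_ifs <;> ring
    rw [Finset.prod_congr rfl this, Finset.prod_ite_mem, Finset.inter_eq_right.mpr hS,
      Finset.prod_const]
  rw [← h2, h1]
  apply Finset.sum_congr rfl
  intro A hA
  rw [mem_powerset] at hA
  rw [Finset.prod_const]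
  split_ifs with h
  · congr 1
    rw [← Finset.card_sdiff_of_subset hA, ← Finset.prod_const]
    apply Finset.prod_congr rfl
    intro u hu
    rw [mem_sdiff] at hu
    rw [if_neg (fun hu' => hu.2 (h hu'))]
  · obtain ⟨u, huS, huA⟩ := Finset.not_subset.mp h
    rw [Finset.prod_eq_zero (i := u) (mem_sdiff.mpr ⟨hS huS, huA⟩) (by rw [if_pos huS]), mul_zero]

open Classical in
theorem prob_le (V : Finset (Tile d n)) (hV : ∀ x ∈ V, Valid x) (P : Finset (Tile d n) → Prop)
    (hP : ∀ S ⊆ V, P S → IsTil cells S univ) {p : ℝ} (hp0 : 0 ≤ p)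
    (hp : p ≤ Real.exp (-(2 * d)) / 2) :
    ∑ A ∈ V.powerset, (if ∃ S ⊆ A, P S then p ^ A.card * (1 - p) ^ (V.card - A.card) else 0)
      ≤ 1 / 2 := by
  have he : Real.exp (-(2 * d : ℝ)) ≤ 1 := by
    rw [Real.exp_le_one_iff]
    have : (0 : ℝ) ≤ d := Nat.cast_nonneg d
    linarith
  have hp1 : 0 ≤ 1 - p := by linarith
  have h1 : ∀ A ∈ V.powerset,
      (if ∃ S ⊆ A, P S then p ^ A.card * (1 - p) ^ (V.card - A.card) else 0) ≤
      ∑ S ∈ V.powerset.filter (fun S => IsTil cells S univ),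
        (if S ⊆ A then p ^ A.card * (1 - p) ^ (V.card - A.card) else 0) := by
    intro A hA
    rw [mem_powerset] at hA
    have hnn : ∀ S ∈ V.powerset.filter (fun S => IsTil cells S univ),
        0 ≤ (if S ⊆ A then p ^ A.card * (1 - p) ^ (V.card - A.card) else 0) := by
      intro S _; split_ifs <;> positivity
    split_ifs with h
    · obtain ⟨S, hSA, hS⟩ := h
      have hmem : S ∈ V.powerset.filter (fun S => IsTil cells S univ) :=
        mem_filter.mpr ⟨mem_powerset.mpr (hSA.trans hA), hP S (hSA.trans hA) hS⟩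
      have := Finset.single_le_sum hnn hmem
      rwa [if_pos hSA] at this
    · exact Finset.sum_nonneg hnn
  refine (Finset.sum_le_sum h1).trans ?_
  rw [Finset.sum_comm]
  have h2 : ∀ S ∈ V.powerset.filter (fun S => IsTil cells S univ),
      ∑ A ∈ V.powerset, (if S ⊆ A then p ^ A.card * (1 - p) ^ (V.card - A.card) else 0) ≤
        1 / 2 * Real.exp (-(2 * d * S.card)) := by
    intro S hS
    rw [mem_filter, mem_powerset] at hS
    rw [sum_superset V S hS.1]
    obtain ⟨x, hx, -⟩ := (hS.2.1 (fun _ => ⟨0, by positivity⟩)).mp (mem_univ _)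
    have hc : 1 ≤ S.card := Finset.card_pos.mpr ⟨x, hx⟩
    have h3 : p ^ S.card ≤ (Real.exp (-(2 * d)) / 2) ^ S.card := pow_le_pow_left₀ hp0 hp _
    refine h3.trans ?_
    rw [div_eq_mul_one_div, mul_pow, ← Real.exp_nat_mul, mul_comm]
    have h4 : (1 / 2 : ℝ) ^ S.card ≤ 1 / 2 := by
      have := pow_le_pow_of_le_one (show (0 : ℝ) ≤ 1 / 2 by norm_num) (by norm_num) hc
      simpa using this
    have e : (S.card : ℝ) * -(2 * d) = -(2 * d * S.card) := by ring
    rw [e]
    exact mul_le_mul_of_nonneg_right h4 (Real.exp_pos _).le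
  refine (Finset.sum_le_sum h2).trans ?_
  rw [← Finset.mul_sum]
  have := count_tilings V hV
  linarith

/-- the closed box of a tile -/
def box (x : Tile d n) : Set (Fin d → ℝ) :=
  Set.pi Set.univ (fun k => Set.Icc (((x.2 k : ℕ) : ℝ) / 2 ^ (x.1 k : ℕ))
    ((((x.2 k : ℕ) : ℝ) + 1) / 2 ^ (x.1 k : ℕ)))

lemma interior_box (x : Tile d n) : interior (box x) =
    Set.pi Set.univ (fun k => Set.Ioo (((x.2 k : ℕ) : ℝ) / 2 ^ (x.1 k : ℕ))
      ((((x.2 k : ℕ) : ℝ) + 1) / 2 ^ (x.1 k : ℕ))) := by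
  unfold box
  rw [interior_pi_set Set.finite_univ]
  simp only [interior_Icc]

/-- the centre of a cell -/
noncomputable def ctr (c : Fin d → Fin (2 ^ n)) : Fin d → ℝ := fun k => ((c k : ℕ) + 1 / 2) / 2 ^ n

lemma scale (i : ℕ) (hi : i ≤ n) (a : ℝ) : a / 2 ^ i = (2 ^ (n - i) * a) / 2 ^ n := by
  have e : (2 : ℝ) ^ n = 2 ^ (n - i) * 2 ^ i := by rw [← pow_add]; congr 1; omega
  rw [e]; field_simp

lemma mem_cells_of_mem_box {x : Tile d n} {c : Fin d → Fin (2 ^ n)} (h : ctr c ∈ box x) :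
    c ∈ cells x := by
  rw [cells, mem_filter]
  refine ⟨mem_univ _, fun k => ?_⟩
  have h1 : (x.1 k : ℕ) ≤ n := Nat.lt_succ_iff.mp (x.1 k).2
  obtain ⟨h2, h3⟩ := h k (Set.mem_univ k)
  have hpos : (0 : ℝ) < 2 ^ n := by positivity
  simp only [ctr] at h2 h3
  rw [scale _ h1, div_le_div_iff_of_pos_right hpos] at h2 h3
  have h4 : 2 ^ (n - (x.1 k : ℕ)) * (x.2 k : ℕ) < (c k : ℕ) + 1 := by
    have : (2 : ℝ) ^ (n - (x.1 k : ℕ)) * (x.2 k : ℕ) < (c k : ℕ) + 1 := by linarith
    exact_mod_cast this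
  have h5 : (c k : ℕ) < 2 ^ (n - (x.1 k : ℕ)) * ((x.2 k : ℕ) + 1) := by
    have : ((c k : ℕ) : ℝ) < (2 : ℝ) ^ (n - (x.1 k : ℕ)) * ((x.2 k : ℕ) + 1) := by linarith
    exact_mod_cast this
  apply Nat.div_eq_of_lt_le
  · rw [mul_comm]; omega
  · rw [mul_comm]; exact h5

lemma mem_interior_of_mem_cells {x : Tile d n} {c : Fin d → Fin (2 ^ n)} (h : c ∈ cells x) :
    ctr c ∈ interior (box x) := by
  rw [interior_box]
  rw [cells, mem_filter] at h
  intro k _
  have h1 : (x.1 k : ℕ) ≤ n := Nat.lt_succ_iff.mp (x.1 k).2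
  have hpos : (0 : ℝ) < 2 ^ n := by positivity
  have h2 := h.2 k
  have h3 := Nat.div_add_mod (c k : ℕ) (2 ^ (n - (x.1 k : ℕ)))
  have h4 : (c k : ℕ) % 2 ^ (n - (x.1 k : ℕ)) < 2 ^ (n - (x.1 k : ℕ)) := Nat.mod_lt _ (by positivity)
  rw [h2] at h3
  have h5 : 2 ^ (n - (x.1 k : ℕ)) * (x.2 k : ℕ) ≤ (c k : ℕ) := by omega
  have h6 : (c k : ℕ) + 1 ≤ 2 ^ (n - (x.1 k : ℕ)) * ((x.2 k : ℕ) + 1) := by
    rw [mul_add]; omega
  have h5' : (2 : ℝ) ^ (n - (x.1 k : ℕ)) * (x.2 k : ℕ) ≤ (c k : ℕ) := by exact_mod_cast h5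
  have h6' : ((c k : ℕ) : ℝ) + 1 ≤ (2 : ℝ) ^ (n - (x.1 k : ℕ)) * ((x.2 k : ℕ) + 1) := by
    exact_mod_cast h6
  simp only [ctr]
  constructor
  · rw [scale _ h1, div_lt_div_iff_of_pos_right hpos]; linarith
  · rw [scale _ h1 (_ + 1), div_lt_div_iff_of_pos_right hpos]; linarith

lemma ctr_mem (c : Fin d → Fin (2 ^ n)) : ctr c ∈ Set.Icc (0 : Fin d → ℝ) 1 := by
  have hpos : (0 : ℝ) < 2 ^ n := by positivity
  constructor
  · intro k; simp only [ctr, Pi.zero_apply]; positivity
  · intro k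
    simp only [ctr, Pi.one_apply]
    rw [div_le_one hpos]
    have h1 : (c k : ℕ) + 1 ≤ 2 ^ n := (c k).2
    have h2 : ((c k : ℕ) : ℝ) + 1 ≤ 2 ^ n := by exact_mod_cast h1
    linarith

/-- real tilings -/
def RTil (S : Finset (Tile d n)) : Prop :=
  (⋃ x ∈ S, box x) = Set.Icc (0 : Fin d → ℝ) 1 ∧
    ∀ x ∈ S, ∀ y ∈ S, x ≠ y → Disjoint (interior (box x)) (interior (box y))

lemma isTil_of_rTil {S : Finset (Tile d n)} (h : RTil S) : IsTil cells S univ := by
  constructor
  · intro c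
    simp only [mem_univ, true_iff]
    have := ctr_mem c
    rw [← h.1] at this
    simp only [Set.mem_iUnion] at this
    obtain ⟨x, hx, hc⟩ := this
    exact ⟨x, hx, mem_cells_of_mem_box hc⟩
  · intro x hx y hy hxy
    rw [Finset.disjoint_left]
    intro c h1 h2
    exact Set.disjoint_left.mp (h.2 x hx y hy hxy) (mem_interior_of_mem_cells h1)
      (mem_interior_of_mem_cells h2)

/-- slabs -/
def slab (k0 : Fin d) (a : Fin (2 ^ n)) : Tile d n :=
  (fun k => if k = k0 then Fin.last n else 0, fun k => if k = k0 then a else ⟨0, by positivity⟩)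

lemma exists_rTil (k0 : Fin d) : ∃ S : Finset (Tile d n),
    (∀ x ∈ S, ∑ k, (x.1 k : ℕ) = n ∧ ∀ k, (x.2 k : ℕ) < 2 ^ (x.1 k : ℕ)) ∧ RTil S := by
  classical
  have hpos : (0 : ℝ) < 2 ^ n := by positivity
  have hbox : ∀ (a : Fin (2 ^ n)) (z : Fin d → ℝ), z ∈ box (slab k0 a) ↔
      (((a : ℕ) : ℝ) / 2 ^ n ≤ z k0 ∧ z k0 ≤ (((a : ℕ) : ℝ) + 1) / 2 ^ n) ∧
        ∀ k, k ≠ k0 → 0 ≤ z k ∧ z k ≤ 1 := by
    intro a z
    constructor
    · intro h
      refine ⟨?_, fun k hk => ?_⟩
      · have := h k0 (Set.mem_univ _)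
        simpa [slab] using this
      · have := h k (Set.mem_univ _)
        simpa [slab, hk] using this
    · rintro ⟨h1, h2⟩ k _
      by_cases hk : k = k0
      · subst hk; simpa [slab] using h1
      · simpa [slab, hk] using h2 k hk
  refine ⟨univ.image (slab k0), ?_, ?_, ?_⟩
  · intro x hx
    obtain ⟨a, -, rfl⟩ := mem_image.mp hx
    constructor
    · rw [Finset.sum_eq_single k0]
      · simp [slab]
      · intro k _ hk; simp [slab, hk]
      · simp
    · intro k
      by_cases hk : k = k0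
      · subst hk; simp [slab]
      · simp [slab, hk]
  · ext z
    simp only [Set.mem_iUnion, mem_image, mem_univ, true_and]
    constructor
    · rintro ⟨x, ⟨a, rfl⟩, hz⟩
      rw [hbox] at hz
      have ha : ((a : ℕ) : ℝ) + 1 ≤ 2 ^ n := by
        have h1 : (a : ℕ) + 1 ≤ 2 ^ n := a.2
        exact_mod_cast h1
      constructor
      · intro k
        by_cases hk : k = k0
        · subst hk
          exact le_trans (by positivity) hz.1.1
        · exact (hz.2 k hk).1
      · intro k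
        by_cases hk : k = k0
        · subst hk
          exact le_trans hz.1.2 ((div_le_one hpos).mpr ha)
        · exact (hz.2 k hk).2
    · rintro ⟨h0, h1⟩
      have hz0 : 0 ≤ z k0 := h0 k0
      have hz1 : z k0 ≤ 1 := h1 k0
      have hp : 0 < 2 ^ n := by positivity
      have hex : ∃ a : Fin (2 ^ n), ((a : ℕ) : ℝ) / 2 ^ n ≤ z k0 ∧
          z k0 ≤ (((a : ℕ) : ℝ) + 1) / 2 ^ n := by
        rcases hz1.lt_or_eq with hlt | heq
        · have hf : ⌊z k0 * 2 ^ n⌋₊ < 2 ^ n := by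
            rw [Nat.floor_lt (by positivity)]
            push_cast
            nlinarith
          refine ⟨⟨_, hf⟩, ?_, ?_⟩
          · rw [div_le_iff₀ hpos]
            exact Nat.floor_le (by positivity)
          · rw [le_div_iff₀ hpos]
            exact (Nat.lt_floor_add_one _).le
        · refine ⟨⟨2 ^ n - 1, by omega⟩, ?_, ?_⟩
          · rw [heq, div_le_one hpos]
            have : ((2 ^ n - 1 : ℕ) : ℝ) ≤ ((2 ^ n : ℕ) : ℝ) := by
              exact_mod_cast Nat.sub_le _ _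
            simpa using this
          · rw [heq, le_div_iff₀ hpos]
            have : ((2 ^ n - 1 + 1 : ℕ) : ℝ) = ((2 ^ n : ℕ) : ℝ) := by
              congr 1; omega
            push_cast at this
            simp only [one_mul]
            linarith
      obtain ⟨a, ha⟩ := hex
      exact ⟨slab k0 a, ⟨a, rfl⟩, (hbox a z).mpr ⟨ha, fun k _ => ⟨h0 k, h1 k⟩⟩⟩
  · intro x hx y hy hxy
    obtain ⟨a, -, rfl⟩ := mem_image.mp hx
    obtain ⟨b, -, rfl⟩ := mem_image.mp hy
    have hab : (a : ℕ) ≠ b := fun h => hxy (by rw [Fin.ext h])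
    rw [interior_box, interior_box, Set.disjoint_left]
    intro z h1 h2
    have h3 := h1 k0 (Set.mem_univ _)
    have h4 := h2 k0 (Set.mem_univ _)
    simp only [slab, if_true, Fin.val_last, Set.mem_Ioo] at h3 h4
    have h5 : ((a : ℕ) : ℝ) < (b : ℕ) + 1 := by
      have := h3.1.trans h4.2
      rwa [div_lt_div_iff_of_pos_right hpos] at this
    have h6 : ((b : ℕ) : ℝ) < (a : ℕ) + 1 := by
      have := h4.1.trans h3.2
      rwa [div_lt_div_iff_of_pos_right hpos] at this
    have h7 : (a : ℕ) < b + 1 := by exact_mod_cast h5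
    have h8 : (b : ℕ) < a + 1 := by exact_mod_cast h6
    omega

open Classical in
lemma prob_one (V : Finset (Tile d n)) (P : Finset (Tile d n) → Prop) (h : ∃ S ⊆ V, P S) :
    ∑ A ∈ V.powerset,
      (if ∃ S ⊆ A, P S then (1 : ℝ) ^ A.card * (1 - 1) ^ (V.card - A.card) else 0) = 1 := by
  rw [Finset.sum_eq_single V]
  · rw [if_pos h]; simp
  · intro A hA hne
    rw [mem_powerset] at hA
    have : A.card < V.card := Finset.card_lt_card (lt_of_le_of_ne hA hne)
    have h2 : V.card - A.card ≠ 0 := by omega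
    split_ifs
    · simp [h2]
    · rfl
  · intro h'; exact absurd (mem_powerset.mpr (Subset.refl V)) h'

open Classical in
theorem main (d : ℕ) (hd : 1 ≤ d) :
    Real.exp (-(2 * d)) / 2 ≤ sInf {p : ℝ | p ∈ Set.Icc (0 : ℝ) 1 ∧
      Filter.Tendsto (fun n : ℕ =>
        ∑ A ∈ ((univ : Finset (Tile d n)).filter
                (fun x => ∑ k, (x.1 k : ℕ) = n ∧ ∀ k, (x.2 k : ℕ) < 2 ^ (x.1 k : ℕ))).powerset,
          if (∃ S ⊆ A, RTil S)
          then p ^ A.card * (1 - p) ^
              (((univ : Finset (Tile d n)).filter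
                (fun x => ∑ k, (x.1 k : ℕ) = n ∧ ∀ k, (x.2 k : ℕ) < 2 ^ (x.1 k : ℕ))).card - A.card)
          else 0)
        Filter.atTop (nhds 1)} := by
  apply le_csInf
  · refine ⟨1, ⟨zero_le_one, le_rfl⟩, ?_⟩
    apply tendsto_const_nhds.congr
    intro n
    symm
    apply prob_one
    obtain ⟨S, h1, h2⟩ := exists_rTil (n := n) (⟨0, hd⟩ : Fin d)
    exact ⟨S, fun x hx => mem_filter.mpr ⟨mem_univ _, h1 x hx⟩, h2⟩
  · rintro p ⟨⟨hp0, -⟩, hp⟩
    by_contra hlt
    push Not at hlt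
    have : (1 : ℝ) ≤ 1 / 2 := by
      apply le_of_tendsto' hp
      intro n
      exact prob_le _ (fun x hx => (mem_filter.mp hx).2.2) RTil (fun S _ hS => isTil_of_rTil hS)
        hp0 hlt.le
    norm_num at this

end Pool.Agent.H142Z.Dyadic
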