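import Pool.Agent.H142Z.NiceDefs

set_option autoImplicit false

open MeasureTheory Filter Topology

namespace Pool.Agent.H142Z.Nice

/-- the shift on `ℕ → Bool` -/
def S (w : ℕ → Bool) : ℕ → Bool := fun j => w (j + 1)

/-- positive cylinder -/
def C (F : Finset ℕ) : Set (ℕ → Bool) := {w | ∀ j ∈ F, w j = true}

/-- translate of a finite set -/
def tr (n : ℕ) (F : Finset ℕ) : Finset ℕ := F.image (· + n)

lemma measurable_S : Measurable S := by
  unfold S
  fun_prop

lemma clopen_C (F : Finset ℕ) : IsClopen (C F) := by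
  have : C F = ⋂ j ∈ F, (fun w : ℕ → Bool => w j) ⁻¹' {true} := by
    ext w; simp [C]
  rw [this]
  exact isClopen_biInter_finset fun j _ => (isClopen_discrete _).preimage (continuous_apply j)

lemma meas_C (F : Finset ℕ) : MeasurableSet (C F) := (clopen_C F).isOpen.measurableSet

lemma C_union (F G : Finset ℕ) : C (F ∪ G) = C F ∩ C G := by
  ext w
  simp only [C, Finset.mem_union, Set.mem_setOf_eq, Set.mem_inter_iff]
  constructor
  · intro h
    exact ⟨fun j hj => h j (Or.inl hj), fun j hj => h j (Or.inr hj)⟩
  · rintro ⟨h1, h2⟩ j (hj | hj)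
    · exact h1 j hj
    · exact h2 j hj

lemma C_empty : C ∅ = Set.univ := by
  ext w; simp [C]

lemma S_iter (n : ℕ) (w : ℕ → Bool) (j : ℕ) : S^[n] w j = w (j + n) := by
  induction n generalizing w j with
  | zero => simp
  | succ n ih =>
    rw [Function.iterate_succ_apply', S, ih]
    congr 1; ring

lemma preimage_C (n : ℕ) (F : Finset ℕ) : S^[n] ⁻¹' C F = C (tr n F) := by
  ext w
  simp [C, tr, S_iter]

lemma gen_C : (inferInstance : MeasurableSpace (ℕ → Bool)) =
    MeasurableSpace.generateFrom (Set.range C) := by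
  apply le_antisymm
  · have : @Measurable (ℕ → Bool) (ℕ → Bool) (MeasurableSpace.generateFrom (Set.range C)) _ id := by
      letI : MeasurableSpace (ℕ → Bool) := MeasurableSpace.generateFrom (Set.range C)
      refine measurable_pi_lambda _ fun j => measurable_to_bool ?_
      refine MeasurableSpace.measurableSet_generateFrom ⟨{j}, ?_⟩
      ext w; simp [C]
    intro s hs
    exact this hs
  · refine MeasurableSpace.generateFrom_le ?_
    rintro _ ⟨F, rfl⟩
    exact meas_C F

lemma pi_C : IsPiSystem (Set.range C) := by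
  rintro _ ⟨F, rfl⟩ _ ⟨G, rfl⟩ _
  exact ⟨F ∪ G, C_union F G⟩

lemma ext_C (μ ν : Measure (ℕ → Bool)) [IsFiniteMeasure μ] (h : ∀ F, μ (C F) = ν (C F)) :
    μ = ν := by
  refine ext_of_generate_finite _ gen_C pi_C ?_ ?_
  · rintro _ ⟨F, rfl⟩
    exact h F
  · rw [← C_empty]; exact h ∅

lemma exists_limit (νs : ℕ → Measure (ℕ → Bool)) [∀ L, IsProbabilityMeasure (νs L)]
    (M : Finset ℕ → ℝ) (h : ∀ F, Tendsto (fun L => (νs L).real (C F)) atTop (𝓝 (M F))) :
    ∃ ν : Measure (ℕ → Bool), IsProbabilityMeasure ν ∧ ∀ F, ν.real (C F) = M F := by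
  let P : ℕ → ProbabilityMeasure (ℕ → Bool) := fun L => ⟨νs L, inferInstance⟩
  obtain ⟨ν, -, hν⟩ := isCompact_univ.ultrafilter_le_nhds (Ultrafilter.map P (hyperfilter ℕ))
    (by simp)
  have hν' : Tendsto P (hyperfilter ℕ : Filter ℕ) (𝓝 ν) := hν
  refine ⟨ν, inferInstance, fun F => ?_⟩
  have h1 := ProbabilityMeasure.tendsto_measure_of_isClopen_of_tendsto hν' (clopen_C F)
  have h2 : Tendsto (fun L => (νs L).real (C F)) (hyperfilter ℕ : Filter ℕ)
      (𝓝 ((ν : Measure (ℕ → Bool)).real (C F))) := by
    have := (NNReal.continuous_coe.tendsto _).comp h1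
    exact this
  have h3 : (hyperfilter ℕ : Filter ℕ) ≤ atTop := by
    rw [← Nat.cofinite_eq_atTop]; exact hyperfilter_le_cofinite
  exact tendsto_nhds_unique h2 ((h F).mono_left h3)

/-- indicator -/
noncomputable def ind {X : Type*} (E : Set X) : X → ℝ := E.indicator fun _ => 1

lemma ind_mul {X : Type*} (E E' : Set X) (x : X) : ind E x * ind E' x = ind (E ∩ E') x := by
  unfold ind
  by_cases h : x ∈ E <;> by_cases h' : x ∈ E' <;> simp [h, h']

lemma ind_int {X : Type*} [MeasurableSpace X] (μ : Measure X) [IsFiniteMeasure μ] {E : Set X}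
    (hE : MeasurableSet E) : Integrable (ind E) μ := (integrable_const _).indicator hE

lemma int_ind {X : Type*} [MeasurableSpace X] (μ : Measure X) {E : Set X}
    (hE : MeasurableSet E) : ∫ x, ind E x ∂μ = μ.real E := by
  unfold ind
  rw [integral_indicator hE]; simp

/-- positive definiteness of intersection measures -/
lemma psd_sets {X ι : Type*} [MeasurableSpace X] (μ : Measure X) [IsFiniteMeasure μ]
    (s : Finset ι) (E : ι → Set X) (hE : ∀ i, MeasurableSet (E i)) (c : ι → ℝ) :
    0 ≤ ∑ i ∈ s, ∑ j ∈ s, c i * c j * μ.real (E i ∩ E j) := by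
  have h1 : ∑ i ∈ s, ∑ j ∈ s, c i * c j * μ.real (E i ∩ E j) =
      ∫ x, (∑ i ∈ s, c i * ind (E i) x) ^ 2 ∂μ := by
    have : ∀ x, (∑ i ∈ s, c i * ind (E i) x) ^ 2 =
        ∑ i ∈ s, ∑ j ∈ s, c i * c j * ind (E i ∩ E j) x := by
      intro x
      rw [sq, Finset.sum_mul_sum]
      refine Finset.sum_congr rfl fun i _ => Finset.sum_congr rfl fun j _ => ?_
      rw [← ind_mul]; ring
    simp_rw [this]
    rw [integral_finset_sum]
    · refine Finset.sum_congr rfl fun i _ => ?_
      rw [integral_finset_sum]
      · refine Finset.sum_congr rfl fun j _ => ?_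
        rw [integral_const_mul, int_ind μ ((hE i).inter (hE j))]
      · intro j _
        exact (ind_int μ ((hE i).inter (hE j))).const_mul _
    · intro i _
      exact integrable_finset_sum _ fun j _ => (ind_int μ ((hE i).inter (hE j))).const_mul _
  rw [h1]
  exact integral_nonneg fun x => sq_nonneg _

lemma ergodic_of (ν : Measure (ℕ → Bool)) [IsProbabilityMeasure ν] (hS : MeasurePreserving S ν ν)
    (h : ∀ F, ∀ η : ℝ, 0 < η → ∃ N : ℕ, 0 < N ∧
      ∑ n ∈ Finset.range N, ∑ m ∈ Finset.range N, ν.real (C (tr n F) ∩ C (tr m F)) ≤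
        (N : ℝ) ^ 2 * (ν.real (C F) ^ 2 + η)) :
    IsErgodicSystem ν S := by
  intro B hB hinv
  have hinvn : ∀ n : ℕ, S^[n] ⁻¹' B = B := fun n => Function.IsFixedPt.preimage_iterate hinv n
  have key : ∀ F, ν.real (B ∩ C F) = ν.real B * ν.real (C F) := by
    intro F
    set a := ν.real (C F) with ha
    set b := ν.real B with hb
    set c := ν.real (B ∩ C F) with hc
    have hb1 : b ≤ 1 := measureReal_le_one
    have ha' : ∀ n, ν.real (C (tr n F)) = a := by
      intro n
      rw [← preimage_C, (hS.iterate n).measureReal_preimage (meas_C F).nullMeasurableSet]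
    have hc' : ∀ n, ν.real (B ∩ C (tr n F)) = c := by
      intro n
      rw [← preimage_C, hc,
        ← (hS.iterate n).measureReal_preimage (hB.inter (meas_C F)).nullMeasurableSet,
        Set.preimage_inter, hinvn]
    have hsq : ∀ η : ℝ, 0 < η → (c - b * a) ^ 2 ≤ η := by
      intro η hη
      obtain ⟨N, hN, hle⟩ := h F η hη
      have hN' : (0 : ℝ) < N := by exact_mod_cast hN
      set l := c - b * a with hl
      let E : Option (Option ℕ) → Set (ℕ → Bool) := fun o =>
        match o with
        | none => Set.univ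
        | some none => B
        | some (some n) => C (tr n F)
      let co : Option (Option ℕ) → ℝ := fun o =>
        match o with
        | none => -(N * a)
        | some none => -(N * l)
        | some (some _) => 1
      have hE : ∀ o, MeasurableSet (E o) := by
        rintro (_ | _ | n)
        · exact MeasurableSet.univ
        · exact hB
        · exact meas_C _
      have := psd_sets ν (Finset.insertNone (Finset.insertNone (Finset.range N))) E hE co
      simp only [Finset.sum_insertNone, E, co, Set.univ_inter, Set.inter_univ, Set.inter_self,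
        probReal_univ, ha', hc', Set.inter_comm (C _) B, Finset.sum_add_distrib,
        Finset.sum_const, Finset.card_range, nsmul_eq_mul, one_mul, mul_one] at this
      rw [← hb] at this
      have h2 : (N : ℝ) ^ 2 * l ^ 2 ≤ (N : ℝ) ^ 2 * η := by
        have h3 : (N : ℝ) ^ 2 * l ^ 2 * b ≤ (N : ℝ) ^ 2 * l ^ 2 :=
          mul_le_of_le_one_right (by positivity) hb1
        have hc2 : c = l + b * a := by rw [hl]; ring
        rw [hc2] at this
        nlinarith
      exact le_of_mul_le_mul_left h2 (by positivity)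
    have : (c - b * a) ^ 2 ≤ 0 := le_of_forall_pos_le_add fun η hη => by simpa using hsq η hη
    have h0 : c - b * a = 0 := by nlinarith [sq_nonneg (c - b * a)]
    linarith
  have hm : ν.restrict B = ν B • ν := by
    refine ext_C _ _ fun F => ?_
    rw [Measure.restrict_apply (meas_C F), Measure.smul_apply, smul_eq_mul, Set.inter_comm]
    have := key F
    simp only [Measure.real] at this
    rw [← ENNReal.toReal_mul] at this
    exact (ENNReal.toReal_eq_toReal_iff' (measure_ne_top _ _)
      (ENNReal.mul_ne_top (measure_ne_top _ _) (measure_ne_top _ _))).1 this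
  have h2 : ν B = ν B * ν B := by
    have := congrArg (fun m : Measure (ℕ → Bool) => m B) hm
    simpa [Measure.restrict_apply hB] using this
  by_cases h0 : ν B = 0
  · exact Or.inl h0
  · right
    have : ν B * 1 = ν B * ν B := by rw [mul_one]; exact h2
    exact ((ENNReal.mul_right_inj h0 (measure_ne_top _ _)).1 this).symm

end Pool.Agent.H142Z.Nice
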