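import Pool.Agent.H142Z.Nice1

set_option autoImplicit false

open MeasureTheory Filter Topology

namespace Pool.Agent.H142Z.Nice

lemma model (νs : ℕ → Measure (ℕ → Bool)) [∀ L, IsProbabilityMeasure (νs L)]
    (M : Finset ℕ → ℝ) (h : ∀ F, Tendsto (fun L => (νs L).real (C F)) atTop (𝓝 (M F)))
    (hsh : ∀ F, M (tr 1 F) = M F)
    (herg : ∀ F, ∃ D : ℕ → ℕ → ℝ, (∀ n m, 0 ≤ D n m) ∧
      (∀ n m, Disjoint (tr n F) (tr m F) → M (tr n F ∪ tr m F) = D n m) ∧
      Tendsto (fun N : ℕ => (∑ n ∈ Finset.range N, ∑ m ∈ Finset.range N, D n m) / (N : ℝ) ^ 2)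
        atTop (𝓝 (M F ^ 2))) :
    ∃ ν : Measure (ℕ → Bool), IsProbabilityMeasure ν ∧ MeasurePreserving S ν ν ∧
      IsErgodicSystem ν S ∧ ∀ F, ν.real (C F) = M F := by
  obtain ⟨ν, hν, hM⟩ := exists_limit νs M h
  have hS : MeasurePreserving S ν ν := by
    refine ⟨measurable_S, ext_C _ _ fun F => ?_⟩
    rw [Measure.map_apply measurable_S (meas_C F)]
    have h1 : S ⁻¹' C F = C (tr 1 F) := by simpa using preimage_C 1 F
    rw [h1]
    refine (ENNReal.toReal_eq_toReal_iff' (measure_ne_top _ _) (measure_ne_top _ _)).1 ?_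
    have h2 := hM (tr 1 F)
    have h3 := hM F
    simp only [Measure.real] at h2 h3
    rw [h2, h3, hsh]
  refine ⟨ν, hν, hS, ergodic_of ν hS fun F η hη => ?_, hM⟩
  obtain ⟨D, hD0, hDM, hD⟩ := herg F
  set K := F.sup id with hK
  have hb : ∀ n m, ν.real (C (tr n F) ∩ C (tr m F)) ≤
      D n m + if m ∈ Finset.Icc (n - K) (n + K) then 1 else 0 := by
    intro n m
    by_cases hd : Disjoint (tr n F) (tr m F)
    · rw [← C_union, hM, hDM n m hd]
      split_ifs <;> simp
    · rw [Finset.not_disjoint_iff] at hd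
      obtain ⟨x, hx1, hx2⟩ := hd
      simp only [tr, Finset.mem_image] at hx1 hx2
      obtain ⟨a, ha, rfl⟩ := hx1
      obtain ⟨b, hb, hab⟩ := hx2
      have h1 : a ≤ K := Finset.le_sup (f := id) ha
      have h2 : b ≤ K := Finset.le_sup (f := id) hb
      rw [if_pos (by rw [Finset.mem_Icc]; omega)]
      have : ν.real (C (tr n F) ∩ C (tr m F)) ≤ 1 := measureReal_le_one
      linarith [hD0 n m]
  have hc : ∀ N n : ℕ, ∑ m ∈ Finset.range N,
      (if m ∈ Finset.Icc (n - K) (n + K) then (1 : ℝ) else 0) ≤ 2 * K + 1 := by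
    intro N n
    rw [Finset.sum_boole]
    have : ((Finset.range N).filter fun m => m ∈ Finset.Icc (n - K) (n + K)).card ≤ 2 * K + 1 := by
      refine le_trans (Finset.card_le_card (t := Finset.Icc (n - K) (n + K)) ?_) ?_
      · intro m hm
        exact (Finset.mem_filter.1 hm).2
      · rw [Nat.card_Icc]; omega
    exact_mod_cast this
  have h1 : ∀ᶠ N : ℕ in atTop,
      (∑ n ∈ Finset.range N, ∑ m ∈ Finset.range N, D n m) / (N : ℝ) ^ 2 < M F ^ 2 + η / 2 :=
    hD.eventually (gt_mem_nhds (by linarith))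
  have h2 : ∀ᶠ N : ℕ in atTop, (2 * K + 1 : ℝ) / (N : ℝ) < η / 2 :=
    (tendsto_const_div_atTop_nhds_zero_nat _).eventually (gt_mem_nhds (by linarith))
  obtain ⟨N, hN1, hN2, hN⟩ := (h1.and (h2.and (eventually_gt_atTop 0))).exists
  have hN' : (0 : ℝ) < N := by exact_mod_cast hN
  refine ⟨N, hN, ?_⟩
  rw [div_lt_iff₀ (by positivity)] at hN1 hN2
  calc ∑ n ∈ Finset.range N, ∑ m ∈ Finset.range N, ν.real (C (tr n F) ∩ C (tr m F))
      ≤ ∑ n ∈ Finset.range N, (∑ m ∈ Finset.range N, D n m + (2 * K + 1)) := by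
        refine Finset.sum_le_sum fun n _ => ?_
        refine le_trans (Finset.sum_le_sum fun m _ => hb n m) ?_
        rw [Finset.sum_add_distrib]
        linarith [hc N n]
    _ = ∑ n ∈ Finset.range N, ∑ m ∈ Finset.range N, D n m + N * (2 * K + 1) := by
        rw [Finset.sum_add_distrib]; simp; ring
    _ ≤ _ := by
        rw [hM]
        nlinarith

lemma bern {Ω : Type*} [MeasurableSpace Ω] (P : Measure Ω) [IsProbabilityMeasure P]
    (f : ℕ → Ω → ℝ) (hf : ∀ j, Measurable (f j)) (h0 : ∀ j ω, 0 ≤ f j ω) (h1 : ∀ j ω, f j ω ≤ 1) :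
    ∃ ν : Measure (ℕ → Bool), IsProbabilityMeasure ν ∧
      ∀ F, ν.real (C F) = ∫ ω, ∏ j ∈ F, f j ω ∂P := by
  let u : Measure ℝ := volume.restrict (Set.Ico (0 : ℝ) 1)
  haveI : IsProbabilityMeasure u := ⟨by simp [u]⟩
  let U : Measure (ℕ → ℝ) := Measure.infinitePi fun _ => u
  let W : Ω × (ℕ → ℝ) → ℕ → Bool := fun p j => decide (p.2 j < f j p.1)
  have hW : Measurable W := by
    refine measurable_pi_lambda _ fun j => measurable_to_bool ?_
    have : (fun p : Ω × (ℕ → ℝ) => W p j) ⁻¹' {true} = {p | p.2 j < f j p.1} := by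
      ext p; simp [W]
    rw [this]
    exact measurableSet_lt (by fun_prop) ((hf j).comp measurable_fst)
  refine ⟨(P.prod U).map W, Measure.isProbabilityMeasure_map hW.aemeasurable, fun F => ?_⟩
  have hu : ∀ t : ℝ, 0 ≤ t → t ≤ 1 → u (Set.Iio t) = ENNReal.ofReal t := by
    intro t ht0 ht1
    simp only [u]
    rw [Measure.restrict_apply measurableSet_Iio]
    have : Set.Iio t ∩ Set.Ico 0 1 = Set.Ico 0 t := by
      ext x
      simp only [Set.mem_inter_iff, Set.mem_Iio, Set.mem_Ico]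
      constructor
      · rintro ⟨a, b, _⟩; exact ⟨b, a⟩
      · rintro ⟨a, b⟩; exact ⟨b, a, lt_of_lt_of_le b ht1⟩
    rw [this]; simp
  have hsec : ∀ ω, U (Prod.mk ω ⁻¹' (W ⁻¹' C F)) = ENNReal.ofReal (∏ j ∈ F, f j ω) := by
    intro ω
    have : Prod.mk ω ⁻¹' (W ⁻¹' C F) = Set.pi F fun j => Set.Iio (f j ω) := by
      ext x; simp [W, C]
    rw [this, Measure.infinitePi_pi _ fun _ _ => measurableSet_Iio,
      ENNReal.ofReal_prod_of_nonneg fun j _ => h0 j ω]
    exact Finset.prod_congr rfl fun j _ => hu _ (h0 j ω) (h1 j ω)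
  rw [Measure.real, Measure.map_apply hW (meas_C F), Measure.prod_apply (hW (meas_C F))]
  simp_rw [hsec]
  rw [integral_eq_lintegral_of_nonneg_ae]
  · exact Eventually.of_forall fun ω => Finset.prod_nonneg fun j _ => h0 j ω
  · exact (Finset.measurable_prod _ fun j _ => hf j).aestronglyMeasurable

end Pool.Agent.H142Z.Nice
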