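import Pool.Agent.H142Z.Nice2

set_option autoImplicit false

open MeasureTheory Filter Topology Complex ProbabilityTheory
open scoped Matrix ComplexConjugate

namespace Pool.Agent.H142Z.Nice

/-- Cesaro mean of powers -/
noncomputable def av (z : ℂ) (N : ℕ) : ℂ := (∑ l ∈ Finset.range N, z ^ l) / N

lemma av_norm {z : ℂ} (hz : ‖z‖ = 1) (N : ℕ) : ‖av z N‖ ≤ 1 := by
  unfold av
  rcases Nat.eq_zero_or_pos N with rfl | hN
  · simp
  · have hN' : (0 : ℝ) < N := by exact_mod_cast hN
    rw [norm_div, Complex.norm_natCast, div_le_one hN']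
    refine (norm_sum_le _ _).trans ?_
    simp [hz]

open Classical in
lemma av_tendsto {z : ℂ} (hz : ‖z‖ = 1) :
    Tendsto (av z) atTop (𝓝 (if z = 1 then 1 else 0)) := by
  split_ifs with h
  · subst h
    refine tendsto_const_nhds.congr' ?_
    filter_upwards [eventually_gt_atTop 0] with N hN
    have : (N : ℂ) ≠ 0 := by exact_mod_cast hN.ne'
    simp [av, this]
  · rw [tendsto_zero_iff_norm_tendsto_zero]
    refine squeeze_zero (fun _ => norm_nonneg _) (fun N => ?_)
      (tendsto_const_div_atTop_nhds_zero_nat (2 / ‖z - 1‖))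
    unfold av
    rw [geom_sum_eq h, norm_div, norm_div, Complex.norm_natCast]
    gcongr
    refine (norm_sub_le _ _).trans ?_
    simp [hz]; norm_num

/-- point of the circle -/
noncomputable def cs (θ : ℝ) : ℂ := cexp (θ * I)

lemma norm_cs (θ : ℝ) : ‖cs θ‖ = 1 := Complex.norm_exp_ofReal_mul_I θ

lemma cont_cs : Continuous cs := by unfold cs; fun_prop

lemma cs_pow (θ : ℝ) (n : ℕ) : cs θ ^ n = cs (n * θ) := by
  unfold cs
  rw [← Complex.exp_nat_mul]; congr 1; push_cast; ring

lemma cs_re (θ : ℝ) : (cs θ).re = Real.cos θ := Complex.exp_ofReal_mul_I_re θ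

lemma cs_im (θ : ℝ) : (cs θ).im = Real.sin θ := Complex.exp_ofReal_mul_I_im θ

lemma cs_add (a b : ℝ) : cs (a + b) = cs a * cs b := by
  unfold cs
  rw [← Complex.exp_add]; congr 1; push_cast; ring

lemma cs_zero : cs 0 = 1 := by simp [cs]

lemma cs_conj (a : ℝ) : conj (cs a) = cs (-a) := by
  unfold cs
  rw [← Complex.exp_conj]; congr 1; simp

/-- trigonometric polynomial of a finitely supported real sequence -/
noncomputable def hat (t : ℕ →₀ ℝ) (θ : ℝ) : ℂ :=
  Finsupp.linearCombination ℝ (fun j : ℕ => cs θ ^ j) t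

/-- pairing -/
noncomputable def pair (t : ℕ →₀ ℝ) (x : ℕ → ℝ) : ℝ := Finsupp.linearCombination ℝ x t

/-- quadratic form -/
noncomputable def Q (σ : Measure ℝ) (t : ℕ →₀ ℝ) : ℝ := ∫ θ, ‖hat t θ‖ ^ 2 ∂σ

lemma cont_hat (t : ℕ →₀ ℝ) : Continuous (hat t) := by
  unfold hat
  simp only [Finsupp.linearCombination_apply, Finsupp.sum]
  exact continuous_finset_sum _ fun j _ => (cont_cs.pow j).const_smul _

lemma hat_bound (t : ℕ →₀ ℝ) : ∃ K : ℝ, ∀ θ, ‖hat t θ‖ ≤ K := by
  refine ⟨∑ j ∈ t.support, |t j|, fun θ => ?_⟩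
  unfold hat
  simp only [Finsupp.linearCombination_apply, Finsupp.sum]
  refine (norm_sum_le _ _).trans (Finset.sum_le_sum fun j _ => ?_)
  simp [norm_cs]

lemma meas_pair (t : ℕ →₀ ℝ) : Measurable (pair t) := by
  unfold pair
  simp only [Finsupp.linearCombination_apply, Finsupp.sum]
  fun_prop

lemma normsq_sum {ι : Type*} (s : Finset ι) (v : ι → ℝ) (a : ι → ℝ) :
    ‖∑ j ∈ s, (v j : ℂ) * cs (a j)‖ ^ 2 =
      ∑ i ∈ s, ∑ j ∈ s, v i * v j * Real.cos (a i - a j) := by
  rw [Complex.sq_norm, Complex.normSq_apply, Complex.re_sum, Complex.im_sum,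
    Finset.sum_mul_sum, Finset.sum_mul_sum, ← Finset.sum_add_distrib]
  refine Finset.sum_congr rfl fun i _ => ?_
  rw [← Finset.sum_add_distrib]
  refine Finset.sum_congr rfl fun j _ => ?_
  simp only [Complex.re_ofReal_mul, Complex.im_ofReal_mul, cs_re, cs_im, Real.cos_sub]
  ring

lemma int_cos (σ : Measure ℝ) [IsFiniteMeasure σ] (k : ℝ) :
    Integrable (fun θ => Real.cos (k * θ)) σ :=
  Integrable.of_bound (by fun_prop) 1 (Eventually.of_forall fun θ => Real.abs_cos_le_one _)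

lemma quad (σ : Measure ℝ) [IsFiniteMeasure σ] (L : ℕ) (v : Fin L → ℝ) :
    v ⬝ᵥ (Matrix.of fun i j : Fin L => ∫ θ, Real.cos (((i : ℕ) - (j : ℕ) : ℝ) * θ) ∂σ) *ᵥ v =
      ∫ θ, ‖∑ j : Fin L, (v j : ℂ) * cs ((j : ℕ) * θ)‖ ^ 2 ∂σ := by
  simp_rw [normsq_sum, ← sub_mul]
  rw [integral_finset_sum _ fun i _ =>
    integrable_finset_sum _ fun j _ => (int_cos σ _).const_mul _]
  simp only [dotProduct, Matrix.mulVec, Matrix.of_apply, Finset.mul_sum]
  refine Finset.sum_congr rfl fun i _ => ?_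
  rw [integral_finset_sum _ fun j _ => (int_cos σ _).const_mul _]
  refine Finset.sum_congr rfl fun j _ => ?_
  rw [integral_const_mul]; ring

lemma gauss (σ : Measure ℝ) [IsFiniteMeasure σ] (L : ℕ) :
    ∃ P : Measure (ℕ → ℝ), IsProbabilityMeasure P ∧ ∀ t : ℕ →₀ ℝ,
      t.support ⊆ Finset.range L → ∫ x, cs (pair t x) ∂P = cexp (-(Q σ t / 2 : ℝ)) := by
  set Sm : Matrix (Fin L) (Fin L) ℝ :=
    Matrix.of fun i j : Fin L => ∫ θ, Real.cos (((i : ℕ) - (j : ℕ) : ℝ) * θ) ∂σ with hSm
  have hP : Sm.PosSemidef := by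
    refine Matrix.PosSemidef.of_dotProduct_mulVec_nonneg ?_ fun v => ?_
    · ext i j
      simp only [hSm, Matrix.conjTranspose_apply, Matrix.of_apply, star_trivial]
      congr 1; ext θ
      rw [← Real.cos_neg]; congr 1; ring
    · rw [star_trivial, hSm, quad]
      exact integral_nonneg fun θ => sq_nonneg _
  let ex : EuclideanSpace ℝ (Fin L) → ℕ → ℝ := fun x j => if h : j < L then x ⟨j, h⟩ else 0
  have hex : Measurable ex := by
    refine measurable_pi_lambda _ fun j => ?_
    by_cases h : j < L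
    · simp only [ex, h, dif_pos]; fun_prop
    · simp only [ex, h, dif_neg, not_false_eq_true]; fun_prop
  refine ⟨(multivariateGaussian 0 Sm).map ex, Measure.isProbabilityMeasure_map hex.aemeasurable,
    fun t ht => ?_⟩
  have hsup : t ∈ Finsupp.supported ℝ ℝ (↑(Finset.range L) : Set ℕ) := by
    rw [Finsupp.mem_supported]; exact_mod_cast ht
  let v : EuclideanSpace ℝ (Fin L) := WithLp.toLp 2 fun j => t j
  rw [integral_map (f := fun x => cs (pair t x)) hex.aemeasurable
    (cont_cs.measurable.comp (meas_pair t)).aestronglyMeasurable]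
  have h1 : ∀ x, pair t (ex x) = inner ℝ x v := by
    intro x
    unfold pair
    rw [Finsupp.linearCombination_apply_of_mem_supported ℝ hsup, Finset.sum_range]
    simp [ex, v, PiLp.inner_apply]
  have h2 := charFun_multivariateGaussian (μ := 0) hP v
  rw [charFun_apply] at h2
  simp only [h1, cs]
  rw [h2, hSm, quad]
  congr 1
  have h3 : ∀ θ, ∑ j : Fin L, ((v j : ℝ) : ℂ) * cs ((j : ℕ) * θ) = hat t θ := by
    intro θ
    unfold hat
    rw [Finsupp.linearCombination_apply_of_mem_supported ℝ hsup, Finset.sum_range]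
    simp [v, cs_pow]
  simp only [h3, Q]
  simp

/-- elementary functions -/
noncomputable def el (z : ℂ) (t : ℕ →₀ ℝ) (p : ℕ × (ℕ → ℝ)) : ℂ := z ^ p.1 * cs (pair t p.2)

open Classical in
/-- their means -/
noncomputable def mn (σ : Measure ℝ) (z : ℂ) (t : ℕ →₀ ℝ) : ℂ :=
  (if z = 1 then 1 else 0) * cexp (-(Q σ t / 2 : ℝ))

lemma exists_spaces (σ : Measure ℝ) [IsFiniteMeasure σ] :
    ∃ P : ℕ → Measure (ℕ × (ℕ → ℝ)), (∀ L, IsProbabilityMeasure (P L)) ∧
      ∀ (z : ℂ) (t : ℕ →₀ ℝ), ‖z‖ = 1 →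
        Tendsto (fun L => ∫ p, el z t p ∂(P L)) atTop (𝓝 (mn σ z t)) := by
  choose G hG1 hG2 using gauss σ
  let u : ℕ → Measure ℕ := fun L =>
    ((L + 1 : ℕ) : ENNReal)⁻¹ • ∑ l ∈ Finset.range (L + 1), Measure.dirac l
  have hu : ∀ L, IsProbabilityMeasure (u L) := by
    intro L
    refine ⟨?_⟩
    simp only [u, Measure.smul_apply, Measure.coe_finset_sum, Finset.sum_apply, measure_univ,
      Finset.sum_const, Finset.card_range, nsmul_eq_mul, mul_one, smul_eq_mul]
    exact ENNReal.inv_mul_cancel (by simp) (by simp)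
  have hi : ∀ L (z : ℂ), ∫ l, z ^ l ∂(u L) = av z (L + 1) := by
    intro L z
    simp only [u]
    rw [integral_smul_measure, integral_finset_sum_measure fun l _ => integrable_dirac (by simp)]
    simp only [integral_dirac, av]
    rw [ENNReal.toReal_inv, ENNReal.toReal_natCast, Complex.real_smul]
    push_cast; ring
  refine ⟨fun L => (u L).prod (G L), fun L => inferInstance, fun z t hz => ?_⟩
  have h1 : ∀ᶠ L in atTop, t.support ⊆ Finset.range L := by
    filter_upwards [eventually_gt_atTop (t.support.sup id)] with L hL j hj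
    exact Finset.mem_range.2 (lt_of_le_of_lt (Finset.le_sup (f := id) hj) hL)
  have h2 := ((av_tendsto hz).comp (tendsto_add_atTop_nat 1)).mul_const (cexp (-(Q σ t / 2 : ℝ)))
  refine h2.congr' ?_
  filter_upwards [h1] with L hL
  simp only [el]
  rw [integral_prod_mul (fun l : ℕ => z ^ l) fun x => cs (pair t x), hi, hG2 L t hL]
  rfl

end Pool.Agent.H142Z.Nice
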