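import Pool.Agent.H142Z.Nice3

set_option autoImplicit false

open MeasureTheory Filter Topology Complex
open scoped ComplexConjugate

namespace Pool.Agent.H142Z.Nice

lemma int_bdd {α : Type*} [MeasurableSpace α] [TopologicalSpace α] [OpensMeasurableSpace α]
    (μ : Measure α) [IsFiniteMeasure μ] {f : α → ℂ} (hf : Continuous f) (K : ℝ)
    (hK : ∀ x, ‖f x‖ ≤ K) : Integrable f μ :=
  Integrable.of_bound hf.measurable.aestronglyMeasurable K (Eventually.of_forall hK)

lemma cont_av (N : ℕ) : Continuous fun z => av z N := by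
  unfold av; fun_prop

lemma wiener (σ : Measure ℝ) [IsFiniteMeasure σ] (hσ : ∀ᵐ p ∂(σ.prod σ), cs p.1 ≠ cs p.2)
    (u : ℝ → ℂ) (hu : Continuous u) (K : ℝ) (hK : ∀ θ, ‖u θ‖ ≤ K) :
    Tendsto (fun N : ℕ => (∑ n ∈ Finset.range N, ∑ m ∈ Finset.range N,
      ‖∫ θ, u θ * cs θ ^ n * conj (cs θ) ^ m ∂σ‖ ^ 2) / (N : ℝ) ^ 2) atTop (𝓝 0) := by
  have hK0 : 0 ≤ K := (norm_nonneg _).trans (hK 0)
  have hc := cont_cs
  let a : ℝ × ℝ → ℂ := fun p => cs p.1 * conj (cs p.2)
  let b : ℝ × ℝ → ℂ := fun p => conj (cs p.1) * cs p.2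
  let w : ℝ × ℝ → ℂ := fun p => u p.1 * conj (u p.2)
  have ha : ∀ p, ‖a p‖ = 1 := fun p => by simp [a, norm_cs]
  have hb : ∀ p, ‖b p‖ = 1 := fun p => by simp [b, norm_cs]
  have hw : ∀ p, ‖w p‖ ≤ K * K := fun p => by
    simp only [w, norm_mul, Complex.norm_conj]
    exact mul_le_mul (hK _) (hK _) (norm_nonneg _) hK0
  have hac : Continuous a := by simp only [a]; fun_prop
  have hbc : Continuous b := by simp only [b]; fun_prop
  have hwc : Continuous w := by simp only [w]; fun_prop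
  have h1 : ∀ n m : ℕ, ((‖∫ θ, u θ * cs θ ^ n * conj (cs θ) ^ m ∂σ‖ ^ 2 : ℝ) : ℂ) =
      ∫ p, w p * a p ^ n * b p ^ m ∂(σ.prod σ) := by
    intro n m
    push_cast
    rw [← Complex.mul_conj', ← integral_conj, ← integral_prod_mul]
    congr 1; ext p
    simp only [w, a, b, map_mul, map_pow, Complex.conj_conj, mul_pow]
    ring
  have hint : ∀ n m : ℕ, Integrable (fun p => w p * a p ^ n * b p ^ m) (σ.prod σ) := by
    intro n m
    refine int_bdd _ (by fun_prop) (K * K) fun p => ?_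
    simpa [ha, hb] using hw p
  have h2 : ∀ N : ℕ, (((∑ n ∈ Finset.range N, ∑ m ∈ Finset.range N,
      ‖∫ θ, u θ * cs θ ^ n * conj (cs θ) ^ m ∂σ‖ ^ 2) / (N : ℝ) ^ 2 : ℝ) : ℂ) =
      ∫ p, w p * av (a p) N * av (b p) N ∂(σ.prod σ) := by
    intro N
    rw [Complex.ofReal_div, Complex.ofReal_sum]
    simp_rw [Complex.ofReal_sum, h1]
    simp_rw [← integral_finset_sum _ fun m _ => hint _ m]
    rw [← integral_finset_sum _ fun n _ => integrable_finset_sum _ fun m _ => hint n m,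
      ← integral_div]
    congr 1; ext p
    simp only [av]
    rw [← Finset.sum_mul_sum, ← Finset.mul_sum]
    push_cast; ring
  have h3 : Tendsto (fun N : ℕ => ∫ p, w p * av (a p) N * av (b p) N ∂(σ.prod σ)) atTop
      (𝓝 (∫ _p, (0 : ℂ) ∂(σ.prod σ))) := by
    refine tendsto_integral_of_dominated_convergence (fun _ => K * K) (fun N => ?_)
      (integrable_const _) (fun N => Eventually.of_forall fun p => ?_) ?_
    · exact ((hwc.mul ((cont_av N).comp hac)).mul
        ((cont_av N).comp hbc)).measurable.aestronglyMeasurable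
    · rw [norm_mul, norm_mul]
      have := av_norm (ha p) N
      have := av_norm (hb p) N
      have := hw p
      calc ‖w p‖ * ‖av (a p) N‖ * ‖av (b p) N‖ ≤ K * K * 1 * 1 := by gcongr
        _ = K * K := by ring
    · filter_upwards [hσ] with p hp
      have hne : a p ≠ 1 := by
        intro h
        apply hp
        have h4 : conj (cs p.2) * cs p.2 = 1 := by
          rw [Complex.conj_mul', norm_cs]; simp
        calc cs p.1 = cs p.1 * (conj (cs p.2) * cs p.2) := by rw [h4, mul_one]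
          _ = a p * cs p.2 := by simp only [a]; ring
          _ = cs p.2 := by rw [h, one_mul]
      have := ((av_tendsto (ha p)).const_mul (w p)).mul (av_tendsto (hb p))
      simpa [hne] using this
  rw [integral_zero] at h3
  simp_rw [← h2] at h3
  have h4 := (Complex.continuous_re.tendsto _).comp h3
  exact h4

lemma abs_exp_sub (s K : ℝ) (h : |s| ≤ K) : |Real.exp s - 1| ≤ Real.exp K * |s| := by
  have h1 := Real.add_one_le_exp s
  have h2 := Real.add_one_le_exp (-s)
  have h3 : Real.exp s * Real.exp (-s) = 1 := by rw [← Real.exp_add]; simp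
  have h4 := Real.exp_pos s
  have h5 : Real.exp s ≤ Real.exp K := Real.exp_le_exp.2 ((le_abs_self s).trans h)
  have h6 : 1 ≤ Real.exp K := Real.one_le_exp ((abs_nonneg s).trans h)
  rw [abs_le]
  constructor
  · nlinarith [neg_abs_le s, abs_nonneg s]
  · nlinarith [le_abs_self s, abs_nonneg s]

lemma avg_exp (y : ℕ → ℕ → ℝ) (K : ℝ) (hK : ∀ n m, |y n m| ≤ K)
    (h : Tendsto (fun N : ℕ => (∑ n ∈ Finset.range N, ∑ m ∈ Finset.range N, y n m ^ 2) /
      (N : ℝ) ^ 2) atTop (𝓝 0)) :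
    Tendsto (fun N : ℕ => (∑ n ∈ Finset.range N, ∑ m ∈ Finset.range N,
      |Real.exp (y n m) - 1|) / (N : ℝ) ^ 2) atTop (𝓝 0) := by
  have h1 := (h.sqrt).const_mul (Real.exp K)
  rw [Real.sqrt_zero, mul_zero] at h1
  refine squeeze_zero (fun N => by positivity) (fun N => ?_) h1
  have h2 : (∑ n ∈ Finset.range N, ∑ m ∈ Finset.range N, |y n m|) / (N : ℝ) ^ 2 ≤
      √((∑ n ∈ Finset.range N, ∑ m ∈ Finset.range N, y n m ^ 2) / (N : ℝ) ^ 2) := by
    apply Real.le_sqrt_of_sq_le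
    rcases Nat.eq_zero_or_pos N with rfl | hN
    · simp
    have hN' : (0 : ℝ) < N := by exact_mod_cast hN
    have := sq_sum_le_card_mul_sum_sq (s := Finset.range N ×ˢ Finset.range N)
      (f := fun p => |y p.1 p.2|)
    simp only [Finset.sum_product, sq_abs, Finset.card_product, Finset.card_range,
      Nat.cast_mul] at this
    rw [div_pow, div_le_div_iff₀ (by positivity) (by positivity)]
    nlinarith [mul_le_mul_of_nonneg_right this (sq_nonneg (N : ℝ))]
  calc _ ≤ (∑ n ∈ Finset.range N, ∑ m ∈ Finset.range N, Real.exp K * |y n m|) / (N : ℝ) ^ 2 := by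
        gcongr with n _ m _
        exact abs_exp_sub _ _ (hK n m)
    _ = Real.exp K * ((∑ n ∈ Finset.range N, ∑ m ∈ Finset.range N, |y n m|) / (N : ℝ) ^ 2) := by
        simp_rw [← Finset.mul_sum]; ring
    _ ≤ _ := by gcongr

/-- shift of a finitely supported sequence -/
noncomputable def st (n : ℕ) (t : ℕ →₀ ℝ) : ℕ →₀ ℝ := Finsupp.mapDomain (· + n) t

lemma hat_st (n : ℕ) (t : ℕ →₀ ℝ) (θ : ℝ) : hat (st n t) θ = hat t θ * cs θ ^ n := by
  unfold hat st
  rw [Finsupp.linearCombination_mapDomain]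
  simp only [Finsupp.linearCombination_apply, Finsupp.sum, Finset.sum_mul, Function.comp, pow_add,
    smul_mul_assoc]

lemma pair_st (n : ℕ) (t : ℕ →₀ ℝ) (x : ℕ → ℝ) :
    pair (st n t) x = pair t fun j => x (j + n) := by
  unfold pair st
  rw [Finsupp.linearCombination_mapDomain]
  rfl

lemma Q_st (σ : Measure ℝ) (n : ℕ) (t : ℕ →₀ ℝ) : Q σ (st n t) = Q σ t := by
  simp [Q, hat_st, norm_cs]

lemma hat_add (t t' : ℕ →₀ ℝ) (θ : ℝ) : hat (t + t') θ = hat t θ + hat t' θ := map_add _ _ _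

lemma int_hat (σ : Measure ℝ) [IsFiniteMeasure σ] (t t' : ℕ →₀ ℝ) :
    Integrable (fun θ => hat t θ * conj (hat t' θ)) σ := by
  obtain ⟨K, hK⟩ := hat_bound t
  obtain ⟨K', hK'⟩ := hat_bound t'
  have := cont_hat t
  have := cont_hat t'
  refine int_bdd _ (by fun_prop) (K * K') fun θ => ?_
  rw [norm_mul, Complex.norm_conj]
  exact mul_le_mul (hK _) (hK' _) (norm_nonneg _) ((norm_nonneg _).trans (hK θ))

lemma int_hat_sq (σ : Measure ℝ) [IsFiniteMeasure σ] (t : ℕ →₀ ℝ) :
    Integrable (fun θ => ‖hat t θ‖ ^ 2) σ := by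
  have := (int_hat σ t t).norm
  simpa [sq] using this

lemma Q_add (σ : Measure ℝ) [IsFiniteMeasure σ] (t t' : ℕ →₀ ℝ) :
    Q σ (t + t') = Q σ t + Q σ t' + 2 * (∫ θ, hat t θ * conj (hat t' θ) ∂σ).re := by
  have h1 : (∫ θ, hat t θ * conj (hat t' θ) ∂σ).re = ∫ θ, (hat t θ * conj (hat t' θ)).re ∂σ :=
    (integral_re (𝕜 := ℂ) (int_hat σ t t')).symm
  have h2 : Integrable (fun θ => (hat t θ * conj (hat t' θ)).re) σ := (int_hat σ t t').re
  rw [h1]
  unfold Q
  have h3 : Integrable (fun θ => ‖hat t θ‖ ^ 2 + ‖hat t' θ‖ ^ 2) σ :=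
    (int_hat_sq σ t).add (int_hat_sq σ t')
  rw [← integral_add (int_hat_sq σ t) (int_hat_sq σ t'), ← integral_const_mul,
    ← integral_add h3 (h2.const_mul 2)]
  congr 1; ext θ
  simp only [hat_add, Complex.sq_norm, Complex.normSq_add]

lemma gen_erg (σ : Measure ℝ) [IsFiniteMeasure σ] (hσ : ∀ᵐ p ∂(σ.prod σ), cs p.1 ≠ cs p.2)
    {z z' : ℂ} (hz : ‖z‖ = 1) (hz' : ‖z'‖ = 1) (t t' : ℕ →₀ ℝ) :
    Tendsto (fun N : ℕ => (∑ n ∈ Finset.range N, ∑ m ∈ Finset.range N,
      z ^ n * z' ^ m * mn σ (z * z') (st n t + st m t')) / (N : ℂ) ^ 2) atTop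
      (𝓝 (mn σ z t * mn σ z' t')) := by
  classical
  obtain ⟨K, hK⟩ := hat_bound t
  obtain ⟨K', hK'⟩ := hat_bound t'
  let u : ℝ → ℂ := fun θ => hat t θ * conj (hat t' θ)
  have huc : Continuous u := by
    have := cont_hat t
    have := cont_hat t'
    simp only [u]; fun_prop
  have hub : ∀ θ, ‖u θ‖ ≤ K * K' := fun θ => by
    simp only [u]
    rw [norm_mul, Complex.norm_conj]
    exact mul_le_mul (hK _) (hK' _) (norm_nonneg _) ((norm_nonneg _).trans (hK θ))
  let Y : ℕ → ℕ → ℂ := fun n m => ∫ θ, u θ * cs θ ^ n * conj (cs θ) ^ m ∂σ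
  let y : ℕ → ℕ → ℝ := fun n m => -(Y n m).re
  have hy : ∀ n m, |y n m| ≤ ‖Y n m‖ := fun n m => by
    simp only [y, abs_neg]; exact Complex.abs_re_le_norm _
  have hY : ∀ n m, ‖Y n m‖ ≤ K * K' * σ.real Set.univ := fun n m =>
    norm_integral_le_of_norm_le_const (Eventually.of_forall fun θ => by
      simpa [norm_cs] using hub θ)
  have hw := wiener σ hσ u huc _ hub
  have hy2 : Tendsto (fun N : ℕ => (∑ n ∈ Finset.range N, ∑ m ∈ Finset.range N, y n m ^ 2) /
      (N : ℝ) ^ 2) atTop (𝓝 0) := by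
    refine squeeze_zero (fun N => by positivity) (fun N => ?_) hw
    refine div_le_div_of_nonneg_right (Finset.sum_le_sum fun n _ => Finset.sum_le_sum
      fun m _ => ?_) (by positivity)
    exact sq_le_sq' (abs_le.1 (hy n m)).1 (abs_le.1 (hy n m)).2
  have he := avg_exp y _ (fun n m => (hy n m).trans (hY n m)) hy2
  set c : ℂ := (if z * z' = 1 then 1 else 0) * cexp (-(Q σ t / 2 : ℝ)) * cexp (-(Q σ t' / 2 : ℝ))
    with hc
  have hD : ∀ n m, mn σ (z * z') (st n t + st m t') = c * (Real.exp (y n m) : ℝ) := by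
    intro n m
    have h1 : ∫ θ, hat (st n t) θ * conj (hat (st m t') θ) ∂σ = Y n m := by
      simp only [Y, u, hat_st, map_mul, map_pow]
      congr 1; ext θ; ring
    rw [mn, Q_add, Q_st, Q_st, h1, hc, Complex.ofReal_exp, mul_assoc, mul_assoc,
      ← Complex.exp_add, ← Complex.exp_add]
    congr 2
    simp only [y]
    push_cast; ring
  have hA := ((av_tendsto hz).mul (av_tendsto hz')).const_mul c
  have hB : Tendsto (fun N : ℕ => (∑ n ∈ Finset.range N, ∑ m ∈ Finset.range N,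
      z ^ n * z' ^ m * c * ((Real.exp (y n m) - 1 : ℝ) : ℂ)) / (N : ℂ) ^ 2) atTop (𝓝 0) := by
    rw [tendsto_zero_iff_norm_tendsto_zero]
    have := he.const_mul ‖c‖
    rw [mul_zero] at this
    refine squeeze_zero (fun N => norm_nonneg _) (fun N => ?_) this
    rw [norm_div, norm_pow, Complex.norm_natCast, ← mul_div_assoc, Finset.mul_sum]
    gcongr
    refine (norm_sum_le _ _).trans (Finset.sum_le_sum fun n _ => ?_)
    rw [Finset.mul_sum]
    refine (norm_sum_le _ _).trans (Finset.sum_le_sum fun m _ => ?_)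
    rw [norm_mul, norm_mul, norm_mul, norm_pow, norm_pow, hz, hz', Complex.norm_real]
    simp
  have hlim : c * ((if z = 1 then 1 else 0) * if z' = 1 then 1 else 0) + 0 =
      mn σ z t * mn σ z' t' := by
    rw [hc, mn, mn]
    by_cases h1 : z = 1 <;> by_cases h2 : z' = 1 <;> simp [h1, h2]
  rw [← hlim]
  refine (hA.add hB).congr fun N => ?_
  simp only [av, hD]
  rw [div_mul_div_comm, Finset.sum_mul_sum, ← mul_div_assoc, ← sq, ← add_div, Finset.mul_sum,
    ← Finset.sum_add_distrib]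
  congr 1
  refine Finset.sum_congr rfl fun n _ => ?_
  rw [Finset.mul_sum, ← Finset.sum_add_distrib]
  refine Finset.sum_congr rfl fun m _ => ?_
  push_cast; ring

end Pool.Agent.H142Z.Nice
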