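import Pool.Agent.H142Z.Nice4

set_option autoImplicit false

open MeasureTheory Filter Topology Complex
open scoped ComplexConjugate

namespace Pool.Agent.H142Z.Nice

/-- sample space -/
abbrev Om : Type := ℕ × (ℕ → ℝ)

/-- shifted function -/
def sh {β : Type} (n : ℕ) (Φ : Om → β) : Om → β := fun p => Φ (p.1 + n, fun j => p.2 (j + n))

/-- span of the elementary functions -/
noncomputable def SS : Submodule ℂ (Om → ℂ) :=
  Submodule.span ℂ {Φ | ∃ z t, ‖z‖ = 1 ∧ Φ = el z t}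

/-- existence of the mean -/
def Good (P : ℕ → Measure Om) (Φ : Om → ℂ) (c : ℂ) : Prop :=
  (∀ L, Integrable Φ (P L)) ∧ Tendsto (fun L => ∫ p, Φ p ∂(P L)) atTop (𝓝 c)

/-- the mean -/
noncomputable def mean (P : ℕ → Measure Om) (Φ : Om → ℂ) : ℂ :=
  limUnder atTop fun L => ∫ p, Φ p ∂(P L)

lemma Good.mean_eq {P : ℕ → Measure Om} {Φ : Om → ℂ} {c : ℂ} (h : Good P Φ c) :
    mean P Φ = c := h.2.limUnder_eq

lemma Good.add {P : ℕ → Measure Om} {Φ Ψ : Om → ℂ} {c d : ℂ} (h : Good P Φ c)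
    (h' : Good P Ψ d) : Good P (Φ + Ψ) (c + d) := by
  refine ⟨fun L => (h.1 L).add (h'.1 L), (h.2.add h'.2).congr fun L => ?_⟩
  exact (integral_add (h.1 L) (h'.1 L)).symm

lemma Good.smul {P : ℕ → Measure Om} {Φ : Om → ℂ} {c : ℂ} (h : Good P Φ c) (a : ℂ) :
    Good P (a • Φ) (a * c) := by
  refine ⟨fun L => (h.1 L).smul a, (h.2.const_mul a).congr fun L => ?_⟩
  exact (integral_const_mul _ _).symm

lemma good_zero (P : ℕ → Measure Om) : Good P 0 0 :=
  ⟨fun _ => integrable_zero _ _ _, by simp⟩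

lemma el_mem {z : ℂ} (hz : ‖z‖ = 1) (t : ℕ →₀ ℝ) : el z t ∈ SS :=
  Submodule.subset_span ⟨z, t, hz, rfl⟩

lemma meas_el (z : ℂ) (t : ℕ →₀ ℝ) : Measurable (el z t) := by
  unfold el
  exact ((measurable_of_countable fun l : ℕ => z ^ l).comp measurable_fst).mul
    ((cont_cs.measurable.comp (meas_pair t)).comp measurable_snd)

lemma meas_SS {Φ : Om → ℂ} (h : Φ ∈ SS) : Measurable Φ := by
  induction h using Submodule.span_induction with
  | mem x hx => obtain ⟨z, t, -, rfl⟩ := hx; exact meas_el z t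
  | zero => exact measurable_const
  | add x y _ _ hx hy => exact hx.add hy
  | smul a x _ hx => exact hx.const_smul a

lemma sh_el (n : ℕ) (z : ℂ) (t : ℕ →₀ ℝ) : sh n (el z t) = z ^ n • el z (st n t) := by
  ext p
  simp only [sh, el, pair_st, pow_add, Pi.smul_apply, smul_eq_mul]
  ring

lemma el_mul (z z' : ℂ) (t t' : ℕ →₀ ℝ) : el z t * el z' t' = el (z * z') (t + t') := by
  ext p
  simp only [el, Pi.mul_apply, mul_pow, pair, map_add, cs_add]
  ring

lemma sh_mem (n : ℕ) {Φ : Om → ℂ} (h : Φ ∈ SS) : sh n Φ ∈ SS := by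
  induction h using Submodule.span_induction with
  | mem x hx =>
    obtain ⟨z, t, hz, rfl⟩ := hx
    rw [sh_el]; exact SS.smul_mem _ (el_mem hz _)
  | zero => exact SS.zero_mem
  | add x y _ _ hx hy => exact SS.add_mem hx hy
  | smul a x _ hx => exact SS.smul_mem a hx

lemma mul_mem_SS {Φ Ψ : Om → ℂ} (h : Φ ∈ SS) (h' : Ψ ∈ SS) : Φ * Ψ ∈ SS := by
  induction h using Submodule.span_induction with
  | mem x hx =>
    obtain ⟨z, t, hz, rfl⟩ := hx
    induction h' using Submodule.span_induction with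
    | mem y hy =>
      obtain ⟨z', t', hz', rfl⟩ := hy
      rw [el_mul]; exact el_mem (by simp [hz, hz']) _
    | zero => rw [mul_zero]; exact SS.zero_mem
    | add x y _ _ hx hy => rw [mul_add]; exact SS.add_mem hx hy
    | smul a x _ hx => rw [mul_smul_comm]; exact SS.smul_mem a hx
  | zero => rw [zero_mul]; exact SS.zero_mem
  | add x y _ _ hx hy => rw [add_mul]; exact SS.add_mem hx hy
  | smul a x _ hx => rw [smul_mul_assoc]; exact SS.smul_mem a hx

lemma el_one : el 1 0 = 1 := by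
  ext p; simp [el, pair, cs_zero]

lemma one_mem_SS : (1 : Om → ℂ) ∈ SS := el_one ▸ el_mem (by simp) 0

lemma prod_mem_SS {ι : Type} (s : Finset ι) (Φ : ι → Om → ℂ) (h : ∀ i, Φ i ∈ SS) :
    ∏ i ∈ s, Φ i ∈ SS :=
  Finset.prod_induction _ (· ∈ SS) (fun _ _ => mul_mem_SS) one_mem_SS fun i _ => h i

/-- the spaces have the prescribed means -/
def Spaces (σ : Measure ℝ) (P : ℕ → Measure Om) : Prop :=
  (∀ L, IsProbabilityMeasure (P L)) ∧ ∀ (z : ℂ) (t : ℕ →₀ ℝ), ‖z‖ = 1 →
    Tendsto (fun L => ∫ p, el z t p ∂(P L)) atTop (𝓝 (mn σ z t))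

variable {σ : Measure ℝ} {P : ℕ → Measure Om}

lemma good_el (hP : Spaces σ P) {z : ℂ} (hz : ‖z‖ = 1) (t : ℕ →₀ ℝ) :
    Good P (el z t) (mn σ z t) := by
  refine ⟨fun L => ?_, hP.2 z t hz⟩
  haveI := hP.1 L
  exact Integrable.of_bound (meas_el z t).aestronglyMeasurable 1
    (Eventually.of_forall fun p => by simp [el, hz, norm_cs])

lemma good_mean (hP : Spaces σ P) {Φ : Om → ℂ} (h : Φ ∈ SS) : Good P Φ (mean P Φ) := by
  have : ∃ c, Good P Φ c := by
    induction h using Submodule.span_induction with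
    | mem x hx => obtain ⟨z, t, hz, rfl⟩ := hx; exact ⟨_, good_el hP hz t⟩
    | zero => exact ⟨0, good_zero P⟩
    | add x y _ _ hx hy =>
      obtain ⟨c, hc⟩ := hx
      obtain ⟨d, hd⟩ := hy
      exact ⟨_, hc.add hd⟩
    | smul a x _ hx =>
      obtain ⟨c, hc⟩ := hx
      exact ⟨_, hc.smul a⟩
  obtain ⟨c, hc⟩ := this
  rwa [hc.mean_eq]

lemma mean_add (hP : Spaces σ P) {Φ Ψ : Om → ℂ} (h : Φ ∈ SS) (h' : Ψ ∈ SS) :
    mean P (Φ + Ψ) = mean P Φ + mean P Ψ := ((good_mean hP h).add (good_mean hP h')).mean_eq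

lemma mean_smul (hP : Spaces σ P) {Φ : Om → ℂ} (h : Φ ∈ SS) (a : ℂ) :
    mean P (a • Φ) = a * mean P Φ := ((good_mean hP h).smul a).mean_eq

lemma mean_zero : mean P 0 = 0 := (good_zero P).mean_eq

lemma mean_el (hP : Spaces σ P) {z : ℂ} (hz : ‖z‖ = 1) (t : ℕ →₀ ℝ) :
    mean P (el z t) = mn σ z t := (good_el hP hz t).mean_eq

lemma mean_sum (hP : Spaces σ P) {ι : Type} (s : Finset ι) (Φ : ι → Om → ℂ)
    (h : ∀ i ∈ s, Φ i ∈ SS) : mean P (∑ i ∈ s, Φ i) = ∑ i ∈ s, mean P (Φ i) := by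
  classical
  induction s using Finset.induction_on with
  | empty => simpa using mean_zero
  | insert a s ha ih =>
    rw [Finset.sum_insert ha, Finset.sum_insert ha, mean_add hP (h a (by simp))
      (SS.sum_mem fun i hi => h i (by simp [hi])), ih fun i hi => h i (by simp [hi])]

lemma mean_sh (hP : Spaces σ P) (n : ℕ) {Φ : Om → ℂ} (h : Φ ∈ SS) :
    mean P (sh n Φ) = mean P Φ := by
  induction h using Submodule.span_induction with
  | mem x hx =>
    obtain ⟨z, t, hz, rfl⟩ := hx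
    rw [sh_el, mean_smul hP (el_mem hz _), mean_el hP hz, mean_el hP hz, mn, mn, Q_st]
    split_ifs with h1 <;> simp [h1]
  | zero => rfl
  | add x y hx' hy' hx hy =>
    rw [mean_add hP hx' hy', ← hx, ← hy, ← mean_add hP (sh_mem n hx') (sh_mem n hy')]
    rfl
  | smul a x hx' hx =>
    rw [mean_smul hP hx', ← hx, ← mean_smul hP (sh_mem n hx')]
    rfl

lemma sh_add (n : ℕ) (Φ Ψ : Om → ℂ) : sh n (Φ + Ψ) = sh n Φ + sh n Ψ := rfl

lemma sh_smul (n : ℕ) (a : ℂ) (Φ : Om → ℂ) : sh n (a • Φ) = a • sh n Φ := rfl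

lemma sh_zero (n : ℕ) : sh n (0 : Om → ℂ) = 0 := rfl

lemma erg [IsFiniteMeasure σ] (hσ : ∀ᵐ p ∂(σ.prod σ), cs p.1 ≠ cs p.2) (hP : Spaces σ P)
    {Φ Ψ : Om → ℂ} (h : Φ ∈ SS) (h' : Ψ ∈ SS) :
    Tendsto (fun N : ℕ => (∑ n ∈ Finset.range N, ∑ m ∈ Finset.range N,
      mean P (sh n Φ * sh m Ψ)) / (N : ℂ) ^ 2) atTop (𝓝 (mean P Φ * mean P Ψ)) := by
  induction h using Submodule.span_induction with
  | mem x hx =>
    obtain ⟨z, t, hz, rfl⟩ := hx
    induction h' using Submodule.span_induction with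
    | mem y hy =>
      obtain ⟨z', t', hz', rfl⟩ := hy
      have hzz : ‖z * z'‖ = 1 := by simp [hz, hz']
      rw [mean_el hP hz, mean_el hP hz']
      refine (gen_erg σ hσ hz hz' t t').congr fun N => ?_
      congr 1
      refine Finset.sum_congr rfl fun n _ => Finset.sum_congr rfl fun m _ => ?_
      rw [sh_el, sh_el, smul_mul_smul_comm, el_mul, mean_smul hP (el_mem hzz _), mean_el hP hzz]
    | zero => simp [sh_zero, mean_zero]
    | add x y hx' hy' hx hy =>
      rw [mean_add hP hx' hy', mul_add]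
      refine (hx.add hy).congr fun N => ?_
      rw [← add_div, ← Finset.sum_add_distrib]
      congr 1
      refine Finset.sum_congr rfl fun n _ => ?_
      rw [← Finset.sum_add_distrib]
      refine Finset.sum_congr rfl fun m _ => ?_
      rw [sh_add, mul_add, mean_add hP (mul_mem_SS (sh_mem n (el_mem hz t)) (sh_mem m hx'))
        (mul_mem_SS (sh_mem n (el_mem hz t)) (sh_mem m hy'))]
    | smul a x hx' hx =>
      rw [mean_smul hP hx', mul_left_comm]
      refine (hx.const_mul a).congr fun N => ?_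
      rw [← mul_div_assoc, Finset.mul_sum]
      congr 1
      refine Finset.sum_congr rfl fun n _ => ?_
      rw [Finset.mul_sum]
      refine Finset.sum_congr rfl fun m _ => ?_
      rw [sh_smul, mul_smul_comm,
        mean_smul hP (mul_mem_SS (sh_mem n (el_mem hz t)) (sh_mem m hx'))]
  | zero => simp [sh_zero, mean_zero]
  | add x y hx' hy' hx hy =>
    rw [mean_add hP hx' hy', add_mul]
    refine (hx.add hy).congr fun N => ?_
    rw [← add_div, ← Finset.sum_add_distrib]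
    congr 1
    refine Finset.sum_congr rfl fun n _ => ?_
    rw [← Finset.sum_add_distrib]
    refine Finset.sum_congr rfl fun m _ => ?_
    rw [sh_add, add_mul, mean_add hP (mul_mem_SS (sh_mem n hx') (sh_mem m h'))
      (mul_mem_SS (sh_mem n hy') (sh_mem m h'))]
  | smul a x hx' hx =>
    rw [mean_smul hP hx', mul_assoc]
    refine (hx.const_mul a).congr fun N => ?_
    rw [← mul_div_assoc, Finset.mul_sum]
    congr 1
    refine Finset.sum_congr rfl fun n _ => ?_
    rw [Finset.mul_sum]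
    refine Finset.sum_congr rfl fun m _ => ?_
    rw [sh_smul, smul_mul_assoc, mean_smul hP (mul_mem_SS (sh_mem n hx') (sh_mem m h'))]

lemma real_mean (hP : Spaces σ P) {φ : Om → ℝ} {Φ : Om → ℂ} (h : Φ ∈ SS)
    (hφ : ∀ p, Φ p = φ p) :
    Tendsto (fun L => ∫ p, φ p ∂(P L)) atTop (𝓝 (mean P Φ).re) := by
  have h1 := (Complex.continuous_re.tendsto _).comp (good_mean hP h).2
  refine h1.congr fun L => ?_
  simp only [Function.comp, hφ]
  rw [integral_complex_ofReal, Complex.ofReal_re]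

lemma sh_sh {β : Type} (n j : ℕ) (Φ : Om → β) : sh n (sh j Φ) = sh (j + n) Φ := by
  ext p
  simp only [sh, add_assoc, add_comm n j]

theorem construct [IsFiniteMeasure σ] (hσ : ∀ᵐ p ∂(σ.prod σ), cs p.1 ≠ cs p.2) (hP : Spaces σ P)
    (f : Om → ℝ) (Φ : Om → ℂ) (hΦ : Φ ∈ SS) (hf : ∀ p, Φ p = f p) (h0 : ∀ p, 0 ≤ f p)
    (h1 : ∀ p, f p ≤ 1) :
    ∃ ν : Measure (ℕ → Bool), IsProbabilityMeasure ν ∧ MeasurePreserving S ν ν ∧
      IsErgodicSystem ν S ∧ ∀ F, ν.real (C F) = (mean P (∏ j ∈ F, sh j Φ)).re := by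
  have hm : ∀ j, Measurable (sh j f) := by
    intro j
    have : sh j f = fun p => (sh j Φ p).re := by
      ext p; simp [sh, hf]
    rw [this]
    exact Complex.measurable_re.comp (meas_SS (sh_mem j hΦ))
  have hb := fun L => @bern Om _ (P L) (hP.1 L) (fun j => sh j f) hm (fun j p => h0 _)
    (fun j p => h1 _)
  choose νs hν1 hν2 using hb
  let Ψ : Finset ℕ → Om → ℂ := fun F => ∏ j ∈ F, sh j Φ
  have hΨ : ∀ F, Ψ F ∈ SS := fun F => prod_mem_SS _ _ fun j => sh_mem j hΦ
  have hΨr : ∀ F p, Ψ F p = ((∏ j ∈ F, sh j f p : ℝ) : ℂ) := by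
    intro F p
    simp [Ψ, sh, hf]
  have hsh : ∀ n F, sh n (Ψ F) = Ψ (tr n F) := by
    intro n F
    ext p
    simp only [Ψ, tr]
    rw [Finset.prod_image fun a _ b _ h => by simpa using h]
    simp only [← sh_sh, Finset.prod_apply]
    simp [sh]
  refine model νs (fun F => (mean P (Ψ F)).re) (fun F => ?_) (fun F => ?_) fun F => ?_
  · simp only [hν2]
    exact real_mean hP (hΨ F) (hΨr F)
  · rw [← hsh, mean_sh hP 1 (hΨ F)]
  · refine ⟨fun n m => (mean P (sh n (Ψ F) * sh m (Ψ F))).re, fun n m => ?_, fun n m hd => ?_, ?_⟩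
    · have := real_mean hP (φ := fun p => (∏ j ∈ tr n F, sh j f p) * ∏ j ∈ tr m F, sh j f p)
        (mul_mem_SS (sh_mem n (hΨ F)) (sh_mem m (hΨ F))) (fun p => by
          rw [hsh, hsh, Pi.mul_apply, hΨr, hΨr]; push_cast; rfl)
      refine ge_of_tendsto' this fun L => integral_nonneg fun p => ?_
      exact mul_nonneg (Finset.prod_nonneg fun j _ => h0 _) (Finset.prod_nonneg fun j _ => h0 _)
    · beta_reduce
      rw [hsh, hsh]
      simp only [Ψ]
      rw [Finset.prod_union hd]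
    · have h2 := (Complex.continuous_re.tendsto _).comp (erg hσ hP (hΨ F) (hΨ F))
      have h3 : mean P (Ψ F) = ((mean P (Ψ F)).re : ℂ) := by
        refine tendsto_nhds_unique (good_mean hP (hΨ F)).2 ?_
        have := (Complex.continuous_ofReal.tendsto _).comp (real_mean hP (hΨ F) (hΨr F))
        refine this.congr fun L => ?_
        simp only [Function.comp, hΨr]
        rw [integral_complex_ofReal]
      have h4 : (mean P (Ψ F) * mean P (Ψ F)).re = (mean P (Ψ F)).re ^ 2 := by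
        conv_lhs => rw [h3]
        rw [← Complex.ofReal_mul, Complex.ofReal_re, sq]
      rw [h4] at h2
      refine h2.congr fun N => ?_
      simp only [Function.comp]
      rw [show ((N : ℂ)) ^ 2 = (((N : ℝ) ^ 2 : ℝ) : ℂ) by push_cast; rfl, Complex.div_ofReal_re,
        Complex.re_sum]
      simp only [Complex.re_sum]

end Pool.Agent.H142Z.Nice
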