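import Pool.Agent.H142Z.Nice5

set_option autoImplicit false

open MeasureTheory Filter Topology Real

namespace Pool.Agent.H142Z.Nice

lemma icos (k : ℤ) : ∫ θ in (0 : ℝ)..π, cos (k * θ) = if k = 0 then π else 0 := by
  split_ifs with h
  · simp [h]
  · have hk : (k : ℝ) ≠ 0 := by exact_mod_cast h
    rw [intervalIntegral.integral_comp_mul_left (fun x => cos x) hk]
    simp [Real.sin_int_mul_pi]

lemma count_diag (a : ℕ → ℝ) (N n : ℕ) (hn : n ≤ N) :
    ∑ i ∈ Finset.range N, ∑ j ∈ Finset.range N,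
      (a (Nat.dist i j) * if (i : ℤ) - j - n = 0 then π else 0) = (N - n) * (a n * π) := by
  rw [Finset.sum_comm]
  have h1 : ∀ j ∈ Finset.range N, ∑ i ∈ Finset.range N,
      (a (Nat.dist i j) * if (i : ℤ) - j - n = 0 then π else 0) =
      if j ∈ Finset.range (N - n) then a n * π else 0 := by
    intro j _
    have : ∀ i ∈ Finset.range N, (a (Nat.dist i j) * if (i : ℤ) - j - n = 0 then π else 0) =
        if j + n = i then a n * π else 0 := by
      intro i _
      by_cases h : j + n = i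
      · subst h
        have : Nat.dist (j + n) j = n := by unfold Nat.dist; omega
        rw [this, if_pos (by push_cast; ring), if_pos rfl]
      · rw [if_neg (by omega), if_neg h, mul_zero]
    rw [Finset.sum_congr rfl this, Finset.sum_ite_eq]
    simp only [Finset.mem_range]
    congr 1
    apply propext; omega
  rw [Finset.sum_congr rfl h1, Finset.sum_ite_mem,
    Finset.inter_eq_right.2 (Finset.range_subset_range.2 (Nat.sub_le _ _))]
  simp [hn]

lemma fejer (a : ℕ → ℝ)
    (hpsd : ∀ (N : ℕ) (c : ℕ → ℝ), 0 ≤ ∑ i ∈ Finset.range N, ∑ j ∈ Finset.range N,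
      c i * c j * a (Nat.dist i j)) (N : ℕ) :
    ∃ σ : Measure ℝ, IsFiniteMeasure σ ∧ σ (Set.Icc 0 π)ᶜ = 0 ∧
      ∀ n : ℕ, n ≤ N → ∫ θ, cos (n * θ) ∂σ = (N - n) / N * a n := by
  let F : ℝ → ℝ := fun θ => (∑ i ∈ Finset.range N, ∑ j ∈ Finset.range N,
    a (Nat.dist i j) * cos (((i : ℝ) - j) * θ)) / (N * π)
  have hF0 : ∀ θ, 0 ≤ F θ := by
    intro θ
    refine div_nonneg ?_ (by positivity)
    have h1 := add_nonneg (hpsd N fun i => cos (i * θ)) (hpsd N fun i => sin (i * θ))
    refine h1.trans_eq ?_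
    rw [← Finset.sum_add_distrib]
    refine Finset.sum_congr rfl fun i _ => ?_
    rw [← Finset.sum_add_distrib]
    refine Finset.sum_congr rfl fun j _ => ?_
    rw [sub_mul, cos_sub]; ring
  have hFc : Continuous F := by simp only [F]; fun_prop
  refine ⟨(volume.restrict (Set.Icc 0 π)).withDensity fun θ => ENNReal.ofReal (F θ),
    isFiniteMeasure_withDensity_ofReal hFc.integrableOn_Icc.2, ?_, fun n hn => ?_⟩
  · refine withDensity_absolutelyContinuous _ _ ?_
    rw [Measure.restrict_apply measurableSet_Icc.compl]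
    simp
  rw [integral_withDensity_eq_integral_toReal_smul hFc.measurable.ennreal_ofReal (by simp)]
  simp_rw [ENNReal.toReal_ofReal (hF0 _), smul_eq_mul]
  rw [integral_Icc_eq_integral_Ioc, ← intervalIntegral.integral_of_le pi_pos.le]
  have h1 : ∀ θ, F θ * cos (n * θ) = (∑ i ∈ Finset.range N, ∑ j ∈ Finset.range N,
      (a (Nat.dist i j) * cos ((((i : ℤ) - j - n : ℤ) : ℝ) * θ) +
        a (Nat.dist j i) * cos ((((j : ℤ) - i - n : ℤ) : ℝ) * θ))) / (2 * N * π) := by
    intro θ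
    have : (∑ i ∈ Finset.range N, ∑ j ∈ Finset.range N,
        (a (Nat.dist i j) * cos ((((i : ℤ) - j - n : ℤ) : ℝ) * θ) +
        a (Nat.dist j i) * cos ((((j : ℤ) - i - n : ℤ) : ℝ) * θ))) =
        (∑ i ∈ Finset.range N, ∑ j ∈ Finset.range N,
          a (Nat.dist i j) * cos (((i : ℝ) - j) * θ)) * (2 * cos (n * θ)) := by
      rw [Finset.sum_mul]
      refine Finset.sum_congr rfl fun i _ => ?_
      rw [Finset.sum_mul]
      refine Finset.sum_congr rfl fun j _ => ?_
      push_cast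
      rw [Nat.dist_comm j i, sub_mul _ (n : ℝ), sub_mul _ (n : ℝ), cos_sub, cos_sub,
        show ((j : ℝ) - i) * θ = -(((i : ℝ) - j) * θ) by ring, cos_neg, sin_neg]
      ring
    rw [this]
    simp only [F]
    ring
  simp_rw [h1]
  rw [intervalIntegral.integral_div, intervalIntegral.integral_finset_sum
    fun i _ => Continuous.intervalIntegrable (by fun_prop) _ _]
  have h2 : ∀ i ∈ Finset.range N, ∫ θ in (0 : ℝ)..π, ∑ j ∈ Finset.range N,
      (a (Nat.dist i j) * cos ((((i : ℤ) - j - n : ℤ) : ℝ) * θ) +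
        a (Nat.dist j i) * cos ((((j : ℤ) - i - n : ℤ) : ℝ) * θ)) =
      ∑ j ∈ Finset.range N, (a (Nat.dist i j) * if (i : ℤ) - j - n = 0 then π else 0) +
      ∑ j ∈ Finset.range N, (a (Nat.dist j i) * if (j : ℤ) - i - n = 0 then π else 0) := by
    intro i _
    rw [intervalIntegral.integral_finset_sum
      fun j _ => Continuous.intervalIntegrable (by fun_prop) _ _, ← Finset.sum_add_distrib]
    refine Finset.sum_congr rfl fun j _ => ?_
    rw [intervalIntegral.integral_add (Continuous.intervalIntegrable (by fun_prop) _ _)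
      (Continuous.intervalIntegrable (by fun_prop) _ _), intervalIntegral.integral_const_mul,
      intervalIntegral.integral_const_mul, icos, icos]
  rw [Finset.sum_congr rfl h2, Finset.sum_add_distrib, count_diag a N n hn,
    Finset.sum_comm, count_diag a N n hn]
  rcases Nat.eq_zero_or_pos N with rfl | hN
  · simp
  · have : (0 : ℝ) < N := by exact_mod_cast hN
    field_simp
    ring

theorem herglotz (a : ℕ → ℝ)
    (hpsd : ∀ (N : ℕ) (c : ℕ → ℝ), 0 ≤ ∑ i ∈ Finset.range N, ∑ j ∈ Finset.range N,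
      c i * c j * a (Nat.dist i j)) :
    ∃ σ : Measure ℝ, IsFiniteMeasure σ ∧ σ (Set.Icc 0 π)ᶜ = 0 ∧
      ∀ n : ℕ, ∫ θ, cos (n * θ) ∂σ = a n := by
  choose s hs1 hs2 hs3 using fejer a hpsd
  let P : ℕ → FiniteMeasure ℝ := fun N => ⟨s (N + 1), hs1 _⟩
  have hK := isCompact_setOfPred_finiteMeasure_le_of_isCompact (E := ℝ) (a 0).toNNReal
    (isCompact_Icc (a := 0) (b := π))
  have hmem : ∀ N, P N ∈ {μ : FiniteMeasure ℝ | μ.mass ≤ (a 0).toNNReal ∧
      μ (Set.Icc 0 π)ᶜ = 0} := by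
    intro N
    constructor
    · have h1 := hs3 (N + 1) 0 (Nat.zero_le _)
      have h2 : ((N + 1 : ℕ) : ℝ) ≠ 0 := by positivity
      simp only [Nat.cast_zero, zero_mul, cos_zero, integral_const, smul_eq_mul, mul_one,
        sub_zero, div_self h2, one_mul] at h1
      rw [← h1]
      exact Real.le_toNNReal_iff_coe_le (measureReal_nonneg) |>.2 le_rfl
    · exact (FiniteMeasure.null_iff_toMeasure_null (P N) _).2 (hs2 (N + 1))
  obtain ⟨ν, hν1, hν⟩ := hK.ultrafilter_le_nhds (Ultrafilter.map P (hyperfilter ℕ))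
    (Filter.le_principal_iff.2 (Filter.mem_map.2 (Filter.univ_mem' hmem)))
  have hν' : Tendsto P (hyperfilter ℕ : Filter ℕ) (𝓝 ν) := hν
  have h3 : (hyperfilter ℕ : Filter ℕ) ≤ atTop := by
    rw [← Nat.cofinite_eq_atTop]; exact hyperfilter_le_cofinite
  refine ⟨ν, inferInstance, ?_, fun n => ?_⟩
  · exact (FiniteMeasure.null_iff_toMeasure_null ν _).1 hν1.2
  · let f : BoundedContinuousFunction ℝ ℝ := BoundedContinuousFunction.ofNormedAddCommGroup
      (fun θ => cos (n * θ)) (by fun_prop) 1 fun θ => abs_cos_le_one _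
    have h4 := FiniteMeasure.tendsto_iff_forall_integral_tendsto.1 hν' f
    refine tendsto_nhds_unique h4 (Tendsto.mono_left ?_ h3)
    have h5 : Tendsto (fun N : ℕ => (1 - (n : ℝ) / (N : ℝ)) * a n) atTop (𝓝 ((1 - 0) * a n)) :=
      (tendsto_const_nhds.sub (tendsto_const_div_atTop_nhds_zero_nat _)).mul_const _
    rw [sub_zero, one_mul] at h5
    refine (h5.comp (tendsto_add_atTop_nat 1)).congr' ?_
    filter_upwards [eventually_ge_atTop n] with N hN
    have h2 : ((N + 1 : ℕ) : ℝ) ≠ 0 := by positivity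
    have := hs3 (N + 1) n (by omega)
    simp only [Function.comp]
    rw [one_sub_div h2, ← this]
    rfl

lemma cs_inj {a b : ℝ} (ha : a ∈ Set.Icc 0 π) (hb : b ∈ Set.Icc 0 π) (h : cs a = cs b) :
    a = b := by
  apply injOn_cos ha hb
  rw [← cs_re, ← cs_re, h]

lemma atom_zero (σ : Measure ℝ) [IsFiniteMeasure σ] (hσ : σ (Set.Icc 0 π)ᶜ = 0) :
    Tendsto (fun N : ℕ => (∑ i ∈ Finset.range N, ∑ j ∈ Finset.range N,
      ∫ θ, cos ((Nat.dist i j : ℕ) * θ) ∂σ) / (N : ℝ) ^ 2) atTop (𝓝 (σ.real {0})) := by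
  have h1 : ∀ N : ℕ, (∑ i ∈ Finset.range N, ∑ j ∈ Finset.range N,
      ∫ θ, cos ((Nat.dist i j : ℕ) * θ) ∂σ) / (N : ℝ) ^ 2 = ∫ θ, ‖av (cs θ) N‖ ^ 2 ∂σ := by
    intro N
    simp_rw [← integral_finset_sum _ fun j _ => int_cos σ _]
    rw [← integral_finset_sum _ fun i _ => integrable_finset_sum _ fun j _ => int_cos σ _,
      ← integral_div]
    congr 1; ext θ
    have := normsq_sum (Finset.range N) (fun _ => 1) fun j : ℕ => j * θ
    simp only [Complex.ofReal_one, one_mul] at this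
    rw [av, norm_div, div_pow, Complex.norm_natCast]
    simp_rw [cs_pow]
    rw [this]
    congr 1
    refine Finset.sum_congr rfl fun i _ => Finset.sum_congr rfl fun j _ => ?_
    rcases le_total i j with h | h
    · rw [Nat.dist_eq_sub_of_le h, Nat.cast_sub h, ← cos_neg]; congr 1; ring
    · rw [Nat.dist_eq_sub_of_le_right h, Nat.cast_sub h]; congr 1; ring
  simp_rw [h1]
  rw [← int_ind σ (measurableSet_singleton 0)]
  refine tendsto_integral_of_dominated_convergence (fun _ => 1) (fun N => ?_)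
    (integrable_const _) (fun N => Eventually.of_forall fun θ => ?_) ?_
  · exact (((cont_av N).comp cont_cs).norm.pow 2).measurable.aestronglyMeasurable
  · rw [norm_pow, norm_norm]
    exact pow_le_one₀ (norm_nonneg _) (av_norm (norm_cs θ) N)
  · have : ∀ᵐ θ ∂σ, θ ∈ Set.Icc 0 π := hσ
    filter_upwards [this] with θ hθ
    have h2 := ((av_tendsto (norm_cs θ)).norm).pow 2
    by_cases h : θ = 0
    · subst h
      simpa [ind, cs_zero] using h2
    · have h3 : cs θ ≠ 1 := fun h4 =>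
        h (cs_inj hθ ⟨le_rfl, pi_pos.le⟩ (h4.trans cs_zero.symm))
      simpa [ind, h, h3] using h2

lemma small_rest (σ : Measure ℝ) [IsFiniteMeasure σ] {D : Set ℝ} (hD : D.Countable) {η : ℝ}
    (hη : 0 < η) : ∃ Θ : Finset ℝ, (Θ : Set ℝ) ⊆ D ∧ σ.real (D \ Θ) ≤ η := by
  classical
  rcases D.eq_empty_or_nonempty with rfl | hne
  · exact ⟨∅, by simp, by simpa using hη.le⟩
  obtain ⟨f, rfl⟩ := hD.exists_eq_range hne
  let s : ℕ → Set ℝ := fun k => Set.range f \ ((Finset.range k).image f : Finset ℝ)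
  have hs : Antitone s := by
    intro k l hkl
    refine Set.diff_subset_diff_right ?_
    exact_mod_cast Finset.image_subset_image (Finset.range_subset_range.2 hkl)
  have h1 := tendsto_measure_iInter_atTop (μ := σ) (s := s)
    (fun k => (hD.mono Set.diff_subset).measurableSet.nullMeasurableSet) hs
    ⟨0, measure_ne_top _ _⟩
  have h2 : ⋂ k, s k = ∅ := by
    rw [Set.eq_empty_iff_forall_notMem]
    intro x hx
    rw [Set.mem_iInter] at hx
    obtain ⟨k, rfl⟩ := (hx 0).1
    exact (hx (k + 1)).2 (by simp; exact ⟨k, le_rfl, rfl⟩)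
  rw [h2, measure_empty] at h1
  have h3 := (ENNReal.tendsto_toReal ENNReal.zero_ne_top).comp h1
  obtain ⟨k, hk⟩ := (h3.eventually (gt_mem_nhds hη)).exists
  refine ⟨(Finset.range k).image f, ?_, hk.le⟩
  intro x hx
  simp only [Finset.coe_image, Set.mem_image] at hx
  obtain ⟨i, -, rfl⟩ := hx
  exact ⟨i, rfl⟩

theorem split (σ : Measure ℝ) [IsFiniteMeasure σ] (hσ : σ (Set.Icc 0 π)ᶜ = 0) {η : ℝ}
    (hη : 0 < η) :
    ∃ (Θ : Finset ℝ) (w : ℝ → ℝ) (ρ : Measure ℝ), IsFiniteMeasure ρ ∧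
      (∀ θ ∈ Θ, 0 < θ ∧ θ ≤ π) ∧ (∀ θ, 0 ≤ w θ) ∧ (∀ᵐ p ∂(ρ.prod ρ), cs p.1 ≠ cs p.2) ∧
      ∀ n : ℕ, ∑ θ ∈ Θ, w θ * cos (n * θ) + ∫ θ, cos (n * θ) ∂ρ ≤
        ∫ θ, cos (n * θ) ∂σ - σ.real {0} + η := by
  let A : Set ℝ := {θ | 0 < σ {θ}}
  have hA : A.Countable := Measure.countable_meas_level_set_pos (μ := σ) (g := id) measurable_id
  let D : Set ℝ := A \ {0}
  have hD : D.Countable := hA.mono Set.diff_subset
  obtain ⟨Θ, hΘ, hsm⟩ := small_rest σ hD hη
  let E : Set ℝ := (A ∪ {0})ᶜ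
  have hE : MeasurableSet E := (hA.measurableSet.union (measurableSet_singleton 0)).compl
  refine ⟨Θ, fun θ => σ.real {θ}, σ.restrict E, inferInstance, fun θ hθ => ?_,
    fun θ => measureReal_nonneg, ?_, fun n => ?_⟩
  · have h1 := hΘ hθ
    have h2 : θ ∈ Set.Icc 0 π := by
      by_contra h
      exact (ne_of_gt h1.1) (measure_mono_null (Set.singleton_subset_iff.2 h) hσ)
    exact ⟨lt_of_le_of_ne h2.1 (Ne.symm h1.2), h2.2⟩
  · have hc := cont_cs
    rw [Measure.ae_prod_iff_ae_ae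
      (isOpen_ne_fun (by fun_prop) (by fun_prop)).measurableSet]
    have h1 : ∀ᵐ θ ∂(σ.restrict E), θ ∈ Set.Icc 0 π := ae_restrict_of_ae hσ
    filter_upwards [h1, ae_restrict_mem hE] with θ hθ hθE
    have h2 : ∀ᵐ θ' ∂(σ.restrict E), θ' ≠ θ := by
      apply ae_restrict_of_ae
      have : σ {θ} = 0 := by
        by_contra h
        exact hθE (Or.inl (pos_iff_ne_zero.2 h))
      rw [ae_iff]
      simpa using this
    filter_upwards [h1, h2] with θ' hθ' hne h
    exact hne (cs_inj hθ hθ' h).symm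
  · have hi := int_cos σ n
    have hm := (hD.mono (Set.diff_subset (t := (Θ : Set ℝ)))).measurableSet
    have e1 := integral_add_compl hE hi
    have e2 : Eᶜ = {0} ∪ ((Θ : Set ℝ) ∪ D \ Θ) := by
      rw [Set.union_diff_cancel hΘ]
      simp only [E, D, compl_compl]
      rw [Set.union_diff_self, Set.union_comm]
    rw [e2, setIntegral_union (by rw [Set.union_diff_cancel hΘ]; exact Set.disjoint_sdiff_right)
      (Θ.measurableSet.union hm) hi.integrableOn hi.integrableOn,
      setIntegral_union Set.disjoint_sdiff_right hm hi.integrableOn hi.integrableOn,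
      integral_singleton, setIntegral_finset _ hi.integrableOn] at e1
    have e3 : ‖∫ θ in D \ Θ, cos (n * θ) ∂σ‖ ≤ 1 * σ.real (D \ Θ) :=
      norm_setIntegral_le_of_norm_le_const (measure_lt_top _ _) fun θ _ => abs_cos_le_one _
    simp only [mul_zero, cos_zero, smul_eq_mul, mul_one] at e1
    rw [one_mul, Real.norm_eq_abs, abs_le] at e3
    linarith [e3.1]

end Pool.Agent.H142Z.Nice
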