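import Pool.Agent.H142Z.Nice6

set_option autoImplicit false

open MeasureTheory Filter Topology Real
open scoped ComplexConjugate

namespace Pool.Agent.H142Z.Nice

variable {σ : Measure ℝ} {P : ℕ → Measure Om}

/-- one term of the almost periodic part -/
noncomputable def gt (w : ℝ → ℝ) (n : ℕ) (θ s : ℝ) : Om → ℂ :=
  (((√(2 * w θ) / 2 : ℝ) : ℂ) * cs (s * (π / 4 + n * θ))) • el (cs (s * θ)) 0

/-- the almost periodic part -/
noncomputable def GG (Θ : Finset ℝ) (w : ℝ → ℝ) (n : ℕ) : Om → ℂ :=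
  ∑ θ ∈ Θ, (gt w n θ 1 + gt w n θ (-1))

/-- the Gaussian part -/
noncomputable def HH (τ : ℝ) (n : ℕ) : Om → ℂ :=
  (1 / (2 * Complex.I * τ) : ℂ) • el 1 (Finsupp.single n τ) +
    (-(1 / (2 * Complex.I * τ)) : ℂ) • el 1 (Finsupp.single n (-τ))

lemma gt_mem (w : ℝ → ℝ) (n : ℕ) (θ s : ℝ) : gt w n θ s ∈ SS :=
  SS.smul_mem _ (el_mem (norm_cs _) _)

lemma GG_mem (Θ : Finset ℝ) (w : ℝ → ℝ) (n : ℕ) : GG Θ w n ∈ SS :=
  SS.sum_mem fun θ _ => SS.add_mem (gt_mem w n θ 1) (gt_mem w n θ (-1))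

lemma el1_mem (t : ℕ →₀ ℝ) : el 1 t ∈ SS := el_mem (by simp) t

lemma HH_mem (τ : ℝ) (n : ℕ) : HH τ n ∈ SS :=
  SS.add_mem (SS.smul_mem _ (el1_mem _)) (SS.smul_mem _ (el1_mem _))

lemma cs_add_neg (a : ℝ) : cs a + cs (-a) = ((2 * cos a : ℝ) : ℂ) := by
  apply Complex.ext
  · simp only [Complex.add_re, cs_re, Complex.ofReal_re, cos_neg]; ring
  · simp only [Complex.add_im, cs_im, Complex.ofReal_im, sin_neg]; ring

lemma cs_sub_neg (a : ℝ) : cs a - cs (-a) = ((2 * sin a : ℝ) : ℂ) * Complex.I := by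
  apply Complex.ext
  · simp only [Complex.sub_re, cs_re, cos_neg, Complex.mul_I_re, Complex.ofReal_im]; ring
  · simp only [Complex.sub_im, cs_im, sin_neg, Complex.mul_I_im, Complex.ofReal_re]; ring

lemma GG_apply (Θ : Finset ℝ) (w : ℝ → ℝ) (n : ℕ) (p : Om) :
    GG Θ w n p = ((∑ θ ∈ Θ, √(2 * w θ) * cos (π / 4 + ((p.1 + n : ℕ) : ℝ) * θ) : ℝ) : ℂ) := by
  rw [GG, Finset.sum_apply, Complex.ofReal_sum]
  refine Finset.sum_congr rfl fun θ _ => ?_
  simp only [gt, el, pair, Pi.add_apply, Pi.smul_apply, smul_eq_mul, map_zero, cs_zero, mul_one,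
    cs_pow, mul_assoc, ← cs_add]
  rw [← mul_add, show -1 * (π / 4 + n * θ) + p.1 * (-1 * θ) =
    -(1 * (π / 4 + n * θ) + p.1 * (1 * θ)) by ring, cs_add_neg,
    show 1 * (π / 4 + n * θ) + p.1 * (1 * θ) = π / 4 + ((p.1 + n : ℕ) : ℝ) * θ by push_cast; ring,
    ← Complex.ofReal_mul]
  congr 1; ring

lemma HH_apply {τ : ℝ} (hτ : τ ≠ 0) (n : ℕ) (p : Om) :
    HH τ n p = ((sin (τ * p.2 n) / τ : ℝ) : ℂ) := by
  have h1 : (τ : ℂ) ≠ 0 := by exact_mod_cast hτ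
  simp only [HH, el, pair, Pi.add_apply, Pi.smul_apply, smul_eq_mul, one_pow, one_mul,
    Finsupp.linearCombination_single, neg_mul, ← sub_eq_add_neg, ← mul_sub]
  rw [cs_sub_neg]
  push_cast
  field_simp

lemma cs_ne_one {θ s : ℝ} (h : 0 < θ ∧ θ ≤ π) (hs : s = 1 ∨ s = -1) : cs (s * θ) ≠ 1 := by
  intro h1
  have h2 : cos (s * θ) = 1 := by rw [← cs_re, h1]; simp
  have h3 : cos θ = 1 := by
    rcases hs with rfl | rfl
    · simpa using h2
    · simpa using h2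
  have := (cos_eq_one_iff_of_lt_of_lt (x := θ) (by linarith [pi_pos]) (by linarith [pi_pos])).1 h3
  linarith

lemma mean_GG_el (hP : Spaces σ P) {Θ : Finset ℝ} (hΘ : ∀ θ ∈ Θ, 0 < θ ∧ θ ≤ π) (w : ℝ → ℝ)
    (n : ℕ) (t : ℕ →₀ ℝ) : mean P (GG Θ w n * el 1 t) = 0 := by
  have h1 : ∀ θ ∈ Θ, ∀ s : ℝ, s = 1 ∨ s = -1 → mean P (gt w n θ s * el 1 t) = 0 := by
    intro θ hθ s hs
    rw [gt, smul_mul_assoc, el_mul, mul_one, mean_smul hP (el_mem (norm_cs _) _),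
      mean_el hP (norm_cs _), mn, if_neg (cs_ne_one (hΘ θ hθ) hs)]
    simp
  rw [GG, Finset.sum_mul, mean_sum hP _ _ fun θ _ =>
    mul_mem_SS (SS.add_mem (gt_mem _ _ _ _) (gt_mem _ _ _ _)) (el1_mem t)]
  refine Finset.sum_eq_zero fun θ hθ => ?_
  rw [add_mul, mean_add hP (mul_mem_SS (gt_mem _ _ _ _) (el1_mem t))
    (mul_mem_SS (gt_mem _ _ _ _) (el1_mem t)), h1 θ hθ 1 (Or.inl rfl), h1 θ hθ (-1) (Or.inr rfl),
    add_zero]

lemma mean_GG (hP : Spaces σ P) {Θ : Finset ℝ} (hΘ : ∀ θ ∈ Θ, 0 < θ ∧ θ ≤ π) (w : ℝ → ℝ)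
    (n : ℕ) : mean P (GG Θ w n) = 0 := by
  have := mean_GG_el hP hΘ w n 0
  rwa [el_one, mul_one] at this

lemma mean_GG_HH (hP : Spaces σ P) {Θ : Finset ℝ} (hΘ : ∀ θ ∈ Θ, 0 < θ ∧ θ ≤ π) (w : ℝ → ℝ)
    (n : ℕ) (τ : ℝ) (m : ℕ) : mean P (GG Θ w n * HH τ m) = 0 := by
  have h := fun t => mul_mem_SS (GG_mem Θ w n) (el1_mem t)
  rw [HH, mul_add, mul_smul_comm, mul_smul_comm,
    mean_add hP (SS.smul_mem _ (h _)) (SS.smul_mem _ (h _)), mean_smul hP (h _),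
    mean_smul hP (h _), mean_GG_el hP hΘ, mean_GG_el hP hΘ]
  simp

lemma Q_zero : Q σ 0 = 0 := by simp [Q, hat]

lemma mean_one (hP : Spaces σ P) : mean P 1 = 1 := by
  rw [← el_one, mean_el hP (by simp), mn, Q_zero]; simp

open Classical in
lemma mean_gt_gt (hP : Spaces σ P) (w : ℝ → ℝ) (n : ℕ) (θ θ' s s' : ℝ) :
    mean P (gt w 0 θ s * gt w n θ' s') = ((√(2 * w θ) / 2 * (√(2 * w θ') / 2) : ℝ) : ℂ) *
      cs (s * (π / 4) + s' * (π / 4 + n * θ')) * if cs (s * θ + s' * θ') = 1 then 1 else 0 := by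
  rw [gt, gt, smul_mul_smul_comm, el_mul, ← cs_add, add_zero,
    mean_smul hP (el_mem (norm_cs _) _), mean_el hP (norm_cs _), mn, Q_zero, cs_add (s * (π / 4))]
  simp only [Nat.cast_zero, zero_mul, add_zero]
  push_cast
  simp only [zero_div, neg_zero, Complex.exp_zero, mul_one]
  ring

lemma mean_GG_GG (hP : Spaces σ P) {Θ : Finset ℝ} (hΘ : ∀ θ ∈ Θ, 0 < θ ∧ θ ≤ π) {w : ℝ → ℝ}
    (hw : ∀ θ, 0 ≤ w θ) (n : ℕ) :
    mean P (GG Θ w 0 * GG Θ w n) = ((∑ θ ∈ Θ, w θ * cos (n * θ) : ℝ) : ℂ) := by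
  classical
  have hm := fun k θ => SS.add_mem (gt_mem w k θ 1) (gt_mem w k θ (-1))
  have hg := fun θ θ' s s' => mul_mem_SS (gt_mem w 0 θ s) (gt_mem w n θ' s')
  rw [GG, GG, Finset.sum_mul_sum, mean_sum hP _ _ fun θ _ =>
    SS.sum_mem fun θ' _ => mul_mem_SS (hm _ _) (hm _ _), Complex.ofReal_sum]
  refine Finset.sum_congr rfl fun θ hθ => ?_
  rw [mean_sum hP _ _ fun θ' _ => mul_mem_SS (hm _ _) (hm _ _)]
  have key : ∀ θ' ∈ Θ, mean P ((gt w 0 θ 1 + gt w 0 θ (-1)) * (gt w n θ' 1 + gt w n θ' (-1))) =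
      if θ = θ' then ((w θ * cos (n * θ) : ℝ) : ℂ) else 0 := by
    intro θ' hθ'
    obtain ⟨a1, a2⟩ := hΘ θ hθ
    obtain ⟨b1, b2⟩ := hΘ θ' hθ'
    rw [add_mul, mul_add, mul_add, mean_add hP (SS.add_mem (hg _ _ _ _) (hg _ _ _ _))
      (SS.add_mem (hg _ _ _ _) (hg _ _ _ _)), mean_add hP (hg _ _ _ _) (hg _ _ _ _),
      mean_add hP (hg _ _ _ _) (hg _ _ _ _)]
    simp only [mean_gt_gt hP]
    have e1 : (cs (1 * θ + -1 * θ') = 1) ↔ θ = θ' := by
      constructor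
      · intro h
        have h2 : cos (1 * θ + -1 * θ') = 1 := by rw [← cs_re, h]; simp
        have := (cos_eq_one_iff_of_lt_of_lt (by linarith) (by linarith)).1 h2
        linarith
      · rintro rfl
        simp [cs_zero]
    have e2 : (cs (-1 * θ + 1 * θ') = 1) ↔ θ = θ' := by
      constructor
      · intro h
        have h2 : cos (-1 * θ + 1 * θ') = 1 := by rw [← cs_re, h]; simp
        have := (cos_eq_one_iff_of_lt_of_lt (by linarith) (by linarith)).1 h2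
        linarith
      · rintro rfl
        simp [cs_zero]
    have e3 : (cs (-1 * θ + -1 * θ') = 1) ↔ (cs (1 * θ + 1 * θ') = 1) := by
      rw [show -1 * θ + -1 * θ' = -(1 * θ + 1 * θ') by ring, ← cs_conj]
      constructor
      · intro h
        have := congrArg conj h
        simpa using this
      · intro h
        rw [h]; simp
    have e4 : cs (1 * θ + 1 * θ') = 1 → cs (1 * (π / 4) + 1 * (π / 4 + n * θ')) +
        cs (-1 * (π / 4) + -1 * (π / 4 + n * θ')) = 0 := by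
      intro h
      have h2 : cos (1 * θ + 1 * θ') = 1 := by rw [← cs_re, h]; simp
      have h3 : θ' = π := by
        by_contra hne
        have := (cos_eq_one_iff_of_lt_of_lt (by linarith)
          (by linarith [lt_of_le_of_ne b2 hne])).1 h2
        linarith
      rw [show -1 * (π / 4) + -1 * (π / 4 + n * θ') = -(1 * (π / 4) + 1 * (π / 4 + n * θ')) by ring,
        cs_add_neg, h3, show 1 * (π / 4) + 1 * (π / 4 + n * π) = n * π + π / 2 by ring,
        cos_add_pi_div_two, sin_nat_mul_pi]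
      simp
    have e5 : cs (1 * (π / 4) + -1 * (π / 4 + n * θ')) +
        cs (-1 * (π / 4) + 1 * (π / 4 + n * θ')) = ((2 * cos (n * θ') : ℝ) : ℂ) := by
      rw [← cs_add_neg, add_comm]
      congr 2 <;> ring
    simp only [e1, e2, e3]
    have e6 : ((√(2 * w θ) / 2 * (√(2 * w θ') / 2) : ℝ) : ℂ) *
        cs (1 * (π / 4) + 1 * (π / 4 + n * θ')) * (if cs (1 * θ + 1 * θ') = 1 then 1 else 0) +
        ((√(2 * w θ) / 2 * (√(2 * w θ') / 2) : ℝ) : ℂ) *
        cs (-1 * (π / 4) + -1 * (π / 4 + n * θ')) * (if cs (1 * θ + 1 * θ') = 1 then 1 else 0) =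
        0 := by
      split_ifs with h
      · rw [mul_one, mul_one, ← mul_add, e4 h, mul_zero]
      · simp
    by_cases h : θ = θ'
    · subst h
      simp only [if_true, mul_one]
      have e7 : √(2 * w θ) / 2 * (√(2 * w θ) / 2) * (2 * cos (n * θ)) = w θ * cos (n * θ) := by
        have := mul_self_sqrt (x := 2 * w θ) (by linarith [hw θ])
        linear_combination (cos (n * θ) / 2) * this
      rw [← e7, Complex.ofReal_mul _ (2 * cos (n * θ)), ← e5]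
      linear_combination e6
    · simp only [h, if_false, mul_zero]
      linear_combination e6
  rw [Finset.sum_congr rfl key, Finset.sum_ite_eq, if_pos hθ]

lemma Q_two [IsFiniteMeasure σ] (a b : ℝ) (n : ℕ) :
    Q σ (Finsupp.single 0 a + Finsupp.single n b) =
      (a ^ 2 + b ^ 2) * σ.real Set.univ + 2 * a * b * ∫ θ, cos (n * θ) ∂σ := by
  have h1 : ∀ θ, ‖hat (Finsupp.single 0 a + Finsupp.single n b) θ‖ ^ 2 =
      (a ^ 2 + b ^ 2) + 2 * a * b * cos (n * θ) := by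
    intro θ
    rw [hat_add]
    simp only [hat, Finsupp.linearCombination_single, cs_pow, Complex.sq_norm,
      Complex.normSq_apply, Complex.add_re, Complex.add_im, Complex.smul_re, Complex.smul_im,
      cs_re, cs_im, Nat.cast_zero, zero_mul, cos_zero, sin_zero, smul_eq_mul]
    linear_combination b ^ 2 * sin_sq_add_cos_sq (n * θ)
  simp only [Q, h1]
  rw [integral_add (integrable_const _) ((int_cos σ _).const_mul _), integral_const_mul]
  simp [mul_comm]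

lemma mean_HH (hP : Spaces σ P) (τ : ℝ) (n : ℕ) : mean P (HH τ n) = 0 := by
  rw [HH, mean_add hP (SS.smul_mem _ (el1_mem _)) (SS.smul_mem _ (el1_mem _)),
    mean_smul hP (el1_mem _), mean_smul hP (el1_mem _), mean_el hP (by simp),
    mean_el hP (by simp), mn, mn]
  have : Q σ (Finsupp.single n (-τ)) = Q σ (Finsupp.single n τ) := by
    simp [Q, hat]
  rw [this]; ring

lemma mean_HH_HH [IsFiniteMeasure σ] (hP : Spaces σ P) {τ : ℝ} (hτ : τ ≠ 0) (n : ℕ) :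
    mean P (HH τ 0 * HH τ n) =
      (((exp (-(τ ^ 2 * (σ.real Set.univ - ∫ θ, cos (n * θ) ∂σ))) -
        exp (-(τ ^ 2 * (σ.real Set.univ + ∫ θ, cos (n * θ) ∂σ)))) / (2 * τ ^ 2) : ℝ) : ℂ) := by
  have h1 : (τ : ℂ) ≠ 0 := by exact_mod_cast hτ
  have hm := fun (c : ℂ) t => SS.smul_mem c (el1_mem t)
  rw [HH, HH, add_mul, mul_add, mul_add]
  simp only [smul_mul_smul_comm, el_mul, mul_one]
  rw [mean_add hP (SS.add_mem (hm _ _) (hm _ _)) (SS.add_mem (hm _ _) (hm _ _)),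
    mean_add hP (hm _ _) (hm _ _), mean_add hP (hm _ _) (hm _ _)]
  simp only [mean_smul hP (el1_mem _), mean_el hP (z := 1) (by simp), mn, Q_two, if_true, one_mul]
  set r0 := σ.real Set.univ
  set r := ∫ θ, cos (n * θ) ∂σ
  rw [show ((τ ^ 2 + τ ^ 2) * r0 + 2 * τ * τ * r) / 2 = τ ^ 2 * (r0 + r) by ring,
    show ((τ ^ 2 + (-τ) ^ 2) * r0 + 2 * τ * -τ * r) / 2 = τ ^ 2 * (r0 - r) by ring,
    show (((-τ) ^ 2 + τ ^ 2) * r0 + 2 * -τ * τ * r) / 2 = τ ^ 2 * (r0 - r) by ring,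
    show (((-τ) ^ 2 + (-τ) ^ 2) * r0 + 2 * -τ * -τ * r) / 2 = τ ^ 2 * (r0 + r) by ring]
  rw [Complex.ofReal_div, Complex.ofReal_sub, Complex.ofReal_exp, Complex.ofReal_exp,
    Complex.ofReal_neg, Complex.ofReal_neg]
  set A := Complex.exp (-((τ ^ 2 * (r0 + r) : ℝ) : ℂ))
  set B := Complex.exp (-((τ ^ 2 * (r0 - r) : ℝ) : ℂ))
  push_cast
  field_simp
  rw [Complex.I_sq]
  ring

lemma sinh_bound {s r0 r : ℝ} (hs : 0 < s) (hr : |r| ≤ r0) :
    (exp (-(s * (r0 - r))) - exp (-(s * (r0 + r)))) / (2 * s) ≤ r + 2 * s * r0 ^ 2 := by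
  obtain ⟨h1, h2⟩ := abs_le.1 hr
  have hu : 0 ≤ s * (r0 - r) := mul_nonneg hs.le (by linarith)
  have h3 : exp (-(s * (r0 - r))) ≤ 1 - s * (r0 - r) + (s * (r0 - r)) ^ 2 := by
    set u := s * (r0 - r)
    have h4 := add_one_le_exp u
    have h5 : exp (-u) * exp u = 1 := by rw [← exp_add]; simp
    have h6 := exp_pos (-u)
    have h7 : exp (-u) * (u + 1) ≤ 1 := by nlinarith
    by_contra hc
    push Not at hc
    nlinarith [pow_nonneg hu 3]
  have h4 := add_one_le_exp (-(s * (r0 + r)))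
  rw [div_le_iff₀ (by positivity)]
  have h5 : (r0 - r) ^ 2 ≤ 4 * r0 ^ 2 := by nlinarith
  nlinarith [mul_le_mul_of_nonneg_left h5 (sq_nonneg s)]

end Pool.Agent.H142Z.Nice
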