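import Pool.Agent.H142Z.Nice7

set_option autoImplicit false

open MeasureTheory Filter Topology Real

namespace Pool.Agent.H142Z.Nice

theorem realise (Θ : Finset ℝ) (w : ℝ → ℝ) (ρ : Measure ℝ) [IsFiniteMeasure ρ]
    (hΘ : ∀ θ ∈ Θ, 0 < θ ∧ θ ≤ π) (hw : ∀ θ, 0 ≤ w θ)
    (hρ : ∀ᵐ p ∂(ρ.prod ρ), cs p.1 ≠ cs p.2) {η : ℝ} (hη : 0 < η) :
    ∃ (ν : Measure (ℕ → Bool)) (δ : ℝ), IsProbabilityMeasure ν ∧ MeasurePreserving S ν ν ∧
      IsErgodicSystem ν S ∧ 0 < δ ∧ ν.real (C {0}) = 1 / 2 ∧ ∀ n : ℕ, n ≠ 0 →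
        ν.real (C {0} ∩ S^[n] ⁻¹' C {0}) ≤
          1 / 4 + δ ^ 2 * (∑ θ ∈ Θ, w θ * cos (n * θ) + ∫ θ, cos (n * θ) ∂ρ + η) := by
  obtain ⟨P, hP⟩ : ∃ P, Spaces ρ P := exists_spaces ρ
  set r0 := ρ.real Set.univ with hr0
  set τ := √(η / (2 * (r0 ^ 2 + 1))) with hτ
  have hτ0 : 0 < τ := sqrt_pos.2 (by positivity)
  have hτ2 : 2 * τ ^ 2 * r0 ^ 2 ≤ η := by
    rw [hτ, sq_sqrt (by positivity)]
    have : 2 * (η / (2 * (r0 ^ 2 + 1))) * r0 ^ 2 = η * (r0 ^ 2 / (r0 ^ 2 + 1)) := by field_simp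
    rw [this]
    exact mul_le_of_le_one_right hη.le ((div_le_one (by positivity)).2 (by linarith))
  set K := ∑ θ ∈ Θ, √(2 * w θ) + 1 / τ with hK
  have hK0 : 0 < K := by positivity
  set δ := 1 / (2 * K) with hδ
  have hδ0 : 0 < δ := by positivity
  let u : Om → ℝ := fun p => ∑ θ ∈ Θ, √(2 * w θ) * cos (π / 4 + ((p.1 + 0 : ℕ) : ℝ) * θ) +
    sin (τ * p.2 0) / τ
  have hu : ∀ p, |u p| ≤ K := by
    intro p
    refine (abs_add_le _ _).trans (add_le_add ?_ ?_)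
    · refine (Finset.abs_sum_le_sum_abs _ _).trans (Finset.sum_le_sum fun θ _ => ?_)
      rw [abs_mul, abs_of_nonneg (sqrt_nonneg _)]
      exact mul_le_of_le_one_right (sqrt_nonneg _) (abs_cos_le_one _)
    · rw [abs_div, abs_of_pos hτ0]
      gcongr
      exact abs_sin_le_one _
  have hδK : δ * K = 1 / 2 := by rw [hδ]; field_simp
  let Φ : ℕ → Om → ℂ := fun n => ((1 / 2 : ℝ) : ℂ) • (1 : Om → ℂ) + (δ : ℂ) • (GG Θ w n + HH τ n)
  have hV : ∀ n, GG Θ w n + HH τ n ∈ SS := fun n => SS.add_mem (GG_mem Θ w n) (HH_mem τ n)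
  have hΦ : ∀ n, Φ n ∈ SS := fun n =>
    SS.add_mem (SS.smul_mem _ one_mem_SS) (SS.smul_mem _ (hV n))
  have hsh : ∀ n, sh n (Φ 0) = Φ n := by
    intro n
    ext p
    simp [sh, Φ, GG_apply, HH_apply hτ0.ne']
  obtain ⟨ν, h1, h2, h3, h4⟩ := construct hρ hP (fun p => 1 / 2 + δ * u p) (Φ 0) (hΦ 0)
    (fun p => by simp [Φ, u, GG_apply, HH_apply hτ0.ne', mul_add])
    (fun p => by nlinarith [(abs_le.1 (hu p)).1])
    (fun p => by nlinarith [(abs_le.1 (hu p)).2])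
  have hmV : ∀ n, mean P (GG Θ w n + HH τ n) = 0 := fun n => by
    rw [mean_add hP (GG_mem _ _ _) (HH_mem _ _), mean_GG hP hΘ, mean_HH hP, add_zero]
  refine ⟨ν, δ, h1, h2, h3, hδ0, ?_, fun n hn => ?_⟩
  · rw [h4, Finset.prod_singleton, hsh,
      mean_add hP (SS.smul_mem _ one_mem_SS) (SS.smul_mem _ (hV 0)), mean_smul hP one_mem_SS,
      mean_smul hP (hV 0), hmV, mean_one hP]
    simp
  · rw [preimage_C, ← C_union, h4, Finset.prod_union (by simpa [tr] using hn.symm)]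
    simp only [tr, Finset.image_singleton, Finset.prod_singleton, zero_add, hsh]
    have e1 : Φ 0 * Φ n = ((1 / 4 : ℝ) : ℂ) • (1 : Om → ℂ) +
        (((δ / 2 : ℝ) : ℂ) • (GG Θ w n + HH τ n) + (((δ / 2 : ℝ) : ℂ) • (GG Θ w 0 + HH τ 0) +
        ((δ ^ 2 : ℝ) : ℂ) • ((GG Θ w 0 * GG Θ w n + GG Θ w 0 * HH τ n) +
          (GG Θ w n * HH τ 0 + HH τ 0 * HH τ n)))) := by
      ext p
      simp only [Φ, Pi.add_apply, Pi.mul_apply, Pi.smul_apply, smul_eq_mul, Pi.one_apply]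
      push_cast
      ring
    have m1 := mul_mem_SS (GG_mem Θ w 0) (GG_mem Θ w n)
    have m2 := mul_mem_SS (GG_mem Θ w 0) (HH_mem τ n)
    have m3 := mul_mem_SS (GG_mem Θ w n) (HH_mem τ 0)
    have m4 := mul_mem_SS (HH_mem τ 0) (HH_mem τ n)
    have m5 := SS.add_mem (SS.add_mem m1 m2) (SS.add_mem m3 m4)
    rw [e1, mean_add hP (SS.smul_mem _ one_mem_SS) (SS.add_mem (SS.smul_mem _ (hV n))
        (SS.add_mem (SS.smul_mem _ (hV 0)) (SS.smul_mem _ m5))),
      mean_add hP (SS.smul_mem _ (hV n)) (SS.add_mem (SS.smul_mem _ (hV 0)) (SS.smul_mem _ m5)),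
      mean_add hP (SS.smul_mem _ (hV 0)) (SS.smul_mem _ m5), mean_smul hP one_mem_SS,
      mean_smul hP (hV n), mean_smul hP (hV 0), mean_smul hP m5, hmV, hmV, mean_one hP,
      mean_add hP (SS.add_mem m1 m2) (SS.add_mem m3 m4), mean_add hP m1 m2, mean_add hP m3 m4,
      mean_GG_GG hP hΘ hw, mean_GG_HH hP hΘ, mean_GG_HH hP hΘ, mean_HH_HH hP hτ0.ne']
    simp only [mul_one, mul_zero, zero_add, add_zero, ← Complex.ofReal_add, ← Complex.ofReal_mul,
      Complex.ofReal_re]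
    have hr : |∫ θ, cos (n * θ) ∂ρ| ≤ r0 := by
      have := norm_integral_le_of_norm_le_const (μ := ρ) (f := fun θ => cos (n * θ)) (C := 1)
        (Eventually.of_forall fun θ => abs_cos_le_one _)
      simpa using this
    have := sinh_bound (s := τ ^ 2) (by positivity) hr
    refine add_le_add le_rfl (mul_le_mul_of_nonneg_left ?_ (sq_nonneg δ))
    rw [← hr0]
    linarith

universe u

theorem main (R : Set ℕ) (h : ErgodicNiceRecurrence.{0} R) : NiceRecurrence.{u} R := by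
  intro X _ μ _ T hT A hA hpos ε hε
  by_contra hcon
  push Not at hcon
  set α := μ.real A with hα
  let a : ℕ → ℝ := fun n => μ.real (A ∩ T^[n] ⁻¹' A)
  have hE : ∀ i : ℕ, MeasurableSet (T^[i] ⁻¹' A) := fun i => (hT.iterate i).measurable hA
  have ha : ∀ i j : ℕ, i ≤ j → μ.real (T^[i] ⁻¹' A ∩ T^[j] ⁻¹' A) = a (j - i) := by
    intro i j hij
    obtain ⟨k, rfl⟩ := Nat.exists_eq_add_of_le hij
    simp only [a, Nat.add_sub_cancel_left]
    rw [← (hT.iterate i).measureReal_preimage (hA.inter (hE k)).nullMeasurableSet,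
      Set.preimage_inter, ← Set.preimage_comp, ← Function.iterate_add, add_comm]
  have ha' : ∀ i j : ℕ, μ.real (T^[i] ⁻¹' A ∩ T^[j] ⁻¹' A) = a (Nat.dist i j) := by
    intro i j
    rcases le_total i j with hij | hij
    · rw [ha i j hij, Nat.dist_eq_sub_of_le hij]
    · rw [Set.inter_comm, ha j i hij, Nat.dist_eq_sub_of_le_right hij]
  obtain ⟨σ, hσ1, hσ2, hσ3⟩ := herglotz a fun N c => by
    simpa only [ha'] using psd_sets μ (Finset.range N) _ hE c
  have hat0 : α ^ 2 ≤ σ.real {0} := by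
    refine ge_of_tendsto (atom_zero σ hσ2) ?_
    filter_upwards [eventually_gt_atTop 0] with N hN
    have hN' : (0 : ℝ) < N := by exact_mod_cast hN
    simp only [hσ3]
    let E : Option ℕ → Set X := fun o => match o with
      | none => Set.univ
      | some i => T^[i] ⁻¹' A
    let co : Option ℕ → ℝ := fun o => match o with
      | none => -(N * α)
      | some _ => 1
    have hEm : ∀ o, MeasurableSet (E o) := by
      rintro (_ | i)
      · exact MeasurableSet.univ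
      · exact hE i
    have hm : ∀ i : ℕ, μ.real (T^[i] ⁻¹' A) = α := fun i =>
      (hT.iterate i).measureReal_preimage hA.nullMeasurableSet
    have := psd_sets μ (Finset.insertNone (Finset.range N)) E hEm co
    simp only [Finset.sum_insertNone, E, co, Set.univ_inter, Set.inter_univ,
      probReal_univ, hm, ha', Finset.sum_add_distrib,
      Finset.sum_const, Finset.card_range, nsmul_eq_mul, one_mul, mul_one] at this
    rw [le_div_iff₀ (by positivity)]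
    nlinarith
  obtain ⟨Θ, w, ρ, hρ1, hΘ, hw, hρ2, hρ3⟩ := split σ hσ2 (η := ε / 4) (by positivity)
  obtain ⟨ν, δ, h1, h2, h3, hδ, h4, h5⟩ := realise Θ w ρ hΘ hw hρ2 (η := ε / 4) (by positivity)
  have hpos' : 0 < ν (C {0}) := by
    rw [pos_iff_ne_zero]
    intro h0
    simp [Measure.real, h0] at h4
  obtain ⟨n, hn, hlt⟩ := h (ℕ → Bool) ν S h2 h3 (C {0}) (meas_C _) hpos' (δ ^ 2 * (ε / 2))
    (by positivity)
  have h6 := hcon n hn
  have hn0 : n ≠ 0 := by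
    rintro rfl
    simp only [Function.iterate_zero, Set.preimage_id_eq, id_eq, Set.inter_self] at h6
    have : α ≤ 1 := measureReal_le_one
    have : 0 ≤ α := measureReal_nonneg
    nlinarith
  have h7 := h5 n hn0
  have h8 := hρ3 n
  rw [hσ3] at h8
  rw [h4] at hlt
  have h9 : ∑ θ ∈ Θ, w θ * cos (n * θ) + ∫ θ, cos (n * θ) ∂ρ + ε / 4 ≤ -(ε / 2) := by
    simp only [a] at h8
    linarith
  nlinarith [mul_le_mul_of_nonneg_left h9 (sq_nonneg δ)]

end Pool.Agent.H142Z.Nice
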