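import Mathlib

set_option autoImplicit false

open MeasureTheory

namespace Pool.Agent.H142Z.Nice

universe u

/-- The measure preserving system `(X, μ, T)` is ergodic: every measurable set `B` with
`T⁻¹ B = B` has measure `0` or `1`. -/
def IsErgodicSystem {X : Type u} [MeasurableSpace X] (μ : Measure X) (T : X → X) : Prop :=
  ∀ B : Set X, MeasurableSet B → T ⁻¹' B = B → μ B = 0 ∨ μ B = 1

/-- `R` is a set of nice recurrence (systems on spaces `X : Type u`). -/
def NiceRecurrence (R : Set ℕ) : Prop :=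
  ∀ (X : Type u) [MeasurableSpace X] (μ : Measure X) [IsProbabilityMeasure μ] (T : X → X),
    MeasurePreserving T μ μ →
    ∀ A : Set X, MeasurableSet A → 0 < μ A → ∀ ε : ℝ, 0 < ε →
      ∃ n ∈ R, μ.real A ^ 2 - ε < μ.real (A ∩ T^[n] ⁻¹' A)

/-- `R` is a set of ergodic nice recurrence: the same condition, required only of ergodic
systems (on spaces `X : Type u`). -/
def ErgodicNiceRecurrence (R : Set ℕ) : Prop :=
  ∀ (X : Type u) [MeasurableSpace X] (μ : Measure X) [IsProbabilityMeasure μ] (T : X → X),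
    MeasurePreserving T μ μ → IsErgodicSystem μ T →
    ∀ A : Set X, MeasurableSet A → 0 < μ A → ∀ ε : ℝ, 0 < ε →
      ∃ n ∈ R, μ.real A ^ 2 - ε < μ.real (A ∩ T^[n] ⁻¹' A)

end Pool.Agent.H142Z.Nice
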